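import Pool.Agent.Lib.MP_88bd66_lcP.Mix

/-!
Completely regular semigroups with `x ^ (c + 2) = x`, whose local monoids are commutative.
-/

set_option autoImplicit false

namespace Pool.Agent.Lib.MP_88bd66_lcP

open Pool.Agent.Lib.MP_88bd66_lc

variable {M : Type} [Semigroup M] {c : ℕ}

/-- `x ^ (c + 2) = x` -/
def CR (c : ℕ) (M : Type) [Semigroup M] : Prop := ∀ x : M, pw x c * x = x

/-- local monoids are commutative -/
def LC (c : ℕ) (M : Type) [Semigroup M] : Prop := ∀ x y z : M,
  pw x c * y * pw x c * (pw x c * z * pw x c) = pw x c * z * pw x c * (pw x c * y * pw x c)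

namespace CR

theorem mul_o (h : CR c M) (x : M) : x * pw x c = x := by
  rw [← pw_succ', pw_succ, h]

theorem idem (h : CR c M) (x : M) : pw x c * pw x c = pw x c := mul_pw (h x) c

theorem mul_iv (h : CR c M) (x : M) : x * pw x (2 * c) = pw x c := by
  rw [← pw_succ', show 2 * c + 1 = c + c + 1 by omega, ← pw_add, h.idem]

theorem iv_mul (h : CR c M) (x : M) : pw x (2 * c) * x = pw x c := by
  rw [← pw_succ, show 2 * c + 1 = c + c + 1 by omega, ← pw_add, h.idem]

theorem o_iv (h : CR c M) (x : M) : pw x c * pw x (2 * c) = pw x (2 * c) := mul_pw (h x) _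

theorem iv_o (h : CR c M) (x : M) : pw x (2 * c) * pw x c = pw x (2 * c) := pw_mul (h.mul_o x) _

end CR

/-- `a ∈ M b M` -/
def Jle (a b : M) : Prop := ∃ p q, a = p * b * q

theorem Jle.trans {a b d : M} (h : Jle a b) (h' : Jle b d) : Jle a d := by
  obtain ⟨p, q, rfl⟩ := h
  obtain ⟨p', q', rfl⟩ := h'
  exact ⟨p * p', q' * q, by simp only [mul_assoc]⟩

theorem Jle.mul_left_right {a b : M} (p q : M) (h : Jle a b) : Jle (p * a * q) b := by
  obtain ⟨p', q', rfl⟩ := h
  exact ⟨p * p', q' * q, by simp only [mul_assoc]⟩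

theorem Jle.mul_left {a b : M} (p : M) (h : Jle a b) : Jle (p * a) b := by
  obtain ⟨p', q', rfl⟩ := h
  exact ⟨p * p', q', by simp only [mul_assoc]⟩

theorem Jle.mul_right {a b : M} (q : M) (h : Jle a b) : Jle (a * q) b := by
  obtain ⟨p', q', rfl⟩ := h
  exact ⟨p', q' * q, by simp only [mul_assoc]⟩

namespace CR

theorem jrefl (h : CR c M) (a : M) : Jle a a := ⟨pw a c, pw a c, by rw [h, h.mul_o]⟩

theorem jleft (h : CR c M) (p b : M) : Jle (p * b) b := (h.jrefl b).mul_left p

theorem jright (h : CR c M) (b q : M) : Jle (b * q) b := (h.jrefl b).mul_right q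

theorem jswap (h : CR c M) (a b : M) : Jle (a * b) (b * a) := by
  refine ⟨a, b * pw (a * b) (2 * c), ?_⟩
  have h1 := h.mul_iv (a * b)
  have h2 := h.mul_o (a * b)
  rw [← h1] at h2
  conv_lhs => rw [← h2]
  simp only [mul_assoc]

theorem jinf (h : CR c M) {s a b : M} (ha : Jle s a) (hb : Jle s b) : Jle s (a * b) := by
  obtain ⟨p, q, hs⟩ := ha
  obtain ⟨p', q', hs'⟩ := hb
  have e : s = p * (a * (q * pw s (2 * c) * p' * b)) * q' := by
    have h1 : s * pw s (2 * c) * s = s := by rw [h.mul_iv, h]
    calc s = s * pw s (2 * c) * s := h1.symm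
      _ = p * a * q * pw s (2 * c) * (p' * b * q') := by rw [← hs, ← hs']
      _ = _ := by simp only [mul_assoc]
  have h1 : Jle s (a * (q * pw s (2 * c) * p' * b)) := ⟨p, q', e⟩
  refine h1.trans ((h.jswap _ _).trans ?_)
  rw [mul_assoc (q * pw s (2 * c) * p')]
  exact (h.jleft _ _).trans (h.jswap _ _)

theorem jo (h : CR c M) (x : M) : Jle x (pw x c) := ⟨x, pw x c, by rw [h.mul_o, h.mul_o]⟩

theorem jiv (h : CR c M) (x : M) : Jle x (pw x (2 * c)) :=
  ⟨x, x, by rw [h.mul_iv, h]⟩

theorem jpw (h : CR c M) (x : M) (k : ℕ) : Jle x (pw x k) := by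
  induction k with
  | zero => exact h.jrefl x
  | succ k ih => exact h.jinf ih (h.jrefl x)

theorem pw_jle (h : CR c M) (x : M) (k : ℕ) : Jle (pw x k) x := by
  induction k with
  | zero => exact h.jrefl x
  | succ k ih => exact ih.mul_right x

theorem iter {a p w : M} (h : a = p * a * w) (k : ℕ) : a = pw p k * a * pw w k := by
  induction k with
  | zero => exact h
  | succ k ih =>
    calc a = pw p k * a * pw w k := ih
      _ = pw p k * (p * a * w) * pw w k := by rw [← h]
      _ = pw p (k + 1) * a * pw w (k + 1) := by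
        rw [pw_succ, pw_succ' w]
        simp only [mul_assoc]

theorem stab_right (h : CR c M) {a p w : M} (ha : a = p * a * w) : a * pw w c = a := by
  have h1 := iter ha c
  calc a * pw w c = pw p c * a * pw w c * pw w c := by rw [← h1]
    _ = pw p c * a * pw w c := by rw [mul_assoc, h.idem]
    _ = a := h1.symm

theorem stab_left (h : CR c M) {a p w : M} (ha : a = p * a * w) : pw p c * a = a := by
  have h1 := iter ha c
  calc pw p c * a = pw p c * (pw p c * a * pw w c) := by rw [← h1]
    _ = pw p c * a * pw w c := by rw [← mul_assoc, ← mul_assoc, h.idem]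
    _ = a := h1.symm

/-- idempotents below in the natural order and above in the `J`-order -/
theorem eq_of_le (h : CR c M) {f t : M} (hff : f * f = f) (ft : f * t = f) (tf : t * f = f)
    (hJ : Jle t f) : f = t := by
  obtain ⟨p, q, hpq⟩ := hJ
  have h1 : t = p * t * (f * q) := by
    calc t = p * f * q := hpq
      _ = p * (t * f) * q := by rw [tf]
      _ = _ := by simp only [mul_assoc]
  have h2 := h.stab_right h1
  have h3 : f * pw (f * q) c = pw (f * q) c := mul_pw (by rw [← mul_assoc, hff]) c
  rw [← h3, ← mul_assoc, tf, h3] at h2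
  rw [← ft, ← h2, h3]

/-- the idempotent power of `e b e` is `e` when `e` is `J`-below `b` -/
theorem loc_o (h : CR c M) {e b : M} (he : e * e = e) (hJ : Jle e b) : pw (e * b * e) c = e := by
  have h1 : e * (e * b * e) = e * b * e := by rw [← mul_assoc, ← mul_assoc, he]
  have h2 : e * b * e * e = e * b * e := by rw [mul_assoc, he]
  refine h.eq_of_le (h.idem _) (pw_mul h2 c) (mul_pw h1 c) ?_
  exact (h.jinf (h.jinf (h.jrefl e) hJ) (h.jrefl e)).trans (h.jo _)

end CR

/-- local commutativity at an idempotent -/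
theorem LC.comm (h : LC c M) {e : M} (he : e * e = e) (y z : M) :
    e * y * e * (e * z * e) = e * z * e * (e * y * e) := by
  have := h e y z
  rwa [pw_idem he] at this

theorem LC.comm' (h : LC c M) {e y z : M} (he : e * e = e) (ey : e * y = y) (ye : y * e = y)
    (ez : e * z = z) (ze : z * e = z) : y * z = z * y := by
  have := h.comm he y z
  rwa [ey, ye, ez, ze] at this

/-- the inverse of `e b e` -/
def ivl (c : ℕ) (e b : M) : M := pw (e * b * e) (2 * c)

section

variable (h : CR c M) {e b : M} (he : e * e = e) (hJ : Jle e b)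

include h he hJ

theorem mul_ivl : e * b * e * ivl c e b = e := by
  rw [ivl, h.mul_iv, h.loc_o he hJ]

theorem ivl_mul : ivl c e b * (e * b * e) = e := by
  rw [ivl, h.iv_mul, h.loc_o he hJ]

omit h hJ in
theorem e_ivl : e * ivl c e b = ivl c e b := mul_pw (by rw [← mul_assoc, ← mul_assoc, he]) _

omit h hJ in
theorem ivl_e : ivl c e b * e = ivl c e b := pw_mul (by rw [mul_assoc, he]) _

theorem ivl_b_ivl : ivl c e b * b * ivl c e b = ivl c e b := by
  have h1 : ivl c e b * b * ivl c e b = ivl c e b * (e * b * e) * ivl c e b := by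
    simp only [← mul_assoc]
    rw [ivl_e he, mul_assoc _ e, e_ivl he]
  rw [h1, ivl_mul h he hJ, e_ivl he]

end

/-- cancelling `b (e b e)⁻¹ b = b` in a context `J`-below `e` -/
theorem sw (h : CR c M) (hl : LC c M) {e b p q : M} (he : e * e = e) (hJ : Jle e b)
    (hs : Jle (p * b * q) e) : p * b * ivl c e b * b * q = p * b * q := by
  set a := ivl c e b with ha
  have haba : a * b * a = a := ivl_b_ivl h he hJ
  set s := p * b * q with hsd
  have hob : pw b c * b = b := h b
  have hbo : b * pw b c = b := h.mul_o b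
  have hoo : pw b c * pw b c = pw b c := h.idem b
  -- the two idempotents
  obtain ⟨r, hr⟩ : ∃ r, r = b * a * pw b c := ⟨_, rfl⟩
  obtain ⟨t, ht⟩ : ∃ t, t = b * q * pw s (2 * c) * p * pw b c := ⟨_, rfl⟩
  have hrb : r * b = b * a * b := by rw [hr, mul_assoc, hob]
  have hbr : pw b c * r = r := by rw [hr, ← mul_assoc, ← mul_assoc, hob]
  have hrb' : r * pw b c = r := by rw [hr, mul_assoc, hoo]
  have hrr : r * r = r := by
    calc r * r = b * a * (pw b c * b) * a * pw b c := by rw [hr]; simp only [mul_assoc]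
      _ = b * (a * b * a) * pw b c := by rw [hob]; simp only [mul_assoc]
      _ = r := by rw [haba, hr]
  have hsi : pw s (2 * c) * s * pw s (2 * c) = pw s (2 * c) := by rw [h.iv_mul, h.o_iv]
  have hpbq : p * pw b c * (b * q) = s := by
    rw [mul_assoc p, ← mul_assoc (pw b c), hob, ← mul_assoc]
  have htt : t * t = t := by
    calc t * t = b * q * pw s (2 * c) * (p * pw b c * (b * q)) * pw s (2 * c) * p * pw b c := by
          rw [ht]; simp only [mul_assoc]
      _ = b * q * (pw s (2 * c) * s * pw s (2 * c)) * p * pw b c := by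
          rw [hpbq]; simp only [mul_assoc]
      _ = t := by rw [hsi, ht]
  have hbt : pw b c * t = t := by
    rw [ht]
    simp only [← mul_assoc]
    rw [hob]
  have htb : t * pw b c = t := by rw [ht, mul_assoc, hoo]
  have hcomm : r * t = t * r := hl.comm' hoo hbr hrb' hbt htb
  -- `t` is `J`-below `r`
  have hts : Jle t s := by
    have h1 : Jle (pw s (2 * c)) s := h.pw_jle s _
    rw [ht]
    exact ((h1.mul_left (b * q)).mul_right p).mul_right (pw b c)
  have her : Jle e r := by
    have h1 : Jle e a := ⟨e * b * e, e, by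
      rw [ha, mul_ivl h he hJ, he]⟩
    have h2 : Jle a r := ⟨a, b * a, by
      calc a = a * b * (a * b * a) := by rw [haba, haba]
        _ = a * (b * a * (pw b c * b)) * a := by rw [hob]; simp only [mul_assoc]
        _ = a * r * (b * a) := by rw [hr]; simp only [mul_assoc]⟩
    exact h1.trans h2
  have htr : Jle t r := (hts.trans hs).trans her
  have hrt : r * t = t := by
    refine h.eq_of_le (f := r * t) (t := t) ?_ ?_ ?_ ?_
    · calc r * t * (r * t) = r * (t * r) * t := by simp only [mul_assoc]
        _ = r * (r * t) * t := by rw [hcomm]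
        _ = r * r * (t * t) := by simp only [mul_assoc]
        _ = r * t := by rw [hrr, htt]
    · rw [mul_assoc, htt]
    · rw [hcomm, ← mul_assoc, htt]
    · exact h.jinf htr (h.jrefl t)
  -- `s₁ = p r b q`
  obtain ⟨s₁, hs₁⟩ : ∃ s₁, s₁ = p * b * a * b * q := ⟨_, rfl⟩
  have hs₁' : s₁ = p * r * (b * q) := by
    rw [hs₁, mul_assoc p r, ← mul_assoc r, hrb]
    simp only [mul_assoc]
  have htbq : t * (b * q) = b * q * pw s c := by
    calc t * (b * q) = b * q * pw s (2 * c) * (p * pw b c * (b * q)) := by
          rw [ht]; simp only [mul_assoc]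
      _ = b * q * pw s c := by rw [hpbq, mul_assoc, h.iv_mul]
  have hpt : p * pw b c * t = pw s c * (p * pw b c) := by
    calc p * pw b c * t = p * pw b c * (b * q) * pw s (2 * c) * (p * pw b c) := by
          rw [ht]; simp only [mul_assoc]
      _ = pw s c * (p * pw b c) := by rw [hpbq, h.mul_iv]
  have hptbq : p * t * (b * q) = s := by
    calc p * t * (b * q) = p * (b * q * pw s c) := by rw [mul_assoc, htbq]
      _ = s * pw s c := by rw [hsd]; simp only [mul_assoc]
      _ = s := h.mul_o s
  have h1 : s₁ * pw s c = s := by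
    calc s₁ * pw s c = p * r * (b * q * pw s c) := by rw [hs₁']; simp only [mul_assoc]
      _ = p * (r * t) * (b * q) := by rw [← htbq]; simp only [mul_assoc]
      _ = s := by rw [hrt, hptbq]
  have h2 : pw s c * s₁ = s := by
    calc pw s c * s₁ = pw s c * (p * (pw b c * r)) * (b * q) := by
          rw [hbr, hs₁']; simp only [mul_assoc]
      _ = pw s c * (p * pw b c) * r * (b * q) := by simp only [mul_assoc]
      _ = p * pw b c * (t * r) * (b * q) := by rw [← hpt]; simp only [mul_assoc]
      _ = p * (pw b c * t) * (b * q) := by rw [← hcomm, hrt]; simp only [mul_assoc]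
      _ = s := by rw [hbt, hptbq]
  have hJ1 : Jle s₁ s := by
    have h3 : Jle s₁ (p * b) := ⟨pw (p * b) c, a * b * q, by
      rw [h]
      rw [hs₁]
      simp only [mul_assoc]⟩
    have h4 : Jle s₁ q := by
      rw [hs₁]
      exact h.jleft _ _
    exact h.jinf h3 h4
  obtain ⟨m, m', hm⟩ := hJ1
  have h5 : s₁ = m * s₁ * (pw s c * m') := by
    calc s₁ = m * s * m' := hm
      _ = m * (s₁ * pw s c) * m' := by rw [h1]
      _ = _ := by simp only [mul_assoc]
  have h6 := h.stab_right h5
  obtain ⟨k, hk⟩ : ∃ k, pw (pw s c * m') c = pw s c * k := by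
    have : pw s c * pw (pw s c * m') c = pw (pw s c * m') c :=
      mul_pw (by rw [← mul_assoc, h.idem]) c
    exact ⟨_, this.symm⟩
  rw [hk, ← mul_assoc, h1] at h6
  change p * b * a * b * q = s
  rw [← hs₁, ← h2, ← h6]
  rw [← mul_assoc, h s]

end Pool.Agent.Lib.MP_88bd66_lcP
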