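import Pool.Agent.Lib.MP_88bd66_lc.Defs

/-!
Permutation identities.
-/

set_option autoImplicit false

namespace Pool.Agent.Lib.MP_88bd66_lcP

/-- `M` satisfies the permutation identity `x₁ ⋯ x_n = x_{π 1} ⋯ x_{π n}` (products in `M` with a
unit adjoined). -/
def PermId {n : ℕ} (π : Equiv.Perm (Fin n)) (M : Type) [Semigroup M] : Prop :=
  ∀ x : Fin n → M, (List.ofFn fun i => (x i : WithOne M)).prod =
    (List.ofFn fun i => (x (π i) : WithOne M)).prod

end Pool.Agent.Lib.MP_88bd66_lcP
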