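import Pool.Agent.Lib.MP_88bd66_lcP.DefsCr

/-!
Semigroups with commuting idempotents and abelian subgroups.
-/

set_option autoImplicit false

namespace Pool.Agent.Lib.MP_88bd66_lcP

/-- Any two idempotents of `M` that stand next to each other inside a product may be exchanged (for
instance: the idempotents of `M` commute), and the subgroups of `M` are abelian. -/
def CIAb (M : Type) [Semigroup M] : Prop :=
  (∀ x e f y : M, e * e = e → f * f = f → x * e * f * y = x * f * e * y) ∧
    ∀ e a b : M, InSub e a → InSub e b → a * b = b * a

end Pool.Agent.Lib.MP_88bd66_lcP
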