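import Pool.Agent.Lib.MP_88bd66_lc.Defs

/-!
Completely regular semigroups with abelian subgroups.
-/

set_option autoImplicit false

namespace Pool.Agent.Lib.MP_88bd66_lcP

/-- `a` lies in a subgroup of `M` with identity element `e`: `e` is an identity for `a`, and `a`
has an inverse with respect to `e`. -/
def InSub {M : Type} [Semigroup M] (e a : M) : Prop :=
  e * a = a ∧ a * e = a ∧ ∃ b, a * b = e ∧ b * a = e

/-- `M` is completely regular (every `x` has a commuting `y` with `x y x = x`) and its subgroups are
abelian. -/
def CRAb (M : Type) [Semigroup M] : Prop :=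
  (∀ x : M, ∃ y, x * y * x = x ∧ x * y = y * x) ∧
    ∀ e a b : M, InSub e a → InSub e b → a * b = b * a

end Pool.Agent.Lib.MP_88bd66_lcP
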