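import Pool.Agent.Lib.MP_88bd66_lcP.MainCr
import Pool.Agent.Lib.MP_88bd66_lcP.DefsCi

/-!
Basic notions for the theorem on semigroups with commuting idempotents.
-/

set_option autoImplicit false

namespace Pool.Agent.Lib.MP_88bd66_lcP

open FreeSemigroup Pool.Agent.Lib.MP_88bd66_lc

/-- idempotents commute in context -/
def CE (M : Type) [Semigroup M] : Prop :=
  ∀ x e f y : M, e * e = e → f * f = f → x * e * f * y = x * f * e * y

/-- the powers `a ^ (c + 1)` commute in context -/
def CI (c : ℕ) (M : Type) [Semigroup M] : Prop :=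
  ∀ x a b y : M, x * pw a c * pw b c * y = x * pw b c * pw a c * y

/-- `S` embeds into a homomorphic image of a product of semigroups with at most `t` elements in
which `CI c` holds. -/
def BddE (t c : ℕ) (S : Type) [Semigroup S] : Prop :=
  ∃ (r : ℕ) (T : Fin r → Type) (_ : ∀ i, Semigroup (T i)) (Q : Type) (_ : Semigroup Q),
    (∀ i, Finite (T i)) ∧ (∀ i, Nat.card (T i) ≤ t) ∧ (∀ i, CI c (T i)) ∧
    ∃ (p : (∀ i, T i) →ₙ* Q) (f : S →ₙ* Q), Function.Surjective p ∧ Function.Injective f

/-- The hypothesis on `M`. -/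
def HypE (t c : ℕ) (M : Type) [Semigroup M] : Prop :=
  ∀ (S : Type) (_ : Semigroup S), Finite S → Nonempty S → IdLe M S → BddE t c S

/-- `M` satisfies an identity `u = v`, `u` linear with at most `n` letters, `v` contains all letters
of `u` and one of them at least twice. -/
def Rep (n : ℕ) (M : Type) [Semigroup M] : Prop :=
  ∃ (N : ℕ) (u v : Wd N) (x : Fin N), Sat M u v ∧ (lst u).Nodup ∧ (lst u).length ≤ n ∧
    lst u ⊆ lst v ∧ x ∈ lst u ∧ 2 ≤ (lst v).count x

/-- The properties of `M` used for the structure theorem. -/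
structure Hy (c : ℕ) (M : Type) [Semigroup M] : Prop where
  /-- every `x ^ (c + 1)` is idempotent -/
  pow : PowL c M
  ce : CE M
  locl : ∀ e f y : M, e * e = e → f * f = f → e * y = y → y * f = y → pw (y * e) c * y = y
  locr : ∀ e f y : M, e * e = e → f * f = f → e * y = y → y * f = y → y * pw (f * y) c = y
  ab : ∀ e a b : M, InSub e a → InSub e b → a * b = b * a

end Pool.Agent.Lib.MP_88bd66_lcP
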