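import Pool.Agent.Lib.MP_88bd66_lcP.EBase

/-!
Local monoids are commutative.
-/

set_option autoImplicit false

namespace Pool.Agent.Lib.MP_88bd66_lcP

open Pool.Agent.Lib.MP_88bd66_lc

/-- The elements of `e M e` are completely regular (1). -/
private theorem ecomm_o_mul {c : ℕ} {M : Type} [Semigroup M] (h : Hy c M) {e a : M}
    (he : e * e = e) (ea : e * a = a) (ae : a * e = a) : pw a c * a = a := by
  have := h.locl e e a he he ea ae
  rwa [ae] at this

/-- The elements of `e M e` are completely regular (2). -/
private theorem ecomm_mul_o {c : ℕ} {M : Type} [Semigroup M] (h : Hy c M) {e a : M}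
    (he : e * e = e) (ea : e * a = a) (ae : a * e = a) : a * pw a c = a := by
  have := h.locr e e a he he ea ae
  rwa [ea] at this

private theorem ecomm_mul_iv {c : ℕ} {M : Type} [Semigroup M] (h : Hy c M) (a : M) :
    a * pw a (2 * c) = pw a c := by
  rw [← pw_succ', show 2 * c + 1 = c + c + 1 by omega, ← pw_add, h.pow]

private theorem ecomm_iv_mul {c : ℕ} {M : Type} [Semigroup M] (h : Hy c M) (a : M) :
    pw a (2 * c) * a = pw a c := by
  rw [← pw_succ, show 2 * c + 1 = c + c + 1 by omega, ← pw_add, h.pow]

/-- The idempotents of `e M e` commute. -/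
private theorem ecomm_idem {c : ℕ} {M : Type} [Semigroup M] (h : Hy c M) {e g k : M}
    (gg : g * g = g) (kk : k * k = k) (eg : e * g = g) (ge : g * e = g) (ek : e * k = k)
    (ke : k * e = k) : g * k = k * g := by
  have := h.ce e g k e gg kk
  rw [eg, ek, mul_assoc g, ke, mul_assoc k, ge] at this
  exact this

/-- Idempotents `f ≤ e` are central in `e M e`.

PROOF. Write `a° = pw a c` (idempotent by `pow`); `locl` with `e, e, a` gives `a° a = a` (and `locr`
gives `a a° = a`), `e a° = a° = a° e` (`mul_pw`, `pw_mul` of Mix.lean), and `a' = pw a (2 * c)` satisfies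
`a a' = a° = a' a` (see `CR.mul_iv`, `CR.iv_mul` in Cr.lean for the computation). Idempotents of `e M e`
commute: for `g, h` idempotent with `e g = g = g e`, `e h = h = h e`: `g h = e g h e = e h g e = h g`.
Let `p = pw (f * a * f) c`, so `p p = p`, `p f = p = f p`, `p` is in `e M e`, and `a° p = p`
(`a° (f a f) = f a° a f = f a f`), so `p a° = p`. `locl` for `f, a°` and `y = f a` (`f y = y`,
`y a° = y`): `pw (f * a * f) c * (f * a) = f a`, that is `p a = f a`. `locr` for `a°, f`, `y = a f`:
`a f = a f * pw (f * (a * f)) c`, that is `a p = a f`. Moreover `p (f a f) = f a f = (f a f) p` and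
`r' = pw (f * a * f) (2 * c)` satisfies `r' (f a f) = p = (f a f) r'`. Let `q = a' p a`. Then
`q q = q`, `a q = a a' p a = a° p a = p a`, `p a p = f a f` (since `p a p = f a p = f a f p`), hence
`f a f = p a p = a q p = a p q` (idempotents of `e M e` commute), so `(f a f) q = f a f` and, from
`p = r' (f a f)`, `p q = p`. In the same way `q' = a p a'` satisfies `q' a = a p`, `q' p = p`. Now
`q' = a p a' = a (p q) a' = a p a' p a a' = q' p a° = q' p = p`, so `a p = q' a = p a`. So
`f a = p a = a p = a f`. -/
theorem Hy.central {c : ℕ} {M : Type} [Semigroup M] (h : Hy c M) {e f a : M} (he : e * e = e)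
    (ff : f * f = f) (ef : e * f = f) (fe : f * e = f) (ea : e * a = a) (ae : a * e = a) :
    f * a = a * f := by
  have oa := ecomm_o_mul h he ea ae
  have ao := ecomm_mul_o h he ea ae
  have oo := h.pow a
  have ai := ecomm_mul_iv h a
  have ia := ecomm_iv_mul h a
  have eo : e * pw a c = pw a c := mul_pw ea c
  have oe : pw a c * e = pw a c := pw_mul ae c
  have ei : e * pw a (2 * c) = pw a (2 * c) := mul_pw ea _
  have ie : pw a (2 * c) * e = pw a (2 * c) := pw_mul ae _
  obtain ⟨o, ho⟩ : ∃ o, o = pw a c := ⟨_, rfl⟩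
  obtain ⟨i, hi⟩ : ∃ i, i = pw a (2 * c) := ⟨_, rfl⟩
  -- the element `b = f a f`
  obtain ⟨b, hb⟩ : ∃ b, b = f * a * f := ⟨_, rfl⟩
  have eb : e * b = b := by rw [hb, ← mul_assoc, ← mul_assoc, ef]
  have be : b * e = b := by rw [hb, mul_assoc, fe]
  have fb : f * b = b := by rw [hb, ← mul_assoc, ← mul_assoc, ff]
  have bf : b * f = b := by rw [hb, mul_assoc, ff]
  have bp := ecomm_mul_o h he eb be
  have pb := ecomm_o_mul h he eb be
  have pp := h.pow b
  have br := ecomm_mul_iv h b
  have rb := ecomm_iv_mul h b
  have ep : e * pw b c = pw b c := mul_pw eb c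
  have pe : pw b c * e = pw b c := pw_mul be c
  have fp : f * pw b c = pw b c := mul_pw fb c
  have pf : pw b c * f = pw b c := pw_mul bf c
  have of : o * f = f * o := by
    rw [ho]
    exact ecomm_idem h oo ff eo oe ef fe
  have ob : o * b = b := by
    rw [hb, ← mul_assoc, ← mul_assoc, of, mul_assoc f o a, ho, oa]
  have bo : b * o = b := by
    rw [hb, mul_assoc, ← of, ← mul_assoc, mul_assoc f a o, ho, ao]
  have op : o * pw b c = pw b c := mul_pw ob c
  have po : pw b c * o = pw b c := pw_mul bo c
  -- `p a = f a` and `a p = a f`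
  have h1 : pw b c * a = f * a := by
    have := h.locl f o (f * a) ff (by rw [ho]; exact oo) (by rw [← mul_assoc, ff])
      (by rw [mul_assoc, ho, ao])
    rw [← hb, ← mul_assoc, pf] at this
    exact this
  have h2 : a * pw b c = a * f := by
    have := h.locr o f (a * f) (by rw [ho]; exact oo) ff (by rw [← mul_assoc, ho, oa])
      (by rw [mul_assoc, ff])
    rw [← mul_assoc f a f, ← hb, mul_assoc a f, fp] at this
    exact this
  obtain ⟨p, hp⟩ : ∃ p, p = pw b c := ⟨_, rfl⟩
  obtain ⟨r, hr⟩ : ∃ r, r = pw b (2 * c) := ⟨_, rfl⟩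
  rw [← hp] at bp pb pp br rb ep pe fp pf op po h1 h2
  rw [← hr] at br rb
  rw [← ho] at oa ao oo ai ia eo oe
  rw [← hi] at ai ia ei ie
  have h3 : p * a * p = b := by rw [h1, mul_assoc, h2, hb, mul_assoc]
  -- the idempotent `q = i p a`
  obtain ⟨q, hq⟩ : ∃ q, q = i * p * a := ⟨_, rfl⟩
  have qq : q * q = q := by
    calc q * q = i * p * (a * i) * p * a := by rw [hq]; simp only [mul_assoc]
      _ = i * (p * o) * p * a := by rw [ai]; simp only [mul_assoc]
      _ = i * (p * p) * a := by rw [po]; simp only [mul_assoc]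
      _ = q := by rw [pp, hq]
  have eq : e * q = q := by rw [hq, ← mul_assoc, ← mul_assoc, ei]
  have qe : q * e = q := by rw [hq, mul_assoc, ae]
  have aq : a * q = p * a := by
    calc a * q = (a * i) * p * a := by rw [hq]; simp only [mul_assoc]
      _ = p * a := by rw [ai, op]
  have qp : q * p = p * q := ecomm_idem h qq pp eq qe ep pe
  have h4 : b = a * p * q := by
    rw [mul_assoc, ← qp, ← mul_assoc, aq, h3]
  have bq : b * q = b := by
    calc b * q = a * p * q * q := by rw [← h4]
      _ = b := by rw [mul_assoc, qq, ← h4]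
  have pq : p * q = p := by rw [← rb, mul_assoc, bq]
  -- the idempotent `t = a p i`
  obtain ⟨t, ht⟩ : ∃ t, t = a * p * i := ⟨_, rfl⟩
  have tt : t * t = t := by
    calc t * t = a * p * (i * a) * p * i := by rw [ht]; simp only [mul_assoc]
      _ = a * (p * o) * p * i := by rw [ia]; simp only [mul_assoc]
      _ = a * (p * p) * i := by rw [po]; simp only [mul_assoc]
      _ = t := by rw [pp, ht]
  have et : e * t = t := by rw [ht, ← mul_assoc, ← mul_assoc, ea]
  have te : t * e = t := by rw [ht, mul_assoc, ie]
  have ta : t * a = a * p := by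
    calc t * a = a * p * (i * a) := by rw [ht]; simp only [mul_assoc]
      _ = a * p := by rw [ia, mul_assoc, po]
  have pt : p * t = t * p := ecomm_idem h pp tt ep pe et te
  have h5 : b = t * p * a := by
    rw [← pt, mul_assoc, ta, ← mul_assoc, h3]
  have tb : t * b = b := by
    calc t * b = t * (t * p * a) := by rw [← h5]
      _ = (t * t) * p * a := by simp only [mul_assoc]
      _ = b := by rw [tt, ← h5]
  have tp : t * p = p := by rw [← br, ← mul_assoc, tb]
  have h6 : t = p := by
    calc t = a * (p * q) * i := by rw [pq, ht]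
      _ = (a * p * i) * p * (a * i) := by rw [hq]; simp only [mul_assoc]
      _ = t * (p * o) := by rw [ai, ← ht, mul_assoc]
      _ = p := by rw [po, tp]
  calc f * a = p * a := h1.symm
    _ = a * p := by rw [← ta, h6]
    _ = a * f := h2

/-- Local monoids are commutative.

PROOF. With `a°, a', b°, b'` as in `Hy.central` and `g = a° b°` (idempotent, `g = b° a°`), all
idempotents central in `e M e`: `a b = (a a°) (b° b) = a g b = (a g) (g b)`, `a g` and `g b` lie in the
subgroup with identity `g` (`InSub g (a * g)`: inverse `a' g`), so `(a g) (g b) = (g b) (a g)` by `ab`,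
which is `b a` in the same way. -/
theorem Hy.comm {c : ℕ} {M : Type} [Semigroup M] (h : Hy c M) {e a b : M} (he : e * e = e)
    (ea : e * a = a) (ae : a * e = a) (eb : e * b = b) (be : b * e = b) : a * b = b * a := by
  have oa := ecomm_o_mul h he ea ae
  have ao := ecomm_mul_o h he ea ae
  have oo := h.pow a
  have ai := ecomm_mul_iv h a
  have ia := ecomm_iv_mul h a
  have eo : e * pw a c = pw a c := mul_pw ea c
  have oe : pw a c * e = pw a c := pw_mul ae c
  have ei : e * pw a (2 * c) = pw a (2 * c) := mul_pw ea _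
  have ie : pw a (2 * c) * e = pw a (2 * c) := pw_mul ae _
  have zb := ecomm_o_mul h he eb be
  have bz := ecomm_mul_o h he eb be
  have zz := h.pow b
  have bj := ecomm_mul_iv h b
  have jb := ecomm_iv_mul h b
  have ez : e * pw b c = pw b c := mul_pw eb c
  have ze : pw b c * e = pw b c := pw_mul be c
  have ej : e * pw b (2 * c) = pw b (2 * c) := mul_pw eb _
  have je : pw b (2 * c) * e = pw b (2 * c) := pw_mul be _
  generalize pw a c = o at *
  generalize pw b c = z at *
  generalize pw a (2 * c) = i at *
  generalize pw b (2 * c) = j at *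
  have oz : o * z = z * o := ecomm_idem h oo zz eo oe ez ze
  obtain ⟨g, hg⟩ : ∃ g, g = o * z := ⟨_, rfl⟩
  have gg : g * g = g := by
    calc g * g = o * (z * o) * z := by rw [hg]; simp only [mul_assoc]
      _ = (o * o) * (z * z) := by rw [← oz]; simp only [mul_assoc]
      _ = g := by rw [oo, zz, hg]
  have eg : e * g = g := by rw [hg, ← mul_assoc, eo]
  have ge : g * e = g := by rw [hg, mul_assoc, ze]
  have cen : ∀ x, e * x = x → x * e = x → g * x = x * g := fun x h1 h2 =>
    h.central he gg eg ge h1 h2
  have og : o * g = g := by rw [hg, ← mul_assoc, oo]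
  have gz : g * z = g := by rw [hg, mul_assoc, zz]
  have ga := cen a ea ae
  have gb := cen b eb be
  have gi := cen i ei ie
  have gj := cen j ej je
  have s1 : InSub g (a * g) := by
    refine ⟨by rw [← mul_assoc, ga, mul_assoc, gg], by rw [mul_assoc, gg], i * g, ?_, ?_⟩
    · calc a * g * (i * g) = a * (g * i) * g := by simp only [mul_assoc]
        _ = (a * i) * (g * g) := by rw [gi]; simp only [mul_assoc]
        _ = g := by rw [ai, gg, og]
    · calc i * g * (a * g) = i * (g * a) * g := by simp only [mul_assoc]
        _ = (i * a) * (g * g) := by rw [ga]; simp only [mul_assoc]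
        _ = g := by rw [ia, gg, og]
  have s2 : InSub g (g * b) := by
    refine ⟨by rw [← mul_assoc, gg], by rw [mul_assoc, ← gb, ← mul_assoc, gg], g * j, ?_, ?_⟩
    · calc g * b * (g * j) = g * (b * g) * j := by simp only [mul_assoc]
        _ = (g * g) * (b * j) := by rw [← gb]; simp only [mul_assoc]
        _ = g := by rw [bj, gg, gz]
    · calc g * j * (g * b) = g * (j * g) * b := by simp only [mul_assoc]
        _ = (g * g) * (j * b) := by rw [← gj]; simp only [mul_assoc]
        _ = g := by rw [jb, gg, gz]
  have h1 : a * b = a * g * (g * b) := by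
    calc a * b = (a * o) * (z * b) := by rw [ao, zb]
      _ = a * g * b := by rw [hg]; simp only [mul_assoc]
      _ = a * (g * g) * b := by rw [gg]
      _ = a * g * (g * b) := by simp only [mul_assoc]
  have h2 : g * b * (a * g) = b * a := by
    calc g * b * (a * g) = b * g * (g * a) := by rw [gb, ga]
      _ = b * (g * g) * a := by simp only [mul_assoc]
      _ = b * (g * a) := by rw [gg, mul_assoc]
      _ = b * (z * o) * a := by rw [hg, oz]; simp only [mul_assoc]
      _ = (b * z) * (o * a) := by simp only [mul_assoc]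
      _ = b * a := by rw [bz, oa]
  rw [h1, h.ab g (a * g) (g * b) s1 s2, h2]

end Pool.Agent.Lib.MP_88bd66_lcP
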