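import Pool.Agent.Lib.MP_88bd66_lcP.EBase

/-!
The dichotomy for identities with a linear side.
-/

set_option autoImplicit false

namespace Pool.Agent.Lib.MP_88bd66_lcP

open FreeSemigroup Pool.Agent.Lib.MP_88bd66_lc

private theorem edich_lift_lift {M : Type} [Semigroup M] {N : ℕ} (θ : Fin N → M)
    (φ : Fin N → Wd N) (w : Wd N) :
    lift θ (lift φ w) = lift (fun y => lift θ (φ y)) w := by
  induction w using FreeSemigroup.recOnMul with
  | ih1 x => rw [lift_of, lift_of]
  | ih2 x w h1 h2 => rw [map_mul, map_mul, h1, h2, ← map_mul]

private theorem edich_lst_lift {N : ℕ} (φ : Fin N → Wd N) (w : Wd N) :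
    lst (lift φ w : Wd N) = (lst w).flatMap fun y => lst (φ y) := by
  induction w using FreeSemigroup.recOnMul with
  | ih1 x => rw [lift_of, lst_of]; simp
  | ih2 x w h1 h2 => rw [map_mul, lst_mul, h1, h2, lst_mul, List.flatMap_append]

/-- If `M` satisfies a nontrivial identity `u = v`, `u` linear with at most `n` letters, then `M` is
permutative or satisfies an identity as in `Rep`.

PROOF. (a) Some letter `x` of `u` does not occur in `v`. Let `φ : Fin N → Wd N`, `φ x = of x * of x`,
`φ y = of y` for `y ≠ x`, and `v' = lift φ u`. `Sat M u v'`: for `θ : Fin N → M` let `θ' y = lift θ (φ y)`;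
`lift θ v' = lift θ' u = lift θ' v = lift θ v = lift θ u` (`θ'` and `θ` agree on the letters of `v`; use
`coe_lift` and `List.map_congr_left`, `WithOne.coe_inj`). `lst v' = (lst u).flatMap fun y => lst (φ y)`
contains all letters of `u` and `x` twice: `Rep` with `u, v', x`.
(b) All letters of `u` occur in `v`, and some letter `x` of `u` occurs at least twice in `v`: `Rep`.
(c) All letters of `u` occur in `v`, each exactly once, and `v` has a letter `y` not in `u`. Let
`x = u.head`, `φ y = of x`, `φ z = of z` for `z ≠ y`, `v' = lift φ v`. `Sat M u v'`
(`lift φ u = u` because `y` does not occur in `u`), all letters of `u` occur in `v'`, `x` at least twice.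
(d) `lst v` is a permutation of `lst u`, both linear. Let `k = (lst u).length ≤ n`,
`π : Equiv.Perm (Fin k)` with `(lst v)[i] = (lst u)[π i]` (for instance from
`List.Nodup.getEquiv` for both lists), `π ≠ 1` since `lst u ≠ lst v` (`u ≠ v`). `PermId π M`: for
`x : Fin k → M` take `θ : Fin N → M` with `θ ((lst u)[i]) = x i` and use `coe_lift`.
`PermId.permutative` (file Perm.lean) gives `Permutative k M`, and `Permutative.swap` gives
`Permutative n M` because `k ≤ n`. -/
theorem dich {n N : ℕ} {M : Type} [Semigroup M] {u v : Wd N} (h : Sat M u v) (hne : u ≠ v)
    (hnd : (lst u).Nodup) (hlen : (lst u).length ≤ n) : Permutative n M ∨ Rep n M := by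
  classical
  by_cases ha : ∃ x ∈ lst u, x ∉ lst v
  · -- case (a)
    obtain ⟨x, hxu, hxv⟩ := ha
    right
    let φ : Fin N → Wd N := fun y => if y = x then of x * of x else of y
    have hmem : ∀ y, y ∈ lst (φ y) := by
      intro y
      by_cases hy : y = x
      · simp only [φ, hy, if_true, lst_mul, lst_of]
        simp
      · simp only [φ, hy, if_false, lst_of]
        simp
    refine ⟨N, u, lift φ u, x, ?_, hnd, hlen, ?_, hxu, ?_⟩
    · intro θ
      rw [edich_lift_lift, h (fun y => lift θ (φ y)), h θ]
      refine lift_congr _ _ v fun y hy => ?_
      have hyx : y ≠ x := fun e => hxv (e ▸ hy)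
      simp only [φ, hyx, if_false, lift_of]
    · intro y hy
      rw [edich_lst_lift, List.mem_flatMap]
      exact ⟨y, hy, hmem y⟩
    · rw [edich_lst_lift]
      obtain ⟨l1, l2, hl⟩ := List.append_of_mem hxu
      rw [hl, List.flatMap_append, List.flatMap_cons, List.count_append, List.count_append]
      have : lst (φ x) = [x, x] := by simp [φ, lst_mul, lst_of]
      rw [this]
      simp
      omega
  · push Not at ha
    by_cases hb : ∃ x ∈ lst u, 2 ≤ (lst v).count x
    · obtain ⟨x, hx, hx2⟩ := hb
      right
      exact ⟨N, u, v, x, h, hnd, hlen, fun y hy => ha y hy, hx, hx2⟩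
    · push Not at hb
      by_cases hc : ∃ y ∈ lst v, y ∉ lst u
      · -- case (c)
        obtain ⟨y, hyv, hyu⟩ := hc
        right
        obtain ⟨x, hxu⟩ : ∃ x, x ∈ lst u := ⟨u.head, by simp [lst]⟩
        have hxy : x ≠ y := fun e => hyu (e ▸ hxu)
        let φ : Fin N → Wd N := fun z => if z = y then of x else of z
        refine ⟨N, u, lift φ v, x, ?_, hnd, hlen, ?_, hxu, ?_⟩
        · intro θ
          rw [edich_lift_lift, ← h (fun y => lift θ (φ y))]
          refine lift_congr _ _ u fun z hz => ?_
          have hzy : z ≠ y := fun e => hyu (e ▸ hz)
          simp only [φ, hzy, if_false, lift_of]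
        · intro z hz
          rw [edich_lst_lift, List.mem_flatMap]
          have hzy : z ≠ y := fun e => hyu (e ▸ hz)
          refine ⟨z, ha z hz, ?_⟩
          simp only [φ, hzy, if_false, lst_of]
          simp
        · rw [edich_lst_lift]
          obtain ⟨l1, l2, hl⟩ := List.append_of_mem (ha x hxu)
          have hx1 : lst (φ x) = [x] := by simp [φ, hxy, lst_of]
          have hy1 : lst (φ y) = [x] := by simp [φ, lst_of]
          have hpos : ∀ l : List (Fin N), y ∈ l → 0 < (l.flatMap fun y => lst (φ y)).count x := by
            intro l hyl
            rw [List.count_pos_iff, List.mem_flatMap]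
            exact ⟨y, hyl, by rw [hy1]; simp⟩
          rw [hl, List.flatMap_append, List.flatMap_cons, List.count_append, List.count_append, hx1]
          rw [hl, List.mem_append, List.mem_cons] at hyv
          rcases hyv with hy2 | hy2 | hy2
          · have := hpos l1 hy2
            simp
            omega
          · exact absurd hy2.symm hxy
          · have := hpos l2 hy2
            simp
            omega
      · -- case (d)
        push Not at hc
        left
        have hndv : (lst v).Nodup := by
          rw [List.nodup_iff_count_le_one]
          intro z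
          by_cases hz : z ∈ lst v
          · have := hb z (hc z hz)
            omega
          · rw [List.count_eq_zero_of_not_mem hz]
            omega
        have hperm : (lst u).Perm (lst v) :=
          (List.perm_ext_iff_of_nodup hnd hndv).2 fun z => ⟨ha z, hc z⟩
        have hkl : (lst u).length = (lst v).length := hperm.length_eq
        set k := (lst u).length with hk
        have hk0 : 0 < k := List.length_pos_of_ne_nil (lst_ne_nil u)
        let eu : Fin k ≃ {x // x ∈ lst u} := hnd.getEquiv (lst u)
        let ev : Fin (lst v).length ≃ {x // x ∈ lst v} := hndv.getEquiv (lst v)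
        let es : {x // x ∈ lst v} ≃ {x // x ∈ lst u} :=
          Equiv.subtypeEquivRight fun z => ⟨hc z, ha z⟩
        let π : Equiv.Perm (Fin k) := ((finCongr hkl).trans ev).trans (es.trans eu.symm)
        have heu : ∀ i : Fin k, (eu i : Fin N) = (lst u)[(i : ℕ)] := fun i => rfl
        have hπ : ∀ i : Fin k, (eu (π i) : Fin N) = (lst v)[(i : ℕ)]'(by rw [← hkl]; exact i.2) := by
          intro i
          simp only [π, Equiv.trans_apply, Equiv.apply_symm_apply]
          rfl
        have hπ1 : π ≠ 1 := by
          intro e
          apply hne
          apply lst_inj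
          apply List.ext_getElem hkl
          intro i h1 h2
          have := hπ ⟨i, h1⟩
          rw [e] at this
          exact this
        have hP : PermId π M := by
          intro x
          let θ : Fin N → M := fun z => if hz : z ∈ lst u then x (eu.symm ⟨z, hz⟩) else x ⟨0, hk0⟩
          have hθ : ∀ i : Fin k, θ (eu i) = x i := by
            intro i
            have hz : (eu i : Fin N) ∈ lst u := (eu i).2
            simp only [θ, hz, dif_pos, Subtype.coe_eta, Equiv.symm_apply_apply]
          have e1 : (lst u).map θ = List.ofFn x := by
            apply List.ext_getElem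
            · simp [hk]
            · intro i h1 h2
              have hi : i < k := by simpa using h2
              rw [List.getElem_map, List.getElem_ofFn]
              exact hθ ⟨i, hi⟩
          have e2 : (lst v).map θ = List.ofFn fun i => x (π i) := by
            apply List.ext_getElem
            · simp [← hkl]
            · intro i h1 h2
              have hi : i < k := by simpa using h2
              rw [List.getElem_map, List.getElem_ofFn]
              have e3 := hπ ⟨i, hi⟩
              have e4 := hθ (π ⟨i, hi⟩)
              rw [e3] at e4
              exact e4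
          have h1 := congrArg (fun a : M => (a : WithOne M)) (h θ)
          simp only [coe_lift] at h1
          rw [e1, e2] at h1
          rw [prod_ofFn, prod_ofFn (fun i => x (π i))]
          exact h1
        have h1 := hP.permutative hπ1
        intro p s x y hp hs
        exact h1.swap (by omega) (by omega) x y

end Pool.Agent.Lib.MP_88bd66_lcP
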