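import Pool.Agent.Lib.MP_88bd66_lcP.ESyn

/-!
The flip argument: a good class satisfies a nontrivial identity with a linear side.
-/

set_option autoImplicit false

namespace Pool.Agent.Lib.MP_88bd66_lcP

open FreeSemigroup Pool.Agent.Lib.MP_88bd66_lc

/-- the flip principle -/
theorem flip {r : ℕ} {T : Fin r → Type} [∀ i, Semigroup (T i)] {Q : Type} [Semigroup Q]
    (p : (∀ i, T i) →ₙ* Q) (x y Y Z : ∀ i, T i)
    (h : ∀ k, ∃ Y' Z' : ∀ i, T i, p Y' = p Y ∧ p Z' = p Z ∧
      x k * Y' k * Z' k * y k = x k * Z' k * Y' k * y k) :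
    p (x * Y * Z * y) = p (x * Z * Y * y) := by
  classical
  -- the mixed elements
  let w : Finset (Fin r) → (∀ i, T i) → (∀ i, T i) → ∀ i, T i := fun D Y Z i =>
    if i ∈ D then x i * Z i * Y i * y i else x i * Y i * Z i * y i
  have hY : ∀ (D : Finset (Fin r)) (Y₁ Y₂ Z₁ : ∀ i, T i), p Y₁ = p Y₂ → p (w D Y₁ Z₁) = p (w D Y₂ Z₁) := by
    intro D Y₁ Y₂ Z₁ hYY
    have e : ∀ Y' : ∀ i, T i, w D Y' Z₁ = (fun i => if i ∈ D then x i * Z₁ i else x i) * Y' *
        (fun i => if i ∈ D then y i else Z₁ i * y i) := by
      intro Y'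
      funext i
      simp only [w, Pi.mul_apply]
      split_ifs <;> simp only [mul_assoc]
    rw [e, e, map_mul, map_mul, map_mul, map_mul, hYY]
  have hZ : ∀ (D : Finset (Fin r)) (Y₁ Z₁ Z₂ : ∀ i, T i), p Z₁ = p Z₂ → p (w D Y₁ Z₁) = p (w D Y₁ Z₂) := by
    intro D Y₁ Z₁ Z₂ hZZ
    have e : ∀ Z' : ∀ i, T i, w D Y₁ Z' = (fun i => if i ∈ D then x i else x i * Y₁ i) * Z' *
        (fun i => if i ∈ D then Y₁ i * y i else y i) := by
      intro Z'
      funext i
      simp only [w, Pi.mul_apply]
      split_ifs <;> simp only [mul_assoc]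
    rw [e, e, map_mul, map_mul, map_mul, map_mul, hZZ]
  have hD : ∀ D : Finset (Fin r), p (w ∅ Y Z) = p (w D Y Z) := by
    intro D
    induction D using Finset.induction_on with
    | empty => rfl
    | insert k D hkD ih =>
      obtain ⟨Y', Z', h1, h2, h3⟩ := h k
      rw [ih, ← hY D Y' Y Z h1, ← hZ D Y' Z' Z h2, ← hY (insert k D) Y' Y Z h1,
        ← hZ (insert k D) Y' Z' Z h2]
      congr 1
      funext i
      simp only [w]
      by_cases hi : i = k
      · subst hi
        rw [if_pos (Finset.mem_insert_self _ _), if_neg hkD]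
        exact h3
      · have : i ∈ insert k D ↔ i ∈ D := by simp [hi]
        simp only [this]
  have e1 : w ∅ Y Z = x * Y * Z * y := by
    funext i
    simp [w]
  have e2 : w Finset.univ Y Z = x * Z * Y * y := by
    funext i
    simp [w]
  rw [← e1, ← e2]
  exact hD _

/-! ### The test words -/

/-- letters: `(b, none)` are the end letters, `(b, some i)` the letters of block `b` -/
abbrev Lt (N : ℕ) : Type := Bool × Option (Fin N)

/-- a block -/
def blk {N m : ℕ} (b : Bool) (s : Fin m → Fin N) : List (Lt N) := List.ofFn fun i => (b, some (s i))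

theorem length_blk {N m : ℕ} (b : Bool) (s : Fin m → Fin N) : (blk b s).length = m := by
  simp [blk]

theorem mem_blk {N m : ℕ} {b : Bool} {s : Fin m → Fin N} {a : Lt N} (h : a ∈ blk b s) :
    a.1 = b ∧ a.2 ≠ none := by
  rw [blk, List.mem_ofFn] at h
  obtain ⟨i, rfl⟩ := h
  exact ⟨rfl, by simp⟩

theorem nodup_blk {N m : ℕ} (b : Bool) {s : Fin m → Fin N} (hs : StrictMono s) : (blk b s).Nodup := by
  rw [blk, List.nodup_ofFn]
  intro i j hij
  exact hs.injective (Option.some_injective _ (Prod.ext_iff.1 hij).2)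

/-- the language -/
def Lg (N m : ℕ) : Set (List (Lt N)) :=
  {w | ∃ s s' : Fin m → Fin N, StrictMono s ∧ StrictMono s' ∧
    w = [(false, none)] ++ blk false s ++ blk true s' ++ [(true, none)]}

theorem Lg_prop {N m : ℕ} : ∀ w ∈ Lg N m, w.Nodup ∧ w.length ≤ 2 * m + 2 := by
  rintro w ⟨s, s', hs, hs', rfl⟩
  constructor
  · rw [List.nodup_append, List.nodup_append, List.nodup_append]
    refine ⟨⟨⟨by simp, nodup_blk _ hs, ?_⟩, nodup_blk _ hs', ?_⟩, by simp, ?_⟩
    · intro a ha b hb hab
      subst hab
      rw [List.mem_singleton] at ha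
      subst ha
      exact (mem_blk hb).2 rfl
    · intro a ha b hb hab
      subst hab
      rw [List.mem_append, List.mem_singleton] at ha
      rcases ha with rfl | ha
      · exact (mem_blk hb).2 rfl
      · have := (mem_blk ha).1.symm.trans (mem_blk hb).1
        exact Bool.noConfusion this
    · intro a ha b hb hab
      subst hab
      rw [List.mem_singleton] at hb
      subst hb
      rw [List.mem_append, List.mem_append, List.mem_singleton] at ha
      rcases ha with (ha | ha) | ha
      · exact Bool.noConfusion (Prod.ext_iff.1 ha).1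
      · exact (mem_blk ha).2 rfl
      · exact (mem_blk ha).2 rfl
  · simp [length_blk]
    omega

/-- a block in a word of the language is where it should be -/
theorem blk_unique {α : Type} (P : α → Prop) [DecidablePred P] {p B q a B' b : List α}
    (hB : ∀ x ∈ B, P x) (hB' : ∀ x ∈ B', P x) (ha : ∀ x ∈ a, ¬ P x) (hb : ∀ x ∈ b, ¬ P x)
    (hlen : B.length = B'.length) (hne : B ≠ []) (h : p ++ B ++ q = a ++ B' ++ b) :
    p = a ∧ B = B' ∧ q = b := by
  have e1 : (p ++ B ++ q).filter P = (a ++ B' ++ b).filter P := by rw [h]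
  simp only [List.filter_append] at e1
  have f1 : B.filter P = B := List.filter_eq_self.2 (by simpa using hB)
  have f2 : B'.filter P = B' := List.filter_eq_self.2 (by simpa using hB')
  have f3 : a.filter P = [] := List.filter_eq_nil_iff.2 (by simpa using ha)
  have f4 : b.filter P = [] := List.filter_eq_nil_iff.2 (by simpa using hb)
  rw [f1, f2, f3, f4, List.nil_append, List.append_nil] at e1
  have e2 := congrArg List.length e1
  simp only [List.length_append] at e2
  have hp : p.filter P = [] := List.length_eq_zero_iff.1 (by omega)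
  have hp' : ∀ x ∈ p, ¬ P x := by simpa using List.filter_eq_nil_iff.1 hp
  -- compare the longest prefixes without letters in `P`
  have key : ∀ (p a : List α) (B B' q b : List α), (∀ x ∈ p, ¬ P x) → (∀ x ∈ a, ¬ P x) →
      (∀ x ∈ B, P x) → (∀ x ∈ B', P x) → B ≠ [] → B' ≠ [] → p ++ (B ++ q) = a ++ (B' ++ b) →
      p = a := by
    intro p
    induction p with
    | nil =>
      intro a B B' q b _ ha hB _ hne _ h
      cases a with
      | nil => rfl
      | cons z a =>
        cases B with
        | nil => exact absurd rfl hne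
        | cons y B =>
          simp only [List.nil_append, List.cons_append, List.cons.injEq] at h
          exact absurd (hB y List.mem_cons_self) (h.1 ▸ ha z List.mem_cons_self)
    | cons z p ih =>
      intro a B B' q b hp ha hB hB' hne hne' h
      cases a with
      | nil =>
        cases B' with
        | nil => exact absurd rfl hne'
        | cons y B' =>
          simp only [List.nil_append, List.cons_append, List.cons.injEq] at h
          exact absurd (hB' y List.mem_cons_self) (h.1 ▸ hp z List.mem_cons_self)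
      | cons z' a =>
        simp only [List.cons_append, List.cons.injEq] at h
        rw [h.1, ih a B B' q b (fun x hx => hp x (List.mem_cons_of_mem _ hx))
          (fun x hx => ha x (List.mem_cons_of_mem _ hx)) hB hB' hne hne' h.2]
  have hne' : B' ≠ [] := by
    intro h'
    rw [h', List.length_nil, List.length_eq_zero_iff] at hlen
    exact hne hlen
  have hpa := key p a B B' q b hp' ha hB hB' hne hne' (by simpa using h)
  subst hpa
  rw [List.append_assoc, List.append_assoc, List.append_cancel_left_eq] at h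
  obtain ⟨h1, h2⟩ := List.append_inj h hlen
  exact ⟨rfl, h1, h2⟩

theorem Lg_ctx {N m : ℕ} (hm : 0 < m) (b : Bool) {s s' : Fin m → Fin N} (hs' : StrictMono s')
    (p q : List (Lt N)) (h : p ++ blk b s ++ q ∈ Lg N m) : p ++ blk b s' ++ q ∈ Lg N m := by
  obtain ⟨u, u', hu, hu', e⟩ := h
  have hne : ∀ (b : Bool) (s : Fin m → Fin N), blk b s ≠ [] := by
    intro b s h'
    have := length_blk b s
    rw [h', List.length_nil] at this
    omega
  cases b with
  | false =>
    obtain ⟨h1, h2, h3⟩ := blk_unique (fun a : Lt N => a.1 = false ∧ a.2 ≠ none)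
      (B' := blk false u) (a := [(false, none)]) (b := blk true u' ++ [(true, none)])
      (fun x hx => mem_blk hx) (fun x hx => mem_blk hx) (by simp) (by
        intro x hx hx'
        rw [List.mem_append, List.mem_singleton] at hx
        rcases hx with hx | rfl
        · exact Bool.noConfusion ((mem_blk hx).1.symm.trans hx'.1)
        · exact hx'.2 rfl) (by rw [length_blk, length_blk]) (hne _ s) (by rw [e]; simp)
    exact ⟨s', u', hs', hu', by rw [h1, h3]; simp⟩
  | true =>
    obtain ⟨h1, h2, h3⟩ := blk_unique (fun a : Lt N => a.1 = true ∧ a.2 ≠ none)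
      (B' := blk true u') (a := [(false, none)] ++ blk false u) (b := [(true, none)])
      (fun x hx => mem_blk hx) (fun x hx => mem_blk hx) (by
        intro x hx hx'
        rw [List.mem_append, List.mem_singleton] at hx
        rcases hx with rfl | hx
        · exact hx'.2 rfl
        · exact Bool.noConfusion ((mem_blk hx).1.symm.trans hx'.1)) (by simp)
      (by rw [length_blk, length_blk]) (hne _ s) (by rw [e])
    exact ⟨u, s', hu, hs', by rw [h1, h3]⟩

/-! ### The identity -/

theorem ls_mul' {A : Type} (u v : FreeSemigroup A) : ls (u * v) = ls u ++ ls v := rfl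

theorem ls_of' {A : Type} (a : A) : ls (of a) = [a] := rfl

theorem lift_const {A R : Type} [Semigroup R] (θ : A → R) (z : R) (w : FreeSemigroup A)
    (h : ∀ a ∈ ls w, θ a = z) : lift θ w = pw z w.tail.length := by
  induction w using FreeSemigroup.recOnMul with
  | ih1 a =>
    rw [lift_of, h a (by rw [ls_of']; exact List.mem_singleton.2 rfl)]
    rfl
  | ih2 a w h1 h2 =>
    rw [map_mul, h1 fun b hb => h b (by rw [ls_mul']; exact List.mem_append_left _ hb),
      h2 fun b hb => h b (by rw [ls_mul']; exact List.mem_append_right _ hb), pw_add]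
    congr 1
    change ([] : List A).length + w.tail.length + 1 = ([] ++ w.head :: w.tail).length
    simp

theorem lift_coord {A : Type} {r : ℕ} {T : Fin r → Type} [∀ i, Semigroup (T i)]
    (θ : A → ∀ i, T i) (k : Fin r) (w : FreeSemigroup A) :
    (lift θ w) k = lift (fun a => θ a k) w := by
  let pr : (∀ i, T i) →ₙ* T k := ⟨fun p => p k, fun _ _ => rfl⟩
  have : pr.comp (lift θ) = lift (fun a => θ a k) := by
    ext x
    simp [pr]
  rw [← this]
  rfl

/-- a block as a word -/
def bw {N c : ℕ} (b : Bool) (s : Fin (c + 1) → Fin N) : FreeSemigroup (Lt N) :=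
  ⟨(b, some (s 0)), List.ofFn fun i : Fin c => (b, some (s i.succ))⟩

theorem ls_bw {N c : ℕ} (b : Bool) (s : Fin (c + 1) → Fin N) : ls (bw b s) = blk b s := by
  rw [blk, List.ofFn_succ]
  rfl

theorem length_bw {N c : ℕ} (b : Bool) (s : Fin (c + 1) → Fin N) : (bw b s).tail.length = c := by
  simp [bw]

/-- equal letters by the pigeonhole principle -/
theorem exists_mono {c t N : ℕ} (hN : t * c < N) {R : Type} [Finite R] (hR : Nat.card R ≤ t)
    (F : Fin N → R) : ∃ (s : Fin (c + 1) → Fin N) (z : R), StrictMono s ∧ ∀ i, F (s i) = z := by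
  classical
  have := Fintype.ofFinite R
  have h1 : (Finset.univ : Finset R).card * c < (Finset.univ : Finset (Fin N)).card := by
    rw [Finset.card_univ, Finset.card_univ, Fintype.card_fin, ← Nat.card_eq_fintype_card]
    exact lt_of_le_of_lt (Nat.mul_le_mul_right c hR) hN
  obtain ⟨z, _, hz⟩ := Finset.exists_lt_card_fiber_of_mul_lt_card_of_maps_to
    (f := F) (fun i _ => Finset.mem_univ (F i)) h1
  obtain ⟨D, hD, hcard⟩ := Finset.exists_subset_card_eq (Nat.succ_le_of_lt hz)
  refine ⟨D.orderEmbOfFin hcard, z, (D.orderEmbOfFin hcard).strictMono, fun i => ?_⟩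
  have := hD (D.orderEmbOfFin_mem hcard i)
  simpa using this

theorem exists_id {t c : ℕ} {M : Type} [Semigroup M] (hyp : HypE t c M) :
    ∃ (N : ℕ) (u v : Wd N), Sat M u v ∧ u ≠ v ∧ (lst u).Nodup ∧ (lst u).length ≤ 2 * c + 4 := by
  by_contra hcon
  have hiso : ∀ (N : ℕ) (u v : Wd N), Sat M u v → (lst u).Nodup → (lst u).length ≤ 2 * c + 4 →
      u = v := by
    intro N u v h1 h2 h3
    by_contra h4
    exact hcon ⟨N, u, v, h1, h4, h2, h3⟩
  obtain ⟨N, hN⟩ : ∃ N : ℕ, N = t * c + c + 1 := ⟨_, rfl⟩
  obtain ⟨S, sg, g, hfin, hne, hle, hg, hctx⟩ := exists_syn (M := M) (n := 2 * c + 4) hiso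
    (A := Lt N) (Lg N (c + 1)) (fun w hw => ⟨(Lg_prop w hw).1, by
      have := (Lg_prop w hw).2
      omega⟩)
  obtain ⟨r, T, sT, Q, sQ, hT1, hT2, hT3, p, f, hp, hf⟩ := hyp S sg hfin hne hle
  choose ah hah using fun a : Lt N => hp (f (g (of a)))
  have hG : ∀ w, p (lift ah w) = f (g w) := by
    intro w
    have : p.comp (lift ah) = f.comp g := by
      ext x
      simp [hah]
    exact DFunLike.congr_fun this w
  obtain ⟨s₀, _, hs₀, _⟩ := exists_mono (c := c) (t := 1) (N := N) (by rw [hN]; nlinarith)
    (R := Unit) (by simp) (fun _ => ())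
  have hblk : ∀ (b : Bool) (s : Fin (c + 1) → Fin N), StrictMono s →
      g (bw b s) = g (bw b s₀) := by
    intro b s hs
    rw [hctx]
    intro p q
    rw [ls_bw, ls_bw]
    exact ⟨Lg_ctx (Nat.succ_pos c) b hs₀ p q, Lg_ctx (Nat.succ_pos c) b hs p q⟩
  have hflip := flip p (ah (false, none)) (ah (true, none)) (lift ah (bw false s₀))
    (lift ah (bw true s₀)) (by
      intro k
      have := hT1 k
      have hmono : ∀ b : Bool, ∃ (s : Fin (c + 1) → Fin N) (z : T k), StrictMono s ∧
          (lift ah (bw b s)) k = pw z c := by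
        intro b
        obtain ⟨s, z, h1, h2⟩ := exists_mono (c := c) (t := t) (N := N) (by rw [hN]; nlinarith)
          (hT2 k) (fun i => ah (b, some i) k)
        refine ⟨s, z, h1, ?_⟩
        rw [lift_coord, lift_const _ z, length_bw]
        intro a ha
        rw [ls_bw, blk, List.mem_ofFn] at ha
        obtain ⟨i, rfl⟩ := ha
        exact h2 i
      obtain ⟨s, z, hs, hz⟩ := hmono false
      obtain ⟨s', z', hs', hz'⟩ := hmono true
      refine ⟨lift ah (bw false s), lift ah (bw true s'), ?_, ?_, ?_⟩
      · rw [hG, hG, hblk _ _ hs]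
      · rw [hG, hG, hblk _ _ hs']
      · rw [hz, hz']
        exact hT3 k _ _ _ _)
  have h1 : g (of (false, none) * bw false s₀ * bw true s₀ * of (true, none)) =
      g (of (false, none) * bw true s₀ * bw false s₀ * of (true, none)) := by
    apply hf
    rw [← hG, ← hG]
    simpa only [map_mul, lift_of] using hflip
  rw [hctx] at h1
  have h2 := (h1 [] []).1 (by
    refine ⟨s₀, s₀, hs₀, hs₀, ?_⟩
    simp only [ls_mul', ls_of', ls_bw, List.nil_append, List.append_nil])
  obtain ⟨u, u', hu, hu', e⟩ := h2
  simp only [ls_mul', ls_of', ls_bw, List.nil_append, List.append_nil] at e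
  simp only [blk, List.ofFn_succ, List.cons_append, List.nil_append, List.cons.injEq,
    Prod.mk.injEq] at e
  exact absurd e.2.1.1 (by decide)

end Pool.Agent.Lib.MP_88bd66_lcP
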