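import Pool.Agent.Lib.MP_88bd66_lcP.EComm

/-!
`x ↦ e x e` is a homomorphism.
-/

set_option autoImplicit false

namespace Pool.Agent.Lib.MP_88bd66_lcP

open Pool.Agent.Lib.MP_88bd66_lc

private theorem ehom_o_mul {c : ℕ} {M : Type} [Semigroup M] (h : Hy c M) {e a : M}
    (he : e * e = e) (ea : e * a = a) (ae : a * e = a) : pw a c * a = a := by
  have := h.locl e e a he he ea ae
  rwa [ae] at this

private theorem ehom_iv_mul {c : ℕ} {M : Type} [Semigroup M] (h : Hy c M) (a : M) :
    pw a (2 * c) * a = pw a c := by
  rw [← pw_succ, show 2 * c + 1 = c + c + 1 by omega, ← pw_add, h.pow]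

private theorem ehom_mul_iv {c : ℕ} {M : Type} [Semigroup M] (h : Hy c M) (a : M) :
    a * pw a (2 * c) = pw a c := by
  rw [← pw_succ', show 2 * c + 1 = c + c + 1 by omega, ← pw_add, h.pow]

private theorem ehom_mul_o {c : ℕ} {M : Type} [Semigroup M] (h : Hy c M) {e a : M}
    (he : e * e = e) (ea : e * a = a) (ae : a * e = a) : a * pw a c = a := by
  have := h.locr e e a he he ea ae
  rwa [ea] at this

private theorem ehom_iv_o {c : ℕ} {M : Type} [Semigroup M] (h : Hy c M) {e a : M}
    (he : e * e = e) (ea : e * a = a) (ae : a * e = a) :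
    pw a (2 * c) * pw a c = pw a (2 * c) := pw_mul (ehom_mul_o h he ea ae) _

private theorem ehom_core {c : ℕ} {M : Type} [Semigroup M] (h : Hy c M) {g s t : M}
    (gs : g * s = s) (h1 : pw (s * g) c = g) (h2 : pw (g * t) c = g)
    (ww : s * g * t * (s * g * t) = s * g * t) : s * g * t = g := by
  have hσ := ehom_iv_mul h (s * g)
  have hτ := ehom_iv_mul h (g * t)
  rw [h1] at hσ
  rw [h2] at hτ
  have a1 : pw (s * g) (2 * c) * (s * g * t) = g * t := by rw [← mul_assoc, hσ]
  have a2 : g * t * (s * g * t) = g * t := by
    rw [← a1, mul_assoc, ww]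
  have a3 : g * (s * g * t) = g := by
    calc g * (s * g * t) = pw (g * t) (2 * c) * (g * t) * (s * g * t) := by rw [hτ]
      _ = pw (g * t) (2 * c) * (g * t * (s * g * t)) := by rw [mul_assoc]
      _ = g := by rw [a2, hτ]
  calc s * g * t = g * (s * g * t) := by rw [← mul_assoc, ← mul_assoc, gs]
    _ = g := a3

/-- First half. `e M e` is commutative by `Hy.comm`; for `a` in `e M e` write `a° = pw a c`,
`a' = pw a (2 * c)`: `a° a = a = a a°`, `a a' = a° = a' a`, `a° a' = a' = a' a°` (from `h.locl`,
`h.locr` with `f = e`, compare `CR.mul_iv` etc. in Cr.lean).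

PROOF. Let `k = e x y e`, `d = e x e y e`, `g = k°` (so `e g = g = g e`), `s = g x`, `t = y k'` (note
`k' = e k'`, `t g = t`). `s t = g x y k' = g (e x y e) k' = g k k' = g`. `j = t s` is idempotent,
`s j = s`, `j t = t`, `g s = s`. By `locl` for `g, j, s`: `pw (s * g) c * s = s`; times `t`:
`pw (s * g) c * g = g`, so `pw (s * g) c = g` (`pw_mul`). By `locr` for `j, g, t`
(`t * pw (g * t) c = t`), after multiplying by `s` on the left: `g * pw (g * t) c = g`, so
`pw (g * t) c = g`. Let `w = s g t`. In the context `s _ t` idempotents may be exchanged (`ce`):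
`w w = s g (t s) g t = s g j g t = s j g g t = s g t = w`. Since `w = (s g) (g t)` is a product of two
elements of the subgroup at `g`, `w` is invertible there and idempotent, so `w = g`: precisely
`g = pw (s * g) c` begins with a multiple of `s g` ... : take `σ = pw (s * g) (2 * c)` with
`σ (s g) = g` and `τ = pw (g * t) (2 * c)` with `(g t) τ = g`; then `σ w w τ = σ w τ` gives
`g (t s) g = g` after cancelling, i.e. `g j g = g`, and `w w = s (g j g) t`; alternatively:
`w w = w` gives `σ w = g t`, `σ w w = σ w`, so `g t w = g t`, so (multiply by `τ'` on the left, where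
`τ' (g t) = g`, `τ' = pw (g * t) (2 * c)`) `g w = g`, and `g w = w`. So `s g t = g`.
Let `v = s e t`. `v w = s e (t s) g t = s e j g t = s j (e g) t = s j g t = s g t = g` (`e g = g`,
exchange `e` and `j` in context `s _ _`), and `v w = v g = v` (`t g = t`). So `s e t = g`, that is
`g x e y k' = g`. Multiply by `k` on the right (`k' k = g`, `g = e g`): `g x e y k' k = g x e y g`;
now `g d g = g x e y e g = g x e y g = g k = k`, and `g d g = g d` by commutativity. So `k = g d`. -/
theorem Hy.hom_left {c : ℕ} {M : Type} [Semigroup M] (h : Hy c M) {e : M} (he : e * e = e)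
    (x y : M) : pw (e * x * y * e) c * (e * x * e * y * e) = e * x * y * e := by
  have ek : e * (e * x * y * e) = e * x * y * e := by simp only [← mul_assoc, he]
  have ke : e * x * y * e * e = e * x * y * e := by rw [mul_assoc, he]
  have ed : e * (e * x * e * y * e) = e * x * e * y * e := by simp only [← mul_assoc, he]
  have de : e * x * e * y * e * e = e * x * e * y * e := by rw [mul_assoc, he]
  have hkd : e * x * y * e = e * x * y * e := rfl
  generalize hk : e * x * y * e = k at ek ke hkd ⊢
  clear hkd
  have gg := h.pow k
  have eg := mul_pw ek c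
  have ge := pw_mul ke c
  have gk := ehom_o_mul h he ek ke
  have kk' := ehom_mul_iv h k
  have k'k := ehom_iv_mul h k
  have k'g := ehom_iv_o h he ek ke
  have ek' := mul_pw ek (2 * c)
  generalize pw k c = g at gg eg ge gk kk' k'k k'g ⊢
  generalize pw k (2 * c) = k' at kk' k'k k'g ek'
  have gs : g * (g * x) = g * x := by rw [← mul_assoc, gg]
  have tg : y * k' * g = y * k' := by rw [mul_assoc, k'g]
  have st : g * x * (y * k') = g := by
    calc g * x * (y * k') = g * e * x * y * (e * k') := by rw [ge, ek']; simp only [mul_assoc]
      _ = g * (e * x * y * e) * k' := by simp only [mul_assoc]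
      _ = g := by rw [hk, gk, kk']
  have xs : ∀ s t : M, s = g * x → t = y * k' → s * e * t = g := by
    intro s t hs ht
    rw [← hs, ← ht] at st
    rw [← hs] at gs
    rw [← ht] at tg
    have jj : t * s * (t * s) = t * s := by
      calc t * s * (t * s) = t * (s * t) * s := by simp only [mul_assoc]
        _ = t * s := by rw [st, tg]
    have sj : s * (t * s) = s := by rw [← mul_assoc, st, gs]
    have jt : t * s * t = t := by rw [mul_assoc, st, tg]
    have h1 : pw (s * g) c = g := by
      have a1 := h.locl g (t * s) s gg jj gs sj
      have a2 : pw (s * g) c * g = g := by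
        calc pw (s * g) c * g = pw (s * g) c * s * t := by rw [mul_assoc, st]
          _ = g := by rw [a1, st]
      rwa [pw_mul (show s * g * g = s * g by rw [mul_assoc, gg])] at a2
    have h2 : pw (g * t) c = g := by
      have a1 := h.locr (t * s) g t jj gg jt tg
      have a2 : g * pw (g * t) c = g := by
        calc g * pw (g * t) c = s * (t * pw (g * t) c) := by rw [← mul_assoc, st]
          _ = g := by rw [a1, st]
      rwa [mul_pw (show g * (g * t) = g * t by rw [← mul_assoc, gg])] at a2
    have ww : s * g * t * (s * g * t) = s * g * t := by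
      calc s * g * t * (s * g * t) = s * g * (t * s) * (g * t) := by simp only [mul_assoc]
        _ = s * (t * s) * g * (g * t) := h.ce s g (t * s) (g * t) gg jj
        _ = s * (g * g) * t := by rw [sj]; simp only [mul_assoc]
        _ = s * g * t := by rw [gg]
    have hw := ehom_core h gs h1 h2 ww
    calc s * e * t = s * e * (t * g) := by rw [tg]
      _ = s * e * (t * (s * g * t)) := by rw [hw]
      _ = s * e * (t * s) * (g * t) := by simp only [mul_assoc]
      _ = s * (t * s) * e * (g * t) := h.ce s e (t * s) (g * t) he jj
      _ = s * (e * g) * t := by rw [sj]; simp only [mul_assoc]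
      _ = g := by rw [eg, hw]
  have hv := xs _ _ rfl rfl
  have h3 : g * x * e * y * g = k := by
    calc g * x * e * y * g = g * x * e * (y * k') * k := by rw [← k'k]; simp only [mul_assoc]
      _ = k := by rw [hv, gk]
  have h4 : g * (e * x * e * y * e) * g = k := by
    calc g * (e * x * e * y * e) * g = g * e * x * e * y * (e * g) := by simp only [mul_assoc]
      _ = k := by rw [ge, eg, h3]
  have h5 := h.comm he eg ge ed de
  rw [mul_assoc, ← h5, ← mul_assoc, gg] at h4
  exact h4

/-- Second half.

PROOF. Let `k = e x y e`, `d = e x e y e`, `g = d°` (`e g = g = g e`), `s = g x`, `t = y d'` (note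
`d' = e d'`, `t g = t`, `g s = s`). `s e t = g x e y d' = g d d' = g`. `j = e t s` and `i = t s e` are
idempotent, `s j = s`, `i t = t`, `j i`-products: `i j = t s`. By `locl` for `g, j, s`:
`pw (s * g) c * s = s`, times `e t`: `pw (s * g) c * g = g`, so `pw (s * g) c = g`. By `locr` for
`i, g, t`: `t * pw (g * t) c = t`, times `s e` on the left: `pw (g * t) c = g`. Let `w = s g t`;
`w w = s g (t s) g t = s g i j g t = s j g i t = s g t = w` (exchange idempotents `g, i, j` in the
context `s _ t`, `s j = s`, `i t = t`), so `w = g` as in the first half. Let `v = s t`.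
`v w = s (t s) g t = s i j g t = s j g i t = s g t = g` and `v w = v g = v`. So `s t = g`, that is
`g x y d' = g`, so `g k g = g x y g = g x y d' d = g d = d` and `g k g = g k` by commutativity
(`g x y e g = g x y g`). So `d = g k`. -/
theorem Hy.hom_right {c : ℕ} {M : Type} [Semigroup M] (h : Hy c M) {e : M} (he : e * e = e)
    (x y : M) : pw (e * x * e * y * e) c * (e * x * y * e) = e * x * e * y * e := by
  have ek : e * (e * x * y * e) = e * x * y * e := by simp only [← mul_assoc, he]
  have ke : e * x * y * e * e = e * x * y * e := by rw [mul_assoc, he]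
  have ed : e * (e * x * e * y * e) = e * x * e * y * e := by simp only [← mul_assoc, he]
  have de : e * x * e * y * e * e = e * x * e * y * e := by rw [mul_assoc, he]
  generalize hd : e * x * e * y * e = d at ed de ⊢
  have gg := h.pow d
  have eg := mul_pw ed c
  have ge := pw_mul de c
  have gd := ehom_o_mul h he ed de
  have dd' := ehom_mul_iv h d
  have d'd := ehom_iv_mul h d
  have d'g := ehom_iv_o h he ed de
  have ed' := mul_pw ed (2 * c)
  generalize pw d c = g at gg eg ge gd dd' d'd d'g ⊢
  generalize pw d (2 * c) = d' at dd' d'd d'g ed'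
  have gs : g * (g * x) = g * x := by rw [← mul_assoc, gg]
  have tg : y * d' * g = y * d' := by rw [mul_assoc, d'g]
  have st : g * x * e * (y * d') = g := by
    calc g * x * e * (y * d') = g * e * x * e * y * (e * d') := by
          rw [ge, ed']; simp only [mul_assoc]
      _ = g * (e * x * e * y * e) * d' := by simp only [mul_assoc]
      _ = g := by rw [hd, gd, dd']
  have xs : ∀ s t : M, s = g * x → t = y * d' → s * t = g := by
    intro s t hs ht
    rw [← hs, ← ht] at st
    rw [← hs] at gs
    rw [← ht] at tg
    have jj : e * t * s * (e * t * s) = e * t * s := by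
      calc e * t * s * (e * t * s) = e * t * (s * e * t) * s := by simp only [mul_assoc]
        _ = e * (t * g) * s := by rw [st]; simp only [mul_assoc]
        _ = e * t * s := by rw [tg]
    have ii : t * s * e * (t * s * e) = t * s * e := by
      calc t * s * e * (t * s * e) = t * (s * e * t) * s * e := by simp only [mul_assoc]
        _ = t * s * e := by rw [st, tg]
    have sj : s * (e * t * s) = s := by
      calc s * (e * t * s) = s * e * t * s := by simp only [mul_assoc]
        _ = s := by rw [st, gs]
    have it : t * s * e * t = t := by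
      calc t * s * e * t = t * (s * e * t) := by simp only [mul_assoc]
        _ = t := by rw [st, tg]
    have ij : t * s * e * (e * t * s) = t * s := by
      calc t * s * e * (e * t * s) = t * (s * (e * e) * t) * s := by simp only [mul_assoc]
        _ = t * s := by rw [he, st, tg]
    have h1 : pw (s * g) c = g := by
      have a1 := h.locl g (e * t * s) s gg jj gs sj
      have a2 : pw (s * g) c * g = g := by
        calc pw (s * g) c * g = pw (s * g) c * s * (e * t) := by
              rw [mul_assoc _ s, ← mul_assoc s, st]
          _ = g := by rw [a1, ← mul_assoc, st]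
      rwa [pw_mul (show s * g * g = s * g by rw [mul_assoc, gg])] at a2
    have h2 : pw (g * t) c = g := by
      have a1 := h.locr (t * s * e) g t ii gg it tg
      have a2 : g * pw (g * t) c = g := by
        calc g * pw (g * t) c = s * e * (t * pw (g * t) c) := by rw [← mul_assoc, st]
          _ = g := by rw [a1, st]
      rwa [mul_pw (show g * (g * t) = g * t by rw [← mul_assoc, gg])] at a2
    have e3 : s * (t * s * e) * (e * t * s) * (g * t) = s * g * t := by
      calc s * (t * s * e) * (e * t * s) * (g * t)
          = s * (e * t * s) * (t * s * e) * (g * t) := h.ce s _ _ (g * t) ii jj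
        _ = s * (t * s * e) * g * t := by rw [sj]; simp only [mul_assoc]
        _ = s * g * (t * s * e) * t := h.ce s _ g t ii gg
        _ = s * g * t := by rw [mul_assoc (s * g), it]
    have ww : s * g * t * (s * g * t) = s * g * t := by
      calc s * g * t * (s * g * t) = s * g * (t * s) * (g * t) := by simp only [mul_assoc]
        _ = s * g * (t * s * e * (e * t * s)) * (g * t) := by rw [ij]
        _ = s * g * (t * s * e) * (e * t * s * (g * t)) := by simp only [mul_assoc]
        _ = s * (t * s * e) * g * (e * t * s * (g * t)) := h.ce s g _ _ gg ii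
        _ = s * (t * s * e) * g * (e * t * s) * (g * t) := by simp only [mul_assoc]
        _ = s * (t * s * e) * (e * t * s) * g * (g * t) :=
            h.ce (s * (t * s * e)) g _ (g * t) gg jj
        _ = s * (t * s * e) * (e * t * s) * (g * g * t) := by simp only [mul_assoc]
        _ = s * g * t := by rw [gg, e3]
    have hw := ehom_core h gs h1 h2 ww
    calc s * t = s * (t * g) := by rw [tg]
      _ = s * (t * (s * g * t)) := by rw [hw]
      _ = s * (t * s) * (g * t) := by simp only [mul_assoc]
      _ = s * (t * s * e * (e * t * s)) * (g * t) := by rw [ij]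
      _ = s * (t * s * e) * (e * t * s) * (g * t) := by simp only [mul_assoc]
      _ = g := by rw [e3, hw]
  have hv := xs _ _ rfl rfl
  have h3 : g * x * y * g = d := by
    calc g * x * y * g = g * x * (y * d') * d := by rw [← d'd]; simp only [mul_assoc]
      _ = d := by rw [hv, gd]
  have h4 : g * (e * x * y * e) * g = d := by
    calc g * (e * x * y * e) * g = g * e * x * y * (e * g) := by simp only [mul_assoc]
      _ = d := by rw [ge, eg, h3]
  have h5 := h.comm he eg ge ek ke
  rw [mul_assoc, ← h5, ← mul_assoc, gg] at h4
  exact h4

/-- `x ↦ e x e` is a homomorphism. -/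
theorem Hy.hom {c : ℕ} {M : Type} [Semigroup M] (h : Hy c M) {e : M} (he : e * e = e)
    (x y : M) : e * x * y * e = e * x * e * y * e := by
  have ek : e * (e * x * y * e) = e * x * y * e := by simp only [← mul_assoc, he]
  have ke : e * x * y * e * e = e * x * y * e := by rw [mul_assoc, he]
  have ed : e * (e * x * e * y * e) = e * x * e * y * e := by simp only [← mul_assoc, he]
  have de : e * x * e * y * e * e = e * x * e * y * e := by rw [mul_assoc, he]
  have h1 := h.hom_left he x y
  have h2 := h.hom_right he x y
  generalize e * x * y * e = k at ek ke h1 h2 ⊢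
  generalize e * x * e * y * e = d at ed de h1 h2 ⊢
  have h3 := h.comm he (mul_pw ek c) (pw_mul ke c) (mul_pw ed c) (pw_mul de c)
  have h4 := ehom_o_mul h he ed de
  calc k = pw k c * d := h1.symm
    _ = pw k c * (pw d c * d) := by rw [h4]
    _ = pw d c * (pw k c * d) := by rw [← mul_assoc, h3, mul_assoc]
    _ = d := by rw [h1, h2]

end Pool.Agent.Lib.MP_88bd66_lcP
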