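import Pool.Agent.Lib.MP_88bd66_lcP.EBase

/-!
Consequences of an identity as in `Rep`: long products contain an idempotent.
-/

set_option autoImplicit false

namespace Pool.Agent.Lib.MP_88bd66_lcP

open FreeSemigroup Pool.Agent.Lib.MP_88bd66_lc

/-- A linear word can be mapped onto any list of the same length. -/
private theorem emem_exists_map {M : Type} {N : ℕ} (d : M) (w : List (Fin N)) (hw : w.Nodup)
    (l : List M) (hl : l.length = w.length) : ∃ θ : Fin N → M, w.map θ = l := by
  refine ⟨fun i => l.getD (w.idxOf i) d, ?_⟩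
  apply List.ext_getElem
  · simp [hl]
  · intro i h1 h2
    rw [List.getElem_map]
    have hi : i < w.length := by simpa using h1
    rw [hw.idxOf_getElem i hi]
    simp [List.getD_eq_getElem?_getD, h2]

/-- A word that contains all letters of a linear word and one of them twice is longer. -/
private theorem emem_length_lt {N : ℕ} {u v : List (Fin N)} {x : Fin N} (hu : u.Nodup)
    (huv : u ⊆ v) (hx : x ∈ u) (h2 : 2 ≤ v.count x) : u.length < v.length := by
  have hsub : u ⊆ v.erase x := by
    intro y hy
    by_cases hyx : y = x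
    · subst hyx
      rw [← List.count_pos_iff, List.count_erase_self]
      omega
    · exact (List.mem_erase_of_ne hyx).2 (huv hy)
  have h3 : u.length ≤ (v.erase x).length := (List.subperm_of_subset hu hsub).length_le
  rw [List.length_erase_of_mem (huv hx)] at h3
  have h4 : 0 < v.length := List.length_pos_of_mem (huv hx)
  omega

/-- PROOF. Let `u = v` be as in `Rep`, `k = (lst u).length ≤ n ≤ l.length`; write `l = l₁ ++ l₂`,
`l₁.length = k`; there is `θ : Fin N → M` with `(lst u).map θ = l₁` (`lst u` is linear), so
`pr l₁ = lift θ u = lift θ v = pr ((lst v).map θ)` by `coe_lift`, and `(lst v).length ≥ k + 1`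
(all letters of `u` occur in `v`, one of them twice: `lst u` is a `Subperm` of `(lst v).erase x`).
So `l' = (lst v).map θ ++ l₂` works. -/
theorem Rep.longer {n : ℕ} {M : Type} [Semigroup M] (h : Rep n M) (l : List M)
    (hl : n ≤ l.length) : ∃ l' : List M, l.length < l'.length ∧ pr l' = pr l := by
  obtain ⟨N, u, v, x, hs, hu, hn, huv, hx, h2⟩ := h
  have hlen : (lst u).length < (lst v).length := emem_length_lt hu huv hx h2
  have hpos : 0 < (lst u).length := List.length_pos_of_mem hx
  obtain ⟨d, hd⟩ : ∃ d : M, d ∈ l := List.exists_mem_of_length_pos (by omega)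
  obtain ⟨θ, hθ⟩ := emem_exists_map d (lst u) hu (l.take (lst u).length)
    (by rw [List.length_take]; omega)
  refine ⟨(lst v).map θ ++ l.drop (lst u).length, ?_, ?_⟩
  · rw [List.length_append, List.length_map, List.length_drop]
    omega
  · have h1 : pr ((lst v).map θ) = pr (l.take (lst u).length) := by
      rw [← hθ, ← coe_lift, ← coe_lift, hs θ]
    rw [pr_append, h1, ← pr_append, List.take_append_drop]

/-- PROOF. The prefix products `P i = pr (l.take (i + 1))`, `i ≤ Nat.card M`, are elements of `M`
(`exists_pr`); two of them are equal, `P i = P j`, `i < j`; `P j = P i * z`, `z` the product of the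
letters between, so `P i = P i * pw z c`, and `pr l = P i * pw z c * q`, `q = pr (l.drop (i + 1))`, which
is an element of `M` since `i + 1 < l.length`. -/
theorem exists_idem {c : ℕ} {M : Type} [Semigroup M] [Finite M] (hc : PowL c M) (l : List M)
    (hl : Nat.card M + 2 ≤ l.length) : ∃ p e q : M, e * e = e ∧ pr l = ((p * e * q : M) : WithOne M) := by
  have hP : ∀ i : Fin (Nat.card M + 1), ∃ a : M, (a : WithOne M) = pr (l.take (i.1 + 1)) := by
    intro i
    apply exists_pr
    intro h0
    have h1 := congrArg List.length h0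
    rw [List.length_take, List.length_nil] at h1
    omega
  choose P hPe using hP
  obtain ⟨i, j, hij, hPij⟩ : ∃ i j : Fin (Nat.card M + 1), i < j ∧ P i = P j := by
    have hni : ¬ Function.Injective P := by
      intro hinj
      have h1 := Nat.card_le_card_of_injective P hinj
      rw [Nat.card_fin] at h1
      omega
    rw [Function.not_injective_iff] at hni
    obtain ⟨a, b, hab, hne⟩ := hni
    rcases lt_or_gt_of_ne hne with h1 | h1
    · exact ⟨a, b, h1, hab⟩
    · exact ⟨b, a, h1, hab.symm⟩
  have hij' : i.1 < j.1 := hij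
  have hj' : j.1 < Nat.card M + 1 := j.2
  obtain ⟨z, hz⟩ : ∃ z : M, (z : WithOne M) = pr ((l.take (j.1 + 1)).drop (i.1 + 1)) := by
    apply exists_pr
    intro h0
    have h1 := congrArg List.length h0
    rw [List.length_drop, List.length_take, List.length_nil] at h1
    omega
  obtain ⟨q, hq⟩ : ∃ q : M, (q : WithOne M) = pr (l.drop (i.1 + 1)) := by
    apply exists_pr
    intro h0
    have h1 := congrArg List.length h0
    rw [List.length_drop, List.length_nil] at h1
    omega
  have hPz : P i * z = P i := by
    apply WithOne.coe_injective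
    rw [WithOne.coe_mul, hPe i, hz]
    have h1 : l.take (i.1 + 1) = (l.take (j.1 + 1)).take (i.1 + 1) := by
      rw [List.take_take, min_eq_left (by omega)]
    rw [h1, ← pr_append, List.take_append_drop, ← hPe j, ← hPij, hPe i, h1]
  have hPw : ∀ k : ℕ, P i * pw z k = P i := by
    intro k
    induction k with
    | zero => exact hPz
    | succ k ihk => rw [pw_succ, ← mul_assoc, ihk, hPz]
  refine ⟨P i, pw z c, q, hc z, ?_⟩
  rw [hPw c, WithOne.coe_mul, hPe i, hq, ← pr_append, List.take_append_drop]

/-- PROOF. Iterate `Rep.longer` until the length is at least `Nat.card M + 2`, then `exists_idem`. -/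
theorem Rep.mem {n c : ℕ} {M : Type} [Semigroup M] [Finite M] (h : Rep n M) (hc : PowL c M)
    (l : List M) (hl : n ≤ l.length) :
    ∃ p e q : M, e * e = e ∧ pr l = ((p * e * q : M) : WithOne M) := by
  have key : ∀ m : ℕ, ∃ l' : List M, m ≤ l'.length ∧ n ≤ l'.length ∧ pr l' = pr l := by
    intro m
    induction m with
    | zero => exact ⟨l, Nat.zero_le _, hl, rfl⟩
    | succ m ih =>
      obtain ⟨l', h1, h2, h3⟩ := ih
      obtain ⟨l'', h4, h5⟩ := Rep.longer h l' h2
      exact ⟨l'', by omega, by omega, h5.trans h3⟩
  obtain ⟨l', h1, _, h3⟩ := key (Nat.card M + 2)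
  obtain ⟨p, e, q, he, hp⟩ := exists_idem hc l' h1
  exact ⟨p, e, q, he, by rw [← h3, hp]⟩

end Pool.Agent.Lib.MP_88bd66_lcP
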