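import Pool.Agent.Lib.MP_88bd66_lcP.EBase

/-!
Consequences of an identity as in `Rep`: local conditions.
-/

set_option autoImplicit false

namespace Pool.Agent.Lib.MP_88bd66_lcP

open FreeSemigroup Pool.Agent.Lib.MP_88bd66_lc

theorem ERep_left {G : Type} [Monoid G] {Y k r : G} (h : Y = k * Y * r) {n : ℕ}
    (hk : k ^ n * k ^ n = k ^ n) : k ^ n * Y = Y := by
  have key : ∀ i : ℕ, Y = k ^ i * Y * r ^ i := by
    intro i
    induction i with
    | zero => simp
    | succ i ih =>
      have e1 : k ^ (i + 1) * Y * r ^ (i + 1) = k ^ i * (k * Y * r) * r ^ i := by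
        rw [pow_succ k, pow_succ' r]
        simp only [mul_assoc]
      rw [e1, ← h]
      exact ih
  have h1 := key n
  conv_lhs => rw [h1]
  rw [← mul_assoc, ← mul_assoc, hk]
  exact h1.symm

theorem ERep_right {G : Type} [Monoid G] {Y k r : G} (h : Y = r * Y * k) {n : ℕ}
    (hk : k ^ n * k ^ n = k ^ n) : Y * k ^ n = Y := by
  have key : ∀ i : ℕ, Y = r ^ i * Y * k ^ i := by
    intro i
    induction i with
    | zero => simp
    | succ i ih =>
      have e1 : r ^ (i + 1) * Y * k ^ (i + 1) = r ^ i * (r * Y * k) * k ^ i := by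
        rw [pow_succ r, pow_succ' k]
        simp only [mul_assoc]
      rw [e1, ← h]
      exact ih
  have h1 := key n
  conv_lhs => rw [h1]
  rw [mul_assoc, hk]
  exact h1.symm

theorem ERep_mulcoe {M : Type} [Semigroup M] (y : M) (b : WithOne M) :
    ∃ g : M, (g : WithOne M) = y * b := by
  induction b using WithOne.recOneCoe with
  | one => exact ⟨y, by simp⟩
  | coe b => exact ⟨y * b, by simp⟩

theorem ERep_coemul {M : Type} [Semigroup M] (y : M) (b : WithOne M) :
    ∃ g : M, (g : WithOne M) = b * y := by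
  induction b using WithOne.recOneCoe with
  | one => exact ⟨y, by simp⟩
  | coe b => exact ⟨b * y, by simp⟩

theorem ERep_idem {c : ℕ} {M : Type} [Semigroup M] (hc : PowL c M) (g : M) :
    (g : WithOne M) ^ (c + 1) * (g : WithOne M) ^ (c + 1) = (g : WithOne M) ^ (c + 1) := by
  rw [← coe_pw, ← WithOne.coe_mul, hc g]

theorem ERep_all_left {M : Type} [Semigroup M] {e y : M} (ey : e * y = y) (w : List M)
    (hw : ∀ a ∈ w, a = e) : pr w * (y : WithOne M) = y := by
  induction w with
  | nil => rw [pr_nil, one_mul]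
  | cons a w ih =>
    rw [pr_cons, mul_assoc, ih fun b hb => hw b (List.mem_cons_of_mem _ hb),
      hw a List.mem_cons_self, ← WithOne.coe_mul, ey]

theorem ERep_all_right {M : Type} [Semigroup M] {f y : M} (yf : y * f = y) (w : List M)
    (hw : ∀ a ∈ w, a = f) : (y : WithOne M) * pr w = y := by
  induction w with
  | nil => rw [pr_nil, mul_one]
  | cons a w ih =>
    rw [pr_cons, ← mul_assoc, hw a List.mem_cons_self, ← WithOne.coe_mul, yf,
      ih fun b hb => hw b (List.mem_cons_of_mem _ hb)]

theorem ERep_e {M : Type} [Semigroup M] (ce : CE M) {e y : M} (he : e * e = e) (ey : e * y = y)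
    (w : List M) (hw : ∀ a ∈ w, a * a = a) : ∀ X : M,
    (X : WithOne M) * e * pr w * y = (X : WithOne M) * pr w * y := by
  induction w with
  | nil =>
    intro X
    rw [pr_nil, mul_one, mul_one, mul_assoc, ← WithOne.coe_mul e y, ey]
  | cons a w ih =>
    intro X
    obtain ⟨z, hz⟩ := ERep_coemul y (pr w)
    have h1 : (X : WithOne M) * e * pr (a :: w) * y = ((X * e * a * z : M) : WithOne M) := by
      rw [pr_cons]
      simp only [WithOne.coe_mul, hz, mul_assoc]
    rw [h1, ce X e a z he (hw a List.mem_cons_self)]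
    have h2 := ih (fun b hb => hw b (List.mem_cons_of_mem _ hb)) (X * a)
    have h3 : ((X * a * e * z : M) : WithOne M) =
        ((X * a : M) : WithOne M) * e * pr w * y := by
      simp only [WithOne.coe_mul, hz, mul_assoc]
    rw [h3, h2, pr_cons]
    simp only [WithOne.coe_mul, mul_assoc]

/-- Words in the idempotents `e, f` between two elements.

PROOF. All in `WithOne M`. (1) For a list `w` of idempotents, idempotent `e`, and elements `X, Y` of
`M`: `X * e * pr w * e * Y = X * pr w * e * Y` (induction on `w` for all `X`: `X e a (pr w) e Y =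
X a e (pr w) e Y` by `ce`, since something of `M` stands on the right: use `exists_pr` for the rest).
(2) For `w` with all members in `{e, f}`: `y * f * pr w * e * y = y * f * e * y` by induction on `w`:
`f f = f` if the first letter is `f`, (1) if it is `e`. -/
theorem word_ef {M : Type} [Semigroup M] (ce : CE M) {e f y : M} (he : e * e = e) (hf : f * f = f)
    (ey : e * y = y) (yf : y * f = y) (w : List M) (hw : ∀ a ∈ w, a = e ∨ a = f) :
    (y : WithOne M) * pr w * y = ((y * f * e * y : M) : WithOne M) := by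
  induction w with
  | nil =>
    rw [pr_nil, mul_one, yf, mul_assoc, ey, WithOne.coe_mul]
  | cons a w ih =>
    have hw' : ∀ b ∈ w, b = e ∨ b = f := fun b hb => hw b (List.mem_cons_of_mem _ hb)
    have h1 := ih hw'
    rcases hw a List.mem_cons_self with h | h
    · rw [pr_cons, h, ← mul_assoc]
      rw [ERep_e ce he ey w (fun b hb => by rcases hw' b hb with h | h <;> rw [h] <;> assumption) y]
      exact h1
    · have e1 : (y : WithOne M) * f = y := by rw [← WithOne.coe_mul, yf]
      rw [pr_cons, h, ← mul_assoc, e1]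
      exact h1

/-- PROOF. Let `u = v`, `x` be as in `Rep`. Let `θ : Fin N → M`, `θ x = y`, `θ z = e` if `z` stands
before `x` in `lst u`, `θ z = f` otherwise. `lst u = l₁ ++ x :: l₂` with `x` in neither part (`Nodup`),
and (with `θ z = e` iff `z ∈ l₁`) `lift θ u = y` (`e y = y = y f`; `coe_lift`).
`lst v = s ++ x :: (s' ++ x :: r)` with `x` in neither `s` nor `s'` (`List.eq_append_cons_of_mem`
twice, `count`), so `y = lift θ v = α (y * f * e * y) β` in `WithOne M` by `word_ef`, where
`α = pr (s.map θ)`, `β = pr (r.map θ)`. So there are `a b` in `WithOne M` with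
`(y : WithOne M) = a * (y f e y) * b`. -/
theorem Rep.exists_form {n : ℕ} {M : Type} [Semigroup M] (h : Rep n M) (ce : CE M)
    {e f y : M} (he : e * e = e) (hf : f * f = f) (ey : e * y = y) (yf : y * f = y) :
    ∃ a b : WithOne M, (y : WithOne M) = a * ((y * f * e * y : M) : WithOne M) * b := by
  classical
  obtain ⟨N, u, v, x, hs, hnd, -, -, hxu, hxv⟩ := h
  obtain ⟨l₁, l₂, hl, hx1⟩ := List.eq_append_cons_of_mem hxu
  have hnd' := hnd
  rw [hl, List.nodup_append] at hnd'
  obtain ⟨-, hn2, hdis⟩ := hnd'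
  rw [List.nodup_cons] at hn2
  let θ : Fin N → M := fun z => if z = x then y else if z ∈ l₁ then e else f
  have hθx : θ x = y := by simp [θ]
  have hθ1 : ∀ z ∈ l₁, θ z = e := by
    intro z hz
    have hzx : z ≠ x := fun h => hx1 (h ▸ hz)
    simp [θ, hzx, hz]
  have hθ2 : ∀ z ∈ l₂, θ z = f := by
    intro z hz
    have hzx : z ≠ x := fun h => hn2.1 (h ▸ hz)
    have hz1 : z ∉ l₁ := fun h => hdis z h z (List.mem_cons_of_mem _ hz) rfl
    simp [θ, hzx, hz1]
  have hθ3 : ∀ z, z ≠ x → θ z = e ∨ θ z = f := by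
    intro z hz
    by_cases hz1 : z ∈ l₁
    · exact Or.inl (hθ1 z hz1)
    · right; simp [θ, hz, hz1]
  have hu : ((lift θ u : M) : WithOne M) = y := by
    rw [coe_lift, hl, List.map_append, List.map_cons, pr_append, pr_cons, hθx,
      ERep_all_right yf, ERep_all_left ey]
    · intro a ha
      obtain ⟨z, hz, rfl⟩ := List.mem_map.1 ha
      exact hθ1 z hz
    · intro a ha
      obtain ⟨z, hz, rfl⟩ := List.mem_map.1 ha
      exact hθ2 z hz
  have hxv1 : x ∈ lst v := List.count_pos_iff.1 (by omega)
  obtain ⟨s, t, ht, hxs⟩ := List.eq_append_cons_of_mem hxv1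
  have hct : 1 ≤ t.count x := by
    rw [ht, List.count_append, List.count_cons_self, List.count_eq_zero.2 hxs] at hxv
    omega
  obtain ⟨s', r, hr, hxs'⟩ := List.eq_append_cons_of_mem (List.count_pos_iff.1 hct)
  have hv : ((lift θ v : M) : WithOne M) =
      pr (s.map θ) * ((y * f * e * y : M) : WithOne M) * pr (r.map θ) := by
    rw [← word_ef ce he hf ey yf (s'.map θ) ?_, coe_lift, ht, hr]
    · simp only [List.map_append, List.map_cons, pr_append, pr_cons, hθx, mul_assoc]
    · intro a ha
      obtain ⟨z, hz, rfl⟩ := List.mem_map.1 ha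
      exact hθ3 z fun h => hxs' (h ▸ hz)
  refine ⟨pr (s.map θ), pr (r.map θ), ?_⟩
  rw [← hv, ← hs θ, hu]

/-- PROOF. `y = a y (f e y b)` with `a, b` in `WithOne M`; `γ = f e y b` is in `M` (times `b`), so
`y = a ^ i * y * γ ^ i` for all `i` (in `WithOne M`). With `i = c + 1`, `γ ^ (c + 1)` idempotent (`hc`,
`coe_pw`): `y * γ ^ (c + 1) = y`, so `y = y f e y ρ` for some `ρ` in `WithOne M`. Put `κ = y * f * e`
(`= y * e`): `y = κ * y * ρ`, so `y = κ ^ (c + 1) * y * ρ ^ (c + 1)`, and as `κ ^ (c + 1) = pw κ c` is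
idempotent, `pw κ c * y = y`. -/
theorem Rep.locl {n c : ℕ} {M : Type} [Semigroup M] (h : Rep n M) (hc : PowL c M) (ce : CE M)
    {e f y : M} (he : e * e = e) (hf : f * f = f) (ey : e * y = y) (yf : y * f = y) :
    pw (y * e) c * y = y := by
  obtain ⟨a, b, hab⟩ := h.exists_form ce he hf ey yf
  have h0 : (y * f * e * y : M) = y * y := by rw [yf, mul_assoc, ey]
  rw [h0, WithOne.coe_mul] at hab
  obtain ⟨g, hg⟩ := ERep_mulcoe y b
  have h1 : (y : WithOne M) = a * y * g := by
    rw [hg]
    conv_lhs => rw [hab]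
    simp only [mul_assoc]
  have h2 : (y : WithOne M) * (g : WithOne M) ^ (c + 1) = y := ERep_right h1 (ERep_idem hc g)
  have h3 : (y : WithOne M) = ((y * e : M) : WithOne M) * y * (b * (g : WithOne M) ^ c) := by
    have eY : (e : WithOne M) * y = y := by rw [← WithOne.coe_mul, ey]
    calc (y : WithOne M) = y * (g : WithOne M) ^ (c + 1) := h2.symm
      _ = y * (y * b) * (g : WithOne M) ^ c := by rw [pow_succ', ← mul_assoc, hg]
      _ = _ := by
        rw [WithOne.coe_mul, mul_assoc (y : WithOne M) e y, eY]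
        simp only [mul_assoc]
  have h4 := ERep_left h3 (ERep_idem hc (y * e))
  rw [← coe_pw, ← WithOne.coe_mul] at h4
  exact WithOne.coe_inj.1 h4

/-- PROOF. Dual to `Rep.locl`: `y = (a y f e) y b`, the left factor `γ = a y f e` gives
`γ ^ (c + 1) * y = y`, so `y = ρ y f e y`, and with `κ = f * e * y = f * y`: `y = ρ * y * κ`. -/
theorem Rep.locr {n c : ℕ} {M : Type} [Semigroup M] (h : Rep n M) (hc : PowL c M) (ce : CE M)
    {e f y : M} (he : e * e = e) (hf : f * f = f) (ey : e * y = y) (yf : y * f = y) :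
    y * pw (f * y) c = y := by
  obtain ⟨a, b, hab⟩ := h.exists_form ce he hf ey yf
  have h0 : (y * f * e * y : M) = y * y := by rw [yf, mul_assoc, ey]
  rw [h0, WithOne.coe_mul] at hab
  obtain ⟨g, hg⟩ := ERep_coemul y a
  have h1 : (y : WithOne M) = g * y * b := by
    rw [hg]
    conv_lhs => rw [hab]
    simp only [mul_assoc]
  have h2 : (g : WithOne M) ^ (c + 1) * y = y := ERep_left h1 (ERep_idem hc g)
  have h3 : (y : WithOne M) = ((g : WithOne M) ^ c * a) * y * ((f * y : M) : WithOne M) := by
    have eY : (y : WithOne M) * f = y := by rw [← WithOne.coe_mul, yf]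
    calc (y : WithOne M) = (g : WithOne M) ^ (c + 1) * y := h2.symm
      _ = (g : WithOne M) ^ c * (a * y) * y := by rw [pow_succ, hg]
      _ = (g : WithOne M) ^ c * a * (y * f * y) := by rw [eY]; simp only [mul_assoc]
      _ = _ := by
        rw [WithOne.coe_mul]
        simp only [mul_assoc]
  have h4 := ERep_right h3 (ERep_idem hc (f * y))
  rw [← coe_pw, ← WithOne.coe_mul] at h4
  exact WithOne.coe_inj.1 h4

end Pool.Agent.Lib.MP_88bd66_lcP
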