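import Pool.Agent.Lib.MP_88bd66_lcP.EHom
import Pool.Agent.Lib.MP_88bd66_lcP.ERep
import Pool.Agent.Lib.MP_88bd66_lcP.EMem

/-!
The structure theorem: with an identity as in `Rep`, `M` is permutative.
-/

set_option autoImplicit false

namespace Pool.Agent.Lib.MP_88bd66_lcP

open FreeSemigroup Pool.Agent.Lib.MP_88bd66_lc

/-- between idempotents the middle letters may be exchanged -/
theorem Hy.mid {c : ℕ} {M : Type} [Semigroup M] (h : Hy c M) {e f : M} (he : e * e = e)
    (hf : f * f = f) (q x y p : M) : e * q * x * y * p * f = e * q * y * x * p * f := by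
  -- local monoids
  have hloc : ∀ g : M, g * g = g → ∀ a b u v : M, g * a * u * v * b * g = g * a * v * u * b * g := by
    intro g hg a b u v
    have h1 : ∀ u v : M, g * a * u * v * b * g =
        (g * a * g) * ((g * u * g) * (g * v * g)) * (g * b * g) := by
      intro u v
      calc g * a * u * v * b * g = g * (a * u * v) * b * g := by simp only [mul_assoc]
        _ = g * (a * u * v) * g * b * g := h.hom hg _ _
        _ = (g * (a * u) * v * g) * b * g := by simp only [mul_assoc]
        _ = (g * (a * u) * g * v * g) * b * g := by rw [h.hom hg]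
        _ = (g * a * u * g) * v * g * b * g := by simp only [mul_assoc]
        _ = (g * a * g * u * g) * v * g * b * g := by rw [h.hom hg]
        _ = (g * a * (g * g)) * u * (g * g) * v * (g * g) * b * g := by
          simp only [hg]
        _ = _ := by simp only [mul_assoc]
    rw [h1, h1]
    have h2 : (g * u * g) * (g * v * g) = (g * v * g) * (g * u * g) := by
      refine h.comm hg ?_ ?_ ?_ ?_
      · rw [← mul_assoc, ← mul_assoc, hg]
      · rw [mul_assoc, hg]
      · rw [← mul_assoc, ← mul_assoc, hg]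
      · rw [mul_assoc, hg]
    rw [h2]
  obtain ⟨u₁, hu₁⟩ : ∃ u, u = e * q * x * y * p * f := ⟨_, rfl⟩
  obtain ⟨u₂, hu₂⟩ : ∃ u, u = e * q * y * x * p * f := ⟨_, rfl⟩
  rw [← hu₁, ← hu₂]
  have e1 : e * u₁ = u₁ := by rw [hu₁]; simp only [← mul_assoc, he]
  have e2 : e * u₂ = u₂ := by rw [hu₂]; simp only [← mul_assoc, he]
  have f1 : u₁ * f = u₁ := by rw [hu₁]; simp only [mul_assoc, hf]
  have f2 : u₂ * f = u₂ := by rw [hu₂]; simp only [mul_assoc, hf]
  have hA : u₁ * e = u₂ * e := by
    rw [hu₁, hu₂]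
    have := hloc e he q (p * f) x y
    simpa only [mul_assoc] using this
  have hB : f * u₁ = f * u₂ := by
    rw [hu₁, hu₂]
    have := hloc f hf (e * q) p x y
    simpa only [mul_assoc] using this
  have l1 := h.locl e f u₁ he hf e1 f1
  have l2 := h.locl e f u₂ he hf e2 f2
  -- `A u₁ = A u₂`
  have hk : (u₁ * e) * u₁ = (u₁ * e) * u₂ := by
    calc (u₁ * e) * u₁ = u₁ * u₁ := by rw [mul_assoc, e1]
      _ = (u₁ * f) * u₁ := by rw [f1]
      _ = u₁ * (f * u₂) := by rw [mul_assoc, hB]
      _ = u₁ * u₂ := by rw [← mul_assoc, f1]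
      _ = _ := by rw [mul_assoc, e2]
  have hpow : ∀ k, pw (u₁ * e) k * u₁ = pw (u₁ * e) k * u₂ := by
    intro k
    cases k with
    | zero => exact hk
    | succ k => rw [pw_succ, mul_assoc, hk, ← mul_assoc]
  rw [← l1, hpow, hA, l2]

theorem Rep.hy {n c : ℕ} {M : Type} [Semigroup M] (h : Rep n M) (hc : PowL c M) (ce : CE M)
    (hab : ∀ e a b : M, InSub e a → InSub e b → a * b = b * a) : Hy c M :=
  ⟨hc, ce, fun _ _ _ he hf ey yf => h.locl hc ce he hf ey yf,
    fun _ _ _ he hf ey yf => h.locr hc ce he hf ey yf, hab⟩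

theorem Rep.permutative {n c : ℕ} {M : Type} [Semigroup M] [Finite M] (h : Rep n M)
    (hc : PowL c M) (ce : CE M)
    (hab : ∀ e a b : M, InSub e a → InSub e b → a * b = b * a) : Permutative n M := by
  intro p s x y hp hs
  obtain ⟨a, e, b, he, h1⟩ := h.mem hc p hp.ge
  obtain ⟨a', e', b', he', h2⟩ := h.mem hc s hs.ge
  have hmid := (h.hy hc ce hab).mid he he' b x y a'
  rw [h1, h2, ← WithOne.coe_mul, ← WithOne.coe_mul, ← WithOne.coe_mul, ← WithOne.coe_mul,
    ← WithOne.coe_mul, ← WithOne.coe_mul, WithOne.coe_inj]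
  calc a * e * b * x * y * (a' * e' * b') = a * (e * b * x * y * a' * e') * b' := by
        simp only [mul_assoc]
    _ = a * (e * b * y * x * a' * e') * b' := by rw [hmid]
    _ = _ := by simp only [mul_assoc]

end Pool.Agent.Lib.MP_88bd66_lcP
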