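import Pool.Agent.Lib.MP_88bd66_lcP.EBase

/-!
Syntactic semigroups of finite sets of linear words.
-/

set_option autoImplicit false

namespace Pool.Agent.Lib.MP_88bd66_lcP

open FreeSemigroup Pool.Agent.Lib.MP_88bd66_lc

/-- the list of letters of a word -/
def ls {A : Type} (w : FreeSemigroup A) : List A := w.head :: w.tail

theorem ESyn_ls_mul {A : Type} (u v : FreeSemigroup A) : ls (u * v) = ls u ++ ls v := rfl

theorem ESyn_ls_lift {A : Type} {N : ℕ} (φ : Fin N → FreeSemigroup A) (w : Wd N) :
    ls (lift φ w) = (lst w).flatMap fun a => ls (φ a) := by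
  induction w using FreeSemigroup.recOnMul with
  | ih1 x => rw [lift_of, lst_of]; simp
  | ih2 x y hx hy =>
    rw [map_mul, lift_of, ESyn_ls_mul, hy, lst_mul, lst_of]
    simp

theorem ESyn_len {A : Type} {N : ℕ} (φ : Fin N → FreeSemigroup A) (l : List (Fin N)) :
    l.length ≤ (l.flatMap fun a => ls (φ a)).length := by
  induction l with
  | nil => simp
  | cons a l ih =>
    rw [List.flatMap_cons, List.length_append, List.length_cons]
    have h : 1 ≤ (ls (φ a)).length := by simp [ls]
    omega

theorem ESyn_nodup {A : Type} {N : ℕ} (φ : Fin N → FreeSemigroup A) (l : List (Fin N))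
    (h : (l.flatMap fun a => ls (φ a)).Nodup) : l.Nodup := by
  induction l with
  | nil => simp
  | cons a l ih =>
    rw [List.flatMap_cons, List.nodup_append] at h
    rw [List.nodup_cons]
    refine ⟨fun ha => ?_, ih h.2.1⟩
    have h1 : (φ a).head ∈ ls (φ a) := by simp [ls]
    exact h.2.2 _ h1 _ (List.mem_flatMap.2 ⟨a, ha, h1⟩) rfl

/-- the syntactic congruence -/
def ESyn_con {A : Type} (L : Set (List A)) : Con (FreeSemigroup A) where
  r u v := ∀ p q : List A, p ++ ls u ++ q ∈ L ↔ p ++ ls v ++ q ∈ L
  iseqv := ⟨fun _ _ _ => Iff.rfl, fun h p q => (h p q).symm, fun h h' p q =>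
    (h p q).trans (h' p q)⟩
  mul' := by
    intro w x y z h1 h2 p q
    have e1 := h1 p (ls y ++ q)
    have e2 := h2 (p ++ ls x) q
    rw [ESyn_ls_mul, ESyn_ls_mul]
    simp only [List.append_assoc] at e1 e2 ⊢
    exact e1.trans e2

/-- Syntactic semigroup of a finite set `L` of linear words of length at most `n` over a finite
alphabet `A`. If `M` satisfies no nontrivial identity `u = v` with `u` linear of length at most `n`,
then there is a finite semigroup `S` satisfying all identities of `M` and a homomorphism `g` from the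
free semigroup over `A` onto `S` with `g u = g v` iff `u`, `v` have the same contexts in `L`.

PROOF. Let `S` be the quotient of `FreeSemigroup A` by the congruence (`Con`)
`u ~ v := ∀ p q : List A, p ++ ls u ++ q ∈ L ↔ p ++ ls v ++ q ∈ L`
(`ls (u * v) = ls u ++ ls v`; compatibility: regroup the contexts with `List.append_assoc`), `g` the
quotient map. FINITE: the class of `w` is determined by the subset
`{(p, q) | p ++ ls w ++ q ∈ L}` of `{l : List A | l.length ≤ n} ×ˢ {l | l.length ≤ n}`
(`List.finite_length_le`; the lengths are bounded by `hL`), so `S` injects into the set of subsets of a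
finite type. IDENTITIES: let `Sat M u v`, `u ≠ v` (else trivial), `θ : Fin N → S`; choose
`φ : Fin N → FreeSemigroup A` with `g (φ a) = θ a`; `lift θ w = g (lift φ w)` (compare homomorphisms,
`FreeSemigroup.hom_ext`). Claim: for no context `(p, q)` is `p ++ ls (lift φ u) ++ q ∈ L`: otherwise
`ls (lift φ u)` is a sublist of a linear word of length at most `n`, hence linear and of length at most
`n`; `ls (lift φ u) = (lst u).flatMap fun a => ls (φ a)`, where the lists `ls (φ a)` are not empty, so
`lst u` is linear and of length at most `n`, and `hiso` gives `u = v`. The same with `v` (`hiso` for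
`Sat.symm`). So both sides of the equivalence are false, and the classes agree. -/
theorem exists_syn {M : Type} [Semigroup M] {n : ℕ}
    (hiso : ∀ (N : ℕ) (u v : Wd N), Sat M u v → (lst u).Nodup → (lst u).length ≤ n → u = v)
    {A : Type} [Finite A] [Nonempty A] (L : Set (List A)) (hL : ∀ w ∈ L, w.Nodup ∧ w.length ≤ n) :
    ∃ (S : Type) (_ : Semigroup S) (g : FreeSemigroup A →ₙ* S), Finite S ∧ Nonempty S ∧ IdLe M S ∧
      Function.Surjective g ∧
      ∀ u v : FreeSemigroup A, g u = g v ↔
        ∀ p q : List A, p ++ ls u ++ q ∈ L ↔ p ++ ls v ++ q ∈ L := by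
  classical
  let c : Con (FreeSemigroup A) := ESyn_con L
  let g : FreeSemigroup A →ₙ* c.Quotient := ⟨fun w => (w : c.Quotient), fun _ _ => rfl⟩
  have hg : Function.Surjective g := fun x => Quotient.inductionOn' x fun w => ⟨w, rfl⟩
  have hgeq : ∀ u v : FreeSemigroup A, g u = g v ↔
      ∀ p q : List A, p ++ ls u ++ q ∈ L ↔ p ++ ls v ++ q ∈ L := fun u v => c.eq
  have hctx : ∀ {N : ℕ} (φ : Fin N → FreeSemigroup A) (u v : Wd N), Sat M u v → u ≠ v →
      ∀ p q : List A, p ++ ls (lift φ u) ++ q ∉ L := by
    intro N φ u v huv hne p q hmem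
    obtain ⟨h1, h2⟩ := hL _ hmem
    have h3 : (ls (lift φ u)).Nodup := by
      rw [List.append_assoc, List.nodup_append, List.nodup_append] at h1
      exact h1.2.1.1
    have h4 : (ls (lift φ u)).length ≤ n := by
      rw [List.length_append, List.length_append] at h2
      omega
    rw [ESyn_ls_lift] at h3 h4
    exact hne (hiso N u v huv (ESyn_nodup φ _ h3) ((ESyn_len φ _).trans h4))
  refine ⟨c.Quotient, inferInstance, g, ?_, ?_, ?_, hg, hgeq⟩
  · have hf : Finite {l : List A // l.length ≤ n} := (List.finite_length_le A n).to_subtype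
    choose r hr using hg
    let f : c.Quotient → Set ({l : List A // l.length ≤ n} × {l : List A // l.length ≤ n}) :=
      fun s => {pq | pq.1.1 ++ ls (r s) ++ pq.2.1 ∈ L}
    refine Finite.of_injective f fun s s' hss => ?_
    rw [← hr s, ← hr s', hgeq]
    intro p q
    have key : ∀ t : FreeSemigroup A, p ++ ls t ++ q ∈ L → p.length ≤ n ∧ q.length ≤ n := by
      intro t ht
      have h2 := (hL _ ht).2
      rw [List.length_append, List.length_append] at h2
      constructor <;> omega
    constructor
    · intro h
      obtain ⟨h1, h2⟩ := key _ h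
      have h3 : ((⟨p, h1⟩, ⟨q, h2⟩) : {l : List A // l.length ≤ n} × {l : List A // l.length ≤ n})
          ∈ f s := h
      rw [hss] at h3
      exact h3
    · intro h
      obtain ⟨h1, h2⟩ := key _ h
      have h3 : ((⟨p, h1⟩, ⟨q, h2⟩) : {l : List A // l.length ≤ n} × {l : List A // l.length ≤ n})
          ∈ f s' := h
      rw [← hss] at h3
      exact h3
  · obtain ⟨a⟩ := ‹Nonempty A›
    exact ⟨g (of a)⟩
  · intro N u v huv θ
    by_cases hne : u = v
    · rw [hne]
    choose φ hφ using fun a => hg (θ a)
    have hl : ∀ w : Wd N, lift θ w = g (lift φ w) := by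
      intro w
      have h1 : (lift θ : Wd N →ₙ* c.Quotient) = g.comp (lift φ) := by
        refine FreeSemigroup.hom_ext (funext fun a => ?_)
        show lift θ (of a) = g (lift φ (of a))
        rw [lift_of, lift_of, hφ]
      rw [h1]
      rfl
    rw [hl, hl, hgeq]
    intro p q
    exact iff_of_false (hctx φ u v huv hne p q) (hctx φ v u huv.symm (Ne.symm hne) p q)

end Pool.Agent.Lib.MP_88bd66_lcP
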