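import Pool.Agent.Lib.MP_88bd66_lcP.Cr

/-!
Evaluation of words in a maximal subgroup, for completely regular semigroups with commutative
local monoids.
-/

set_option autoImplicit false

namespace Pool.Agent.Lib.MP_88bd66_lcP

open FreeSemigroup Pool.Agent.Lib.MP_88bd66_lc

/-- an idempotent in a completely regular semigroup with commutative local monoids -/
structure Cx (c : ℕ) (M : Type) [Semigroup M] where
  h : CR c M
  hl : LC c M
  e : M
  he : e * e = e

namespace Cx

variable {c : ℕ} {M : Type} [Semigroup M] (X : Cx c M)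

/-- the maximal subgroup at `e` -/
def G : Type := {x : M // X.e * x = x ∧ x * X.e = x ∧ Jle X.e x}

variable {X}

theorem pw_c (x : X.G) : pw x.1 c = X.e := by
  have := X.h.loc_o X.he x.2.2.2
  rwa [x.2.1, x.2.2.1] at this

instance : CommGroup X.G where
  mul x y := ⟨x.1 * y.1, by rw [← mul_assoc, x.2.1], by rw [mul_assoc, y.2.2.1],
    X.h.jinf x.2.2.2 y.2.2.2⟩
  mul_assoc x y z := Subtype.ext (mul_assoc x.1 y.1 z.1)
  one := ⟨X.e, X.he, X.he, X.h.jrefl X.e⟩
  one_mul x := Subtype.ext x.2.1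
  mul_one x := Subtype.ext x.2.2.1
  inv x := ⟨pw x.1 (2 * c), mul_pw x.2.1 _, pw_mul x.2.2.1 _, x.2.2.2.trans (X.h.jiv _)⟩
  inv_mul_cancel x := Subtype.ext ((X.h.iv_mul x.1).trans (pw_c x))
  mul_comm x y := Subtype.ext (X.hl.comm' X.he x.2.1 x.2.2.1 y.2.1 y.2.2.1)

theorem mul_val (x y : X.G) : (x * y).1 = x.1 * y.1 := rfl

theorem one_val : (1 : X.G).1 = X.e := rfl

theorem inv_val (x : X.G) : (x⁻¹).1 = pw x.1 (2 * c) := rfl

theorem pow_val (x : X.G) (k : ℕ) : (x ^ (k + 1)).1 = pw x.1 k := by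
  induction k with
  | zero => rw [zero_add, pow_one]; rfl
  | succ k ih => rw [pow_succ, mul_val, ih]; rfl

theorem pow_c (x : X.G) : x ^ (c + 1) = 1 := Subtype.ext ((pow_val x c).trans (pw_c x))

theorem pw_eq_iff (x : X.G) (i j : ℕ) : pw x.1 (c + i) = pw x.1 (c + j) ↔ x ^ i = x ^ j := by
  have e : ∀ i, pw x.1 (c + i) = (x ^ (c + i + 1)).1 := fun i => (pow_val x _).symm
  have e' : ∀ i, x ^ (c + i + 1) = x ^ i := by
    intro i
    rw [show c + i + 1 = (c + 1) + i by ring, pow_add, pow_c, one_mul]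
  rw [e, e, e', e']
  exact ⟨fun h => Subtype.ext h, fun h => by rw [h]⟩

open Classical in
/-- the image in the maximal subgroup -/
noncomputable def emb (X : Cx c M) (m : M) : X.G :=
  if hJ : Jle X.e m then ⟨X.e * m * X.e, by rw [← mul_assoc, ← mul_assoc, X.he],
    by rw [mul_assoc, X.he], X.h.jinf (X.h.jinf (X.h.jrefl _) hJ) (X.h.jrefl _)⟩ else 1

theorem emb_val {m : M} (hJ : Jle X.e m) : (X.emb m).1 = X.e * m * X.e := by
  rw [emb, dif_pos hJ]

theorem emb_inv_val {m : M} (hJ : Jle X.e m) : ((X.emb m)⁻¹).1 = ivl c X.e m := by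
  rw [inv_val, emb_val hJ, ivl]

theorem emb_mul_mul {a b q : M} (ha : Jle X.e a) (hb : Jle X.e b) (hq : Jle X.e (b * q)) :
    X.emb (a * (b * q)) = X.emb (a * b) * (X.emb b)⁻¹ * X.emb (b * q) := by
  apply Subtype.ext
  rw [mul_val, mul_val, emb_val (X.h.jinf ha hq), emb_val (X.h.jinf ha hb), emb_val hq,
    emb_inv_val hb]
  have h1 := sw X.h X.hl (e := X.e) (b := b) (p := X.e * a) (q := q * X.e) X.he hb (by
    rw [← mul_assoc]
    exact X.h.jleft _ _)
  calc X.e * (a * (b * q)) * X.e = X.e * a * b * (q * X.e) := by simp only [mul_assoc]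
    _ = X.e * a * b * ivl c X.e b * b * (q * X.e) := h1.symm
    _ = X.e * a * b * (X.e * ivl c X.e b * X.e) * b * (q * X.e) := by
        rw [e_ivl X.he, ivl_e X.he]
    _ = X.e * (a * b) * X.e * ivl c X.e b * (X.e * (b * q) * X.e) := by simp only [mul_assoc]

/-- the correction of a pair -/
noncomputable def C (X : Cx c M) (a b : M) : X.G := (X.emb a)⁻¹ * X.emb (a * b) * (X.emb b)⁻¹

theorem emb_mul_mul' {a b q : M} (ha : Jle X.e a) (hb : Jle X.e b) (hq : Jle X.e (b * q)) :
    X.emb (a * (b * q)) = X.emb a * X.C a b * X.emb (b * q) := by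
  rw [emb_mul_mul ha hb hq, C]
  group

/-- the pairs of adjacent letters -/
def prs {α : Type} (l : List α) : List (α × α) := l.zip l.tail

variable {N : ℕ} (θ : Fin N → M)

/-- the value of a list -/
noncomputable def ev (X : Cx c M) (θ : Fin N → M) (l : List (Fin N)) : X.G :=
  (l.map fun a => X.emb (θ a)).prod * ((prs l).map fun p => X.C (θ p.1) (θ p.2)).prod

end Cx

section

variable {c : ℕ} {M : Type} [Semigroup M] {N : ℕ}

theorem CR.lift_head (h : CR c M) (θ : Fin N → M) (w : Wd N) :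
    ∃ q, lift θ w = θ w.head * q := by
  induction w using FreeSemigroup.recOnMul with
  | ih1 x => exact ⟨pw (θ x) c, by rw [lift_of]; exact (h.mul_o _).symm⟩
  | ih2 x w _ _ => exact ⟨lift θ w, by rw [map_mul, lift_of]; rfl⟩

theorem CR.lift_last (h : CR c M) (θ : Fin N → M) (w : Wd N) :
    ∃ q, lift θ w = q * θ (wlast w) := by
  induction w using FreeSemigroup.recOnMul with
  | ih1 x => exact ⟨pw (θ x) c, by rw [lift_of, wlast_of]; exact (h _).symm⟩
  | ih2 x w _ ih =>
    obtain ⟨q, hq⟩ := ih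
    exact ⟨θ x * q, by rw [map_mul, lift_of, wlast_mul, hq, mul_assoc]⟩

theorem CR.jle_lift (h : CR c M) {s : M} (θ : Fin N → M) (w : Wd N)
    (hw : ∀ a ∈ lst w, Jle s (θ a)) : Jle s (lift θ w) := by
  induction w using FreeSemigroup.recOnMul with
  | ih1 x => rw [lift_of]; exact hw x (by rw [lst_of]; exact List.mem_singleton.2 rfl)
  | ih2 x w h1 h2 =>
    rw [map_mul]
    rw [lst_mul] at hw
    exact h.jinf (h1 fun a ha => hw a (List.mem_append_left _ ha))
      (h2 fun a ha => hw a (List.mem_append_right _ ha))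

theorem CR.lift_jle (h : CR c M) (θ : Fin N → M) (w : Wd N) {a : Fin N} (ha : a ∈ lst w) :
    Jle (lift θ w) (θ a) := by
  induction w using FreeSemigroup.recOnMul with
  | ih1 x =>
    rw [lst_of, List.mem_singleton] at ha
    rw [lift_of, ha]
    exact h.jrefl _
  | ih2 x w h1 h2 =>
    rw [map_mul]
    rw [lst_mul, List.mem_append] at ha
    rcases ha with ha | ha
    · exact (h1 ha).mul_right _
    · exact (h2 ha).mul_left _

namespace Cx

variable {X : Cx c M}

theorem emb_lift (θ : Fin N → M) (w : Wd N) (hw : ∀ a ∈ lst w, Jle X.e (θ a)) :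
    X.emb (lift θ w) = X.ev θ (lst w) := by
  induction w using FreeSemigroup.recOnMul with
  | ih1 x =>
    rw [lift_of, lst_of]
    simp [ev, prs]
  | ih2 x w _ ih =>
    have hx : Jle X.e (θ x) := hw x (by rw [lst_mul, lst_of]; simp)
    have hw' : ∀ a ∈ lst w, Jle X.e (θ a) := fun a ha =>
      hw a (by rw [lst_mul]; exact List.mem_append_right _ ha)
    have ih' := ih hw'
    obtain ⟨q, hq⟩ := X.h.lift_head θ w
    have hy : Jle X.e (θ w.head) := hw' _ (by
      obtain ⟨y, l⟩ := w
      exact List.mem_cons_self)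
    have hyq : Jle X.e (θ w.head * q) := hq ▸ X.h.jle_lift θ w hw'
    have e1 : X.ev θ (lst (of x * w)) = X.emb (θ x) * X.C (θ x) (θ w.head) * X.ev θ (lst w) := by
      obtain ⟨y, l⟩ := w
      change X.ev θ (x :: y :: l) = X.emb (θ x) * X.C (θ x) (θ y) * X.ev θ (y :: l)
      simp only [ev, prs, List.map_cons, List.prod_cons, List.tail_cons, List.zip_cons_cons]
      rw [mul_mul_mul_comm]
    rw [e1, ← ih', map_mul, lift_of, hq]
    exact emb_mul_mul' hx hy hyq

theorem prod_map_eq {G α : Type} [CommMonoid G] [Fintype α] [DecidableEq α] (f : α → G)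
    (l : List α) : (l.map f).prod = ∏ a, f a ^ l.count a := by
  rw [Finset.prod_list_map_count]
  refine Finset.prod_subset (Finset.subset_univ _) fun a _ ha => ?_
  rw [List.mem_toFinset] at ha
  rw [List.count_eq_zero_of_not_mem ha, pow_zero]

theorem ev_congr (θ : Fin N → M) {l l' : List (Fin N)}
    (h1 : ∀ a, X.emb (θ a) ^ l.count a = X.emb (θ a) ^ l'.count a)
    (h2 : ∀ p : Fin N × Fin N, X.C (θ p.1) (θ p.2) ^ (prs l).count p =
      X.C (θ p.1) (θ p.2) ^ (prs l').count p) : X.ev θ l = X.ev θ l' := by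
  unfold ev
  rw [prod_map_eq _ l, prod_map_eq _ l', prod_map_eq _ (prs l), prod_map_eq _ (prs l')]
  congr 1
  · exact Finset.prod_congr rfl fun a _ => h1 a
  · refine Finset.prod_congr rfl fun p _ => ?_
    convert h2 p

end Cx

/-! ### The tests -/

/-- the minor of `x` and `y` -/
def mnr (c : ℕ) (x y : M) : M := pw (x * y * x) c * pw (y * x * y) c * pw (x * y * x) c

/-- the words `u` and `v` agree as far as `M` sees it -/
structure Tests (c : ℕ) (M : Type) [Semigroup M] {N : ℕ} (u v : Wd N) : Prop where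
  ta : (∀ a, a ∈ lst u ↔ a ∈ lst v) ∨ ∀ x y : M, pw (x * y * x) c = pw x c
  tb : u.head = v.head ∨ ∀ x y : M, pw (x * y) c * pw (y * x) c = pw (y * x) c
  tc : wlast u = wlast v ∨ ∀ x y : M, pw (x * y) c * pw (y * x) c = pw (x * y) c
  td : ∀ a, ∀ x : M, pw x (c + (lst u).count a) = pw x (c + (lst v).count a)
  te : ∀ p : Fin N × Fin N, ∀ x y : M, pw (mnr c x y) (c + (Cx.prs (lst u)).count p) =
    pw (mnr c x y) (c + (Cx.prs (lst v)).count p)

namespace Cx

variable {X : Cx c M}

/-- corrections are inverses of minors -/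
theorem C_mnr {a b : M} (ha : Jle X.e a) (hb : Jle X.e b) :
    ∃ f, mnr c X.e f = ((X.C a b)⁻¹).1 := by
  obtain ⟨g, hg⟩ : ∃ g, g = ivl c X.e a * a := ⟨_, rfl⟩
  obtain ⟨k, hk⟩ : ∃ k, k = b * ivl c X.e b := ⟨_, rfl⟩
  have hgk : g * k = (X.C a b).1 := by
    rw [C, mul_val, mul_val, emb_inv_val ha, emb_inv_val hb, emb_val (X.h.jinf ha hb), hg, hk]
    calc ivl c X.e a * a * (b * ivl c X.e b)
        = ivl c X.e a * X.e * a * (b * (X.e * ivl c X.e b)) := by
          rw [ivl_e X.he, e_ivl X.he]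
      _ = _ := by simp only [mul_assoc]
  have hge : g * X.e = X.e := by
    rw [hg]
    calc ivl c X.e a * a * X.e = ivl c X.e a * X.e * a * X.e := by rw [ivl_e X.he]
      _ = ivl c X.e a * (X.e * a * X.e) := by simp only [mul_assoc]
      _ = X.e := ivl_mul X.h X.he ha
  have hek : X.e * k = X.e := by
    rw [hk]
    calc X.e * (b * ivl c X.e b) = X.e * b * (X.e * ivl c X.e b) := by
          rw [e_ivl X.he, mul_assoc]
      _ = X.e * b * X.e * ivl c X.e b := by simp only [mul_assoc]
      _ = X.e := mul_ivl X.h X.he hb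
  obtain ⟨D, hD⟩ : ∃ D : X.G, D = (X.C a b)⁻¹ := ⟨_, rfl⟩
  have hDCD : D.1 * (g * k) * D.1 = D.1 := by
    rw [hgk, ← mul_val, ← mul_val, hD]
    congr 1
    group
  obtain ⟨f, hf⟩ : ∃ f, f = k * D.1 * g := ⟨_, rfl⟩
  have hff : f * f = f := by
    rw [hf]
    calc k * D.1 * g * (k * D.1 * g) = k * (D.1 * (g * k) * D.1) * g := by
          simp only [mul_assoc]
      _ = k * D.1 * g := by rw [hDCD]
  have hefe : X.e * f * X.e = D.1 := by
    rw [hf]
    calc X.e * (k * D.1 * g) * X.e = X.e * k * D.1 * (g * X.e) := by simp only [mul_assoc]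
      _ = D.1 := by rw [hek, hge, D.2.1, D.2.2.1]
  have hfe : Jle f X.e := by
    rw [hf]
    have : Jle D.1 X.e := by
      have := X.h.jright X.e D.1
      rwa [D.2.1] at this
    exact (this.mul_left k).mul_right g
  refine ⟨f, ?_⟩
  rw [← hD]
  unfold mnr
  have h1 : pw (X.e * f * X.e) c = X.e := by
    rw [hefe]
    exact pw_c D
  have h2 : pw (f * X.e * f) c = f := X.h.loc_o hff hfe
  rw [h1, h2, hefe]

end Cx

theorem jle_of_ta (h : CR c M) (ht : ∀ x y : M, pw (x * y * x) c = pw x c) (x y : M) :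
    Jle x y := by
  have h1 : Jle x (pw (x * y * x) c) := by
    rw [ht]
    exact h.jo x
  refine h1.trans ((h.pw_jle _ _).trans ?_)
  exact ⟨x, x, rfl⟩

theorem sat_of_tests (h : CR c M) (hl : LC c M) {u v : Wd N} (T : Tests c M u v) :
    Sat M u v := by
  intro θ
  let X : Cx c M := ⟨h, hl, pw (lift θ u) c, h.idem _⟩
  have hu : ∀ a ∈ lst u, Jle X.e (θ a) := fun a ha => (h.pw_jle _ _).trans (h.lift_jle θ u ha)
  have hv : ∀ a ∈ lst v, Jle X.e (θ a) := by
    intro a ha
    rcases T.ta with ht | ht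
    · exact hu a ((ht a).2 ha)
    · exact jle_of_ta h ht _ _
  have hue : Jle (lift θ u) X.e := h.jo _
  have hve : Jle (lift θ v) X.e := by
    rcases T.ta with ht | ht
    · exact (h.jle_lift θ u fun a ha => h.lift_jle θ v ((ht a).1 ha)).trans hue
    · exact jle_of_ta h ht _ _
  have hall : ∀ a, (a ∈ lst u ∨ a ∈ lst v) → Jle X.e (θ a) := by
    rintro a (ha | ha)
    · exact hu a ha
    · exact hv a ha
  have hev : X.ev θ (lst u) = X.ev θ (lst v) := by
    refine Cx.ev_congr θ (fun a => ?_) (fun p => ?_)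
    · exact (Cx.pw_eq_iff _ _ _).1 (T.td a _)
    · by_cases hp : p ∈ Cx.prs (lst u) ∨ p ∈ Cx.prs (lst v)
      · have hp1 : Jle X.e (θ p.1) ∧ Jle X.e (θ p.2) := by
          have key : ∀ l : List (Fin N), p ∈ Cx.prs l → p.1 ∈ l ∧ p.2 ∈ l := by
            intro l hl
            obtain ⟨x, y⟩ := p
            have := List.of_mem_zip hl
            exact ⟨this.1, List.mem_of_mem_tail this.2⟩
          rcases hp with hp | hp
          · exact ⟨hu _ (key _ hp).1, hu _ (key _ hp).2⟩
          · exact ⟨hv _ (key _ hp).1, hv _ (key _ hp).2⟩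
        obtain ⟨f, hf⟩ := Cx.C_mnr hp1.1 hp1.2
        have h1 := T.te p X.e f
        rw [hf, Cx.pw_eq_iff, inv_pow, inv_pow, inv_inj] at h1
        exact h1
      · push Not at hp
        rw [List.count_eq_zero_of_not_mem hp.1, List.count_eq_zero_of_not_mem hp.2]
  rw [← Cx.emb_lift θ u hu, ← Cx.emb_lift θ v hv] at hev
  have hval := congrArg Subtype.val hev
  rw [Cx.emb_val (h.jle_lift θ u hu), Cx.emb_val (h.jle_lift θ v hv)] at hval
  -- recover the words
  have hL : ∀ w : Wd N, (∀ a ∈ lst w, Jle X.e (θ a)) → Jle (lift θ w) X.e →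
      lift θ w = θ w.head * ivl c X.e (θ w.head) * lift θ w := by
    intro w hw hwe
    obtain ⟨q, hq⟩ := h.lift_head θ w
    have hy : Jle X.e (θ w.head) := hw _ (by
      obtain ⟨y, l⟩ := w
      exact List.mem_cons_self)
    have h1 := sw h hl (e := X.e) (b := θ w.head) (p := pw (θ w.head) c) (q := q) X.he hy (by
      rw [h, ← hq]
      exact hwe)
    rw [h] at h1
    rw [hq, ← mul_assoc]
    exact h1.symm
  have hR : ∀ w : Wd N, (∀ a ∈ lst w, Jle X.e (θ a)) → Jle (lift θ w) X.e →
      lift θ w = lift θ w * (ivl c X.e (θ (wlast w)) * θ (wlast w)) := by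
    intro w hw hwe
    obtain ⟨q, hq⟩ := h.lift_last θ w
    have hy : Jle X.e (θ (wlast w)) := hw _ (List.getLast_mem _)
    have h1 := sw h hl (e := X.e) (b := θ (wlast w)) (p := q) (q := pw (θ (wlast w)) c) X.he hy (by
      rw [mul_assoc, h.mul_o, ← hq]
      exact hwe)
    rw [mul_assoc q (θ (wlast w)) (pw (θ (wlast w)) c), h.mul_o, mul_assoc _ (θ (wlast w))
      (pw (θ (wlast w)) c), h.mul_o] at h1
    rw [hq, ← mul_assoc]
    exact h1.symm
  have hform : ∀ w : Wd N, (∀ a ∈ lst w, Jle X.e (θ a)) → Jle (lift θ w) X.e →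
      lift θ w = θ w.head * ivl c X.e (θ w.head) * (X.e * lift θ w * X.e) *
        (ivl c X.e (θ (wlast w)) * θ (wlast w)) := by
    intro w hw hwe
    calc lift θ w = θ w.head * ivl c X.e (θ w.head) * lift θ w := hL w hw hwe
      _ = θ w.head * ivl c X.e (θ w.head) *
          (lift θ w * (ivl c X.e (θ (wlast w)) * θ (wlast w))) := by rw [← hR w hw hwe]
      _ = θ w.head * (ivl c X.e (θ w.head) * X.e) *
          (lift θ w * (X.e * ivl c X.e (θ (wlast w)) * θ (wlast w))) := by
          rw [ivl_e X.he, e_ivl X.he]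
      _ = _ := by simp only [mul_assoc]
  have hhead : ∀ w : Wd N, w.head ∈ lst w := by
    intro w
    obtain ⟨y, l⟩ := w
    exact List.mem_cons_self
  have hk1 : ∀ y, θ y * ivl c X.e (θ y) * X.e = θ y * ivl c X.e (θ y) := fun y => by
    rw [mul_assoc, ivl_e X.he]
  have hk2 : ∀ y, Jle X.e (θ y) → X.e * (θ y * ivl c X.e (θ y)) = X.e := by
    intro y hy
    calc X.e * (θ y * ivl c X.e (θ y)) = X.e * θ y * (X.e * ivl c X.e (θ y)) := by
          rw [e_ivl X.he, mul_assoc]
      _ = X.e * θ y * X.e * ivl c X.e (θ y) := by simp only [mul_assoc]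
      _ = X.e := mul_ivl X.h X.he hy
  have hk3 : ∀ y, X.e * (ivl c X.e (θ y) * θ y) = ivl c X.e (θ y) * θ y := fun y => by
    rw [← mul_assoc, e_ivl X.he]
  have hk4 : ∀ y, Jle X.e (θ y) → ivl c X.e (θ y) * θ y * X.e = X.e := by
    intro y hy
    calc ivl c X.e (θ y) * θ y * X.e = ivl c X.e (θ y) * X.e * θ y * X.e := by
          rw [ivl_e X.he]
      _ = ivl c X.e (θ y) * (X.e * θ y * X.e) := by simp only [mul_assoc]
      _ = X.e := ivl_mul X.h X.he hy
  have hkl : θ u.head * ivl c X.e (θ u.head) = θ v.head * ivl c X.e (θ v.head) := by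
    rcases T.tb with ht | ht
    · rw [ht]
    · have h1 := hk1 u.head
      have h2 := hk2 v.head (hv _ (hhead v))
      have h3 := hk1 v.head
      have h4 := hk2 u.head (hu _ (hhead u))
      have h5 := ht (θ u.head * ivl c X.e (θ u.head)) (θ v.head * ivl c X.e (θ v.head))
      generalize θ u.head * ivl c X.e (θ u.head) = a at *
      generalize θ v.head * ivl c X.e (θ v.head) = b at *
      have hab : a * b = a := by
        calc a * b = a * X.e * b := by rw [h1]
          _ = a * (X.e * b) := mul_assoc _ _ _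
          _ = a := by rw [h2, h1]
      have hba : b * a = b := by
        calc b * a = b * X.e * a := by rw [h3]
          _ = b * (X.e * a) := mul_assoc _ _ _
          _ = b := by rw [h4, h3]
      have haa : a * a = a := by
        calc a * a = a * b * a := by rw [hab]
          _ = a * (b * a) := mul_assoc _ _ _
          _ = a := by rw [hba, hab]
      have hbb : b * b = b := by
        calc b * b = b * a * b := by rw [hba]
          _ = b * (a * b) := mul_assoc _ _ _
          _ = b := by rw [hab, hba]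
      rw [hab, hba, pw_idem haa, pw_idem hbb, hab] at h5
      exact h5
  have hkr : ivl c X.e (θ (wlast u)) * θ (wlast u) = ivl c X.e (θ (wlast v)) * θ (wlast v) := by
    rcases T.tc with ht | ht
    · rw [ht]
    · have h1 := hk3 (wlast u)
      have h2 := hk4 (wlast v) (hv _ (List.getLast_mem _))
      have h3 := hk3 (wlast v)
      have h4 := hk4 (wlast u) (hu _ (List.getLast_mem _))
      have h5 := ht (ivl c X.e (θ (wlast u)) * θ (wlast u)) (ivl c X.e (θ (wlast v)) * θ (wlast v))
      generalize ivl c X.e (θ (wlast u)) * θ (wlast u) = a at *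
      generalize ivl c X.e (θ (wlast v)) * θ (wlast v) = b at *
      have hab : a * b = b := by
        calc a * b = a * (X.e * b) := by rw [h3]
          _ = a * X.e * b := (mul_assoc _ _ _).symm
          _ = b := by rw [h4, h3]
      have hba : b * a = a := by
        calc b * a = b * (X.e * a) := by rw [h1]
          _ = b * X.e * a := (mul_assoc _ _ _).symm
          _ = a := by rw [h2, h1]
      have haa : a * a = a := by
        calc a * a = a * (b * a) := by rw [hba]
          _ = a * b * a := (mul_assoc _ _ _).symm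
          _ = a := by rw [hab, hba]
      have hbb : b * b = b := by
        calc b * b = b * (a * b) := by rw [hab]
          _ = b * a * b := (mul_assoc _ _ _).symm
          _ = b := by rw [hba, hab]
      rw [hab, hba, pw_idem haa, pw_idem hbb, hba] at h5
      exact h5
  rw [hform u hu hue, hform v hv hve, hval, hkl, hkr]

end

end Pool.Agent.Lib.MP_88bd66_lcP
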