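import Pool.Agent.Lib.MP_88bd66_lc.Final

/-!
For a fixed finite semigroup `B`, it is primitive recursive in the table of a finite semigroup `M`
whether `B` satisfies all identities of `M`.
-/

set_option autoImplicit false

namespace Pool.Agent.Lib.MP_88bd66_lcP

open FreeSemigroup Pool.Agent.Lib.MP_88bd66_lc

/-- all lists of length `k` over `0, …, m - 1` -/
def wds (m : ℕ) : ℕ → List (List ℕ)
  | 0 => [[]]
  | k + 1 => (wds m k).flatMap fun w => (List.range m).map fun a => a :: w

/-- all lists of length at most `k` over `0, …, m - 1` -/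
def wle (m : ℕ) : ℕ → List (List ℕ)
  | 0 => [[]]
  | k + 1 => [] :: (wle m k).flatMap fun w => (List.range m).map fun a => a :: w

theorem mem_wds {m k : ℕ} {l : List ℕ} : l ∈ wds m k ↔ l.length = k ∧ ∀ a ∈ l, a < m := by
  induction k generalizing l with
  | zero =>
    simp only [wds, List.mem_singleton, List.length_eq_zero_iff]
    constructor
    · rintro rfl
      simp
    · exact fun h => h.1
  | succ k ih =>
    simp only [wds, List.mem_flatMap, List.mem_map, List.mem_range]
    constructor
    · rintro ⟨w, hw, a, ha, rfl⟩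
      rw [ih] at hw
      refine ⟨by simp [hw.1], fun b hb => ?_⟩
      rw [List.mem_cons] at hb
      rcases hb with rfl | hb
      · exact ha
      · exact hw.2 b hb
    · rintro ⟨h1, h2⟩
      cases l with
      | nil => simp at h1
      | cons a w =>
        refine ⟨w, ih.2 ⟨by simpa using h1, fun b hb => h2 b (List.mem_cons_of_mem _ hb)⟩, a,
          h2 a List.mem_cons_self, rfl⟩

theorem mem_wle {m k : ℕ} {l : List ℕ} : l ∈ wle m k ↔ l.length ≤ k ∧ ∀ a ∈ l, a < m := by
  induction k generalizing l with
  | zero =>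
    simp only [wle, List.mem_singleton, Nat.le_zero, List.length_eq_zero_iff]
    constructor
    · rintro rfl
      simp
    · exact fun h => h.1
  | succ k ih =>
    simp only [wle, List.mem_cons, List.mem_flatMap, List.mem_map, List.mem_range]
    constructor
    · rintro (rfl | ⟨w, hw, a, ha, rfl⟩)
      · simp
      · rw [ih] at hw
        refine ⟨by simpa using hw.1, fun b hb => ?_⟩
        rw [List.mem_cons] at hb
        rcases hb with rfl | hb
        · exact ha
        · exact hw.2 b hb
    · rintro ⟨h1, h2⟩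
      cases l with
      | nil => exact Or.inl rfl
      | cons a w =>
        refine Or.inr ⟨w, ih.2 ⟨by simpa using h1, fun b hb => h2 b (List.mem_cons_of_mem _ hb)⟩, a,
          h2 a List.mem_cons_self, rfl⟩

theorem length_wds (m k : ℕ) : (wds m k).length = m ^ k := by
  induction k with
  | zero => rfl
  | succ k ih =>
    simp only [wds, List.length_flatMap, List.length_map, List.length_range, List.map_const',
      List.sum_replicate, ih, smul_eq_mul, pow_succ]

theorem primrec_wds : Primrec₂ wds := by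
  have hcons : Primrec₂ fun (q : (ℕ × (ℕ × List (List ℕ))) × List ℕ) (a : ℕ) => a :: q.2 :=
    Primrec.list_cons.comp Primrec.snd (Primrec.snd.comp Primrec.fst)
  have hmap : Primrec₂ fun (p : ℕ × (ℕ × List (List ℕ))) (w : List ℕ) =>
      (List.range p.1).map fun a => a :: w :=
    Primrec.list_map (f := fun q : (ℕ × (ℕ × List (List ℕ))) × List ℕ => List.range q.1.1)
      (g := fun q a => a :: q.2)
      (Primrec.list_range.comp (Primrec.fst.comp Primrec.fst)) hcons
  have hg : Primrec₂ fun (m : ℕ) (p : ℕ × List (List ℕ)) =>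
      p.2.flatMap fun w => (List.range m).map fun a => a :: w :=
    Primrec.list_flatMap (f := fun q : ℕ × (ℕ × List (List ℕ)) => q.2.2)
      (g := fun q w => (List.range q.1).map fun a => a :: w)
      (Primrec.snd.comp Primrec.snd) hmap
  refine (Primrec.nat_rec (f := fun _ : ℕ => ([[]] : List (List ℕ)))
    (g := fun m p => p.2.flatMap fun w => (List.range m).map fun a => a :: w)
    (Primrec.const _) hg).of_eq fun m k => ?_
  induction k with
  | zero => rfl
  | succ k ih => rw [wds, ← ih]

theorem primrec_wle : Primrec₂ wle := by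
  have hcons : Primrec₂ fun (q : (ℕ × (ℕ × List (List ℕ))) × List ℕ) (a : ℕ) => a :: q.2 :=
    Primrec.list_cons.comp Primrec.snd (Primrec.snd.comp Primrec.fst)
  have hmap : Primrec₂ fun (p : ℕ × (ℕ × List (List ℕ))) (w : List ℕ) =>
      (List.range p.1).map fun a => a :: w :=
    Primrec.list_map (f := fun q : (ℕ × (ℕ × List (List ℕ))) × List ℕ => List.range q.1.1)
      (g := fun q a => a :: q.2)
      (Primrec.list_range.comp (Primrec.fst.comp Primrec.fst)) hcons
  have hg' : Primrec fun q : ℕ × (ℕ × List (List ℕ)) =>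
      q.2.2.flatMap fun w => (List.range q.1).map fun a => a :: w :=
    Primrec.list_flatMap (f := fun q : ℕ × (ℕ × List (List ℕ)) => q.2.2)
      (g := fun q w => (List.range q.1).map fun a => a :: w)
      (Primrec.snd.comp Primrec.snd) hmap
  have hg : Primrec₂ fun (m : ℕ) (p : ℕ × List (List ℕ)) =>
      ([] : List ℕ) :: p.2.flatMap fun w => (List.range m).map fun a => a :: w :=
    Primrec.list_cons.comp (Primrec.const _) hg'
  refine (Primrec.nat_rec (f := fun _ : ℕ => ([[]] : List (List ℕ)))
    (g := fun m p => [] :: p.2.flatMap fun w => (List.range m).map fun a => a :: w)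
    (Primrec.const _) hg).of_eq fun m k => ?_
  induction k with
  | zero => rfl
  | succ k ih => rw [wle, ← ih]

/-- evaluation of the word `x l` in a table -/
def evl (T : Tb) (θ : List ℕ) (x : ℕ) (l : List ℕ) : ℕ :=
  l.foldl (fun acc y => look T acc (θ.getD y 0)) (θ.getD x 0)

theorem primrec_look : Primrec fun p : Tb × ℕ × ℕ => look p.1 p.2.1 p.2.2 := by
  unfold look
  exact (Primrec.list_getD 0).comp ((Primrec.list_getD []).comp Primrec.fst
    (Primrec.fst.comp Primrec.snd)) (Primrec.snd.comp Primrec.snd)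

theorem primrec_evl :
    Primrec fun p : Tb × List ℕ × ℕ × List ℕ => evl p.1 p.2.1 p.2.2.1 p.2.2.2 := by
  unfold evl
  refine Primrec.list_foldl (f := fun p : Tb × List ℕ × ℕ × List ℕ => p.2.2.2)
    (g := fun p => p.2.1.getD p.2.2.1 0) (h := fun p q => look p.1 q.1 (p.2.1.getD q.2 0))
    (Primrec.snd.comp (Primrec.snd.comp Primrec.snd)) ?_ ?_
  · exact (Primrec.list_getD 0).comp (Primrec.fst.comp Primrec.snd)
      (Primrec.fst.comp (Primrec.snd.comp Primrec.snd))
  · exact primrec_look.comp (Primrec.pair (Primrec.fst.comp Primrec.fst)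
      (Primrec.pair (Primrec.fst.comp Primrec.snd)
        ((Primrec.list_getD 0).comp (Primrec.fst.comp (Primrec.snd.comp Primrec.fst))
          (Primrec.snd.comp Primrec.snd))))

/-- the identity `x l = x' l'` in `n` letters holds in the table -/
def SatL (n : ℕ) (T : Tb) (x : ℕ) (l : List ℕ) (x' : ℕ) (l' : List ℕ) : Prop :=
  ∀ θ ∈ wds T.length n, evl T θ x l = evl T θ x' l'

theorem primrec_satL (n : ℕ) : PrimrecPred fun p : Tb × ℕ × List ℕ × ℕ × List ℕ =>
    SatL n p.1 p.2.1 p.2.2.1 p.2.2.2.1 p.2.2.2.2 := by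
  have h1 : PrimrecRel fun (θ : List ℕ) (p : Tb × ℕ × List ℕ × ℕ × List ℕ) =>
      evl p.1 θ p.2.1 p.2.2.1 = evl p.1 θ p.2.2.2.1 p.2.2.2.2 := by
    refine Primrec.eq.comp
      (primrec_evl.comp (Primrec.pair (Primrec.fst.comp Primrec.snd) (Primrec.pair Primrec.fst
        (Primrec.pair (Primrec.fst.comp (Primrec.snd.comp Primrec.snd))
          (Primrec.fst.comp (Primrec.snd.comp (Primrec.snd.comp Primrec.snd)))))))
      (primrec_evl.comp (Primrec.pair (Primrec.fst.comp Primrec.snd) (Primrec.pair Primrec.fst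
        (Primrec.pair
          (Primrec.fst.comp (Primrec.snd.comp (Primrec.snd.comp (Primrec.snd.comp Primrec.snd))))
          (Primrec.snd.comp (Primrec.snd.comp (Primrec.snd.comp (Primrec.snd.comp
            Primrec.snd))))))))
  exact h1.forall_mem_list.comp (primrec_wds.comp (Primrec.list_length.comp Primrec.fst)
    (Primrec.const n)) Primrec.id

/-- a bound for the length of words -/
def Lb (n : ℕ) (T : Tb) : ℕ := (wds T.length (wds T.length n).length).length * n

theorem primrec_Lb (n : ℕ) : Primrec (Lb n) := by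
  unfold Lb
  exact Primrec.nat_mul.comp (Primrec.list_length.comp (primrec_wds.comp Primrec.list_length
    (Primrec.list_length.comp (primrec_wds.comp Primrec.list_length (Primrec.const n)))))
      (Primrec.const n)

/-- every short identity in `n` letters of `T` holds in `TB` for the identical assignment -/
def Good (n : ℕ) (TB T : Tb) : Prop :=
  ∀ w ∈ wle n (Lb n T), ∀ w' ∈ wle n (Lb n T), ∀ x ∈ List.range n, ∀ x' ∈ List.range n,
    (SatL n T x w x' w' → evl TB (List.range n) x w = evl TB (List.range n) x' w')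

theorem primrec_good (n : ℕ) (TB : Tb) : PrimrecPred (Good n TB) := by
  have h0 : PrimrecRel fun (x' : ℕ) (q : ℕ × List ℕ × List ℕ × Tb) =>
      (SatL n q.2.2.2 q.1 q.2.2.1 x' q.2.1 →
        evl TB (List.range n) q.1 q.2.2.1 = evl TB (List.range n) x' q.2.1) := by
    have ha : PrimrecPred fun p : ℕ × ℕ × List ℕ × List ℕ × Tb =>
        SatL n p.2.2.2.2 p.2.1 p.2.2.2.1 p.1 p.2.2.1 :=
      (primrec_satL n).comp (Primrec.pair
        (Primrec.snd.comp (Primrec.snd.comp (Primrec.snd.comp Primrec.snd)))
        (Primrec.pair (Primrec.fst.comp Primrec.snd)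
          (Primrec.pair (Primrec.fst.comp (Primrec.snd.comp (Primrec.snd.comp Primrec.snd)))
            (Primrec.pair Primrec.fst (Primrec.fst.comp (Primrec.snd.comp Primrec.snd))))))
    have hb : PrimrecPred fun p : ℕ × ℕ × List ℕ × List ℕ × Tb =>
        evl TB (List.range n) p.2.1 p.2.2.2.1 = evl TB (List.range n) p.1 p.2.2.1 := by
      refine Primrec.eq.comp
        (primrec_evl.comp (Primrec.pair (Primrec.const TB) (Primrec.pair (Primrec.const _)
          (Primrec.pair (Primrec.fst.comp Primrec.snd)
            (Primrec.fst.comp (Primrec.snd.comp (Primrec.snd.comp Primrec.snd)))))))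
        (primrec_evl.comp (Primrec.pair (Primrec.const TB) (Primrec.pair (Primrec.const _)
          (Primrec.pair Primrec.fst (Primrec.fst.comp (Primrec.snd.comp Primrec.snd))))))
    exact (ha.not.or hb).of_eq fun p => (imp_iff_not_or).symm
  have h1 : PrimrecRel fun (x : ℕ) (q : List ℕ × List ℕ × Tb) => ∀ x' ∈ List.range n,
      (SatL n q.2.2 x q.2.1 x' q.1 →
        evl TB (List.range n) x q.2.1 = evl TB (List.range n) x' q.1) := by
    exact h0.forall_mem_list.comp (Primrec.const (List.range n)) (Primrec.pair Primrec.fst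
      Primrec.snd)
  have h2 : PrimrecRel fun (w' : List ℕ) (q : List ℕ × Tb) => ∀ x ∈ List.range n,
      ∀ x' ∈ List.range n, (SatL n q.2 x q.1 x' w' →
        evl TB (List.range n) x q.1 = evl TB (List.range n) x' w') := by
    exact h1.forall_mem_list.comp (Primrec.const (List.range n)) (Primrec.pair Primrec.fst
      Primrec.snd)
  have hL : Primrec fun T : Tb => wle n (Lb n T) :=
    primrec_wle.comp (Primrec.const n) (primrec_Lb n)
  have h3 : PrimrecRel fun (w : List ℕ) (T : Tb) => ∀ w' ∈ wle n (Lb n T), ∀ x ∈ List.range n,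
      ∀ x' ∈ List.range n, (SatL n T x w x' w' →
        evl TB (List.range n) x w = evl TB (List.range n) x' w') := by
    exact h2.forall_mem_list.comp (hL.comp Primrec.snd) (Primrec.pair Primrec.fst Primrec.snd)
  exact h3.forall_mem_list.comp hL Primrec.id

/-! ### Correctness -/

/-- pumping -/
theorem exists_short {P α : Type} [Finite P] (f : P → α → P) (a₀ : P) (l : List α) :
    ∃ l' : List α, l'.foldl f a₀ = l.foldl f a₀ ∧ l'.length ≤ Nat.card P ∧ ∀ a ∈ l', a ∈ l := by
  classical
  have : Fintype P := Fintype.ofFinite P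
  induction hn : l.length using Nat.strong_induction_on generalizing l with
  | _ n ih =>
    by_cases h : l.length ≤ Nat.card P
    · exact ⟨l, rfl, h, fun a ha => ha⟩
    · rw [Nat.card_eq_fintype_card] at h
      let M : DFA α P := ⟨f, a₀, ∅⟩
      obtain ⟨q, a, b, c, h1, _, h3, h4, h5, h6⟩ :=
        M.evalFrom_split (s := a₀) (t := l.foldl f a₀) (x := l) (by omega) rfl
      have hlen : (a ++ c).length < n := by
        rw [← hn, h1]
        have : 0 < b.length := List.length_pos_iff.2 h3
        simp only [List.length_append]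
        omega
      obtain ⟨l', h7, h8, h9⟩ := ih _ hlen (a ++ c) rfl
      refine ⟨l', ?_, h8, fun x hx => ?_⟩
      · rw [h7, List.foldl_append]
        have h4' : a.foldl f a₀ = q := h4
        have h6' : c.foldl f q = l.foldl f a₀ := h6
        rw [h4', h6']
      · have := h9 x hx
        rw [h1]
        simp only [List.mem_append] at this ⊢
        tauto

theorem evl_table {n m : ℕ} (s : Semigroup (Fin m)) (θ : Fin n → Fin m) (x : Fin n)
    (l : List (Fin n)) :
    evl (table s) (List.ofFn fun i => (θ i : ℕ)) x (l.map Fin.val) =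
      (@lift (Fin n) (Fin m) s θ ⟨x, l⟩ : Fin m).val := by
  have hg : ∀ y : Fin n, (List.ofFn fun i => (θ i : ℕ)).getD y 0 = (θ y : ℕ) := by
    intro y
    rw [List.getD_eq_getElem _ _ (by simp)]
    simp
  unfold evl
  rw [@lift_mk_eq_foldl (Fin n) (Fin m) s, hg, List.foldl_map]
  have key : ∀ (l : List (Fin n)) (a : Fin m),
      l.foldl (fun acc (y : Fin n) => look (table s) acc
        ((List.ofFn fun i => (θ i : ℕ)).getD y 0)) (a : ℕ) =
        ((l.foldl (fun a y => s.mul a (θ y)) a : Fin m) : ℕ) := by
    intro l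
    induction l with
    | nil => intro a; rfl
    | cons y l ih =>
      intro a
      rw [List.foldl_cons, List.foldl_cons, ← ih, hg]
      congr 1
      exact look_table s a (θ y)
  exact key l (θ x)

theorem mem_wds_ofFn {n m : ℕ} {l : List ℕ} :
    l ∈ wds m n ↔ ∃ θ : Fin n → Fin m, l = List.ofFn fun i => (θ i : ℕ) := by
  rw [mem_wds]
  constructor
  · rintro ⟨rfl, h⟩
    exact ⟨fun i => ⟨l.get i, h _ (List.get_mem _ _)⟩, by simp⟩
  · rintro ⟨θ, rfl⟩
    refine ⟨by simp, fun a ha => ?_⟩
    rw [List.mem_ofFn] at ha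
    obtain ⟨i, rfl⟩ := ha
    exact (θ i).2

theorem satL_iff {n m : ℕ} (s : Semigroup (Fin m)) (x x' : Fin n) (l l' : List (Fin n)) :
    SatL n (table s) x (l.map Fin.val) x' (l'.map Fin.val) ↔
      @Sat (Fin m) s n ⟨x, l⟩ ⟨x', l'⟩ := by
  unfold SatL
  rw [table_length]
  constructor
  · intro h θ
    have := h _ (mem_wds_ofFn.2 ⟨θ, rfl⟩)
    rw [evl_table, evl_table] at this
    exact Fin.ext this
  · intro h θ hθ
    obtain ⟨θ, rfl⟩ := mem_wds_ofFn.1 hθ
    rw [evl_table, evl_table]
    exact congrArg Fin.val (h θ)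

theorem exists_map_val {n : ℕ} {l : List ℕ} (h : ∀ a ∈ l, a < n) :
    ∃ l' : List (Fin n), l = l'.map Fin.val := by
  refine ⟨l.attach.map fun a => ⟨a.1, h a.1 a.2⟩, ?_⟩
  simp [List.map_map, Function.comp_def]

theorem good_iff {n m : ℕ} (s : Semigroup (Fin m)) (sB : Semigroup (Fin n)) :
    Good n (table sB) (table s) ↔ @IdLe (Fin m) (Fin n) s sB := by
  have hid : (List.range n) = List.ofFn fun i : Fin n => ((id i : Fin n) : ℕ) := by
    apply List.ext_getElem <;> simp
  constructor
  · intro h N u₀ v₀ h₀ θ₀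
    have hu := @lift_map (Fin n) sB N n θ₀ id u₀
    have hv := @lift_map (Fin n) sB N n θ₀ id v₀
    have hs := @sat_map (Fin m) s N n θ₀ u₀ v₀ h₀
    simp only [id_eq] at hu hv
    rw [← hu, ← hv]
    generalize FreeSemigroup.map θ₀ u₀ = u at hs ⊢
    generalize FreeSemigroup.map θ₀ v₀ = v at hs ⊢
    obtain ⟨x, l⟩ := u
    obtain ⟨x', l'⟩ := v
    let P : Type := ((Fin n → Fin m) → Fin m) × Fin n
    let f : P → Fin n → P := fun p y => (fun θ => s.mul (p.1 θ) (θ y), sB.mul p.2 y)
    have hcard : Nat.card P = Lb n (table s) := by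
      unfold Lb
      rw [table_length, length_wds, length_wds]
      simp [P, Nat.card_eq_fintype_card]
    have hval : ∀ (x : Fin n) (l : List (Fin n)), l.foldl f (fun θ => θ x, x) =
        ((fun θ => @lift (Fin n) (Fin m) s θ ⟨x, l⟩), @lift (Fin n) (Fin n) sB id ⟨x, l⟩) := by
      intro x l
      have key : ∀ (l : List (Fin n)) (p : P), l.foldl f p =
          ((fun θ => l.foldl (fun a y => s.mul a (θ y)) (p.1 θ)),
            l.foldl (fun a y => sB.mul a y) p.2) := by
        intro l
        induction l with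
        | nil => intro p; rfl
        | cons y l ih => intro p; rw [List.foldl_cons, ih]; rfl
      rw [key]
      refine Prod.ext ?_ ?_
      · funext θ
        exact (@lift_mk_eq_foldl (Fin n) (Fin m) s θ x l).symm
      · exact (@lift_mk_eq_foldl (Fin n) (Fin n) sB id x l).symm
    obtain ⟨l₁, h1, h2, -⟩ := exists_short f (fun θ => θ x, x) l
    obtain ⟨l₁', h1', h2', -⟩ := exists_short f (fun θ => θ x', x') l'
    rw [hval, hval] at h1 h1'
    rw [hcard] at h2 h2'
    have e1 := (Prod.ext_iff.1 h1).1
    have e2 := (Prod.ext_iff.1 h1).2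
    have e1' := (Prod.ext_iff.1 h1').1
    have e2' := (Prod.ext_iff.1 h1').2
    simp only at e1 e2 e1' e2'
    have hsat : @Sat (Fin m) s n ⟨x, l₁⟩ ⟨x', l₁'⟩ := by
      intro θ
      rw [congrFun e1 θ, congrFun e1' θ]
      exact hs θ
    have hmem : ∀ (l : List (Fin n)), l.length ≤ Lb n (table s) →
        l.map Fin.val ∈ wle n (Lb n (table s)) := by
      intro l hl
      rw [mem_wle]
      refine ⟨by simpa using hl, fun a ha => ?_⟩
      rw [List.mem_map] at ha
      obtain ⟨b, _, rfl⟩ := ha
      exact b.2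
    have := h _ (hmem l₁ h2) _ (hmem l₁' h2') x (List.mem_range.2 x.2) x' (List.mem_range.2 x'.2)
      ((satL_iff s x x' l₁ l₁').2 hsat)
    rw [hid, evl_table, evl_table] at this
    have e := Fin.ext this
    rw [e2, e2'] at e
    exact e
  · intro h w hw w' hw' x hx x' hx' hsat
    rw [List.mem_range] at hx hx'
    obtain ⟨l, rfl⟩ := exists_map_val (mem_wle.1 hw).2
    obtain ⟨l', rfl⟩ := exists_map_val (mem_wle.1 hw').2
    have h1 := (satL_iff s ⟨x, hx⟩ ⟨x', hx'⟩ l l').1 hsat
    have h2 := h n _ _ h1 id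
    have h3 := evl_table sB id ⟨x, hx⟩ l
    have h4 := evl_table sB id ⟨x', hx'⟩ l'
    rw [hid]
    exact h3.trans ((congrArg Fin.val h2).trans h4.symm)

end Pool.Agent.Lib.MP_88bd66_lcP
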