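import Mathlib

/-!
Lower sets of `ℕ ^ ι`, `ι` finite, are well quasi-ordered by inclusion.
-/

set_option autoImplicit false

namespace Pool.Agent.Lib.MP_88bd66_lcP

/-- Every lower set is a finite union of boxes. -/
theorem exists_boxes {ι : Type} [Finite ι] (D : Set (ι → ℕ)) (hD : IsLowerSet D) :
    ∃ L : List (ι → ℕ∞), ∀ x : ι → ℕ, x ∈ D ↔ ∃ b ∈ L, ∀ i, (x i : ℕ∞) ≤ b i := by
  classical
  have : Fintype ι := Fintype.ofFinite ι
  let A : Set (ι → ℕ) := {x | Minimal (· ∉ D) x}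
  have hA : A.Finite := by
    refine WellQuasiOrderedLE.finite_of_isAntichain fun x hx y hy hxy hle => hxy ?_
    exact le_antisymm hle (hy.2 hx.1 hle)
  have hmin : ∀ x, x ∉ D → ∃ a ∈ A, a ≤ x := by
    intro x hx
    obtain ⟨a, ha, h1⟩ := exists_minimal_le_of_wellFoundedLT (· ∉ D) x hx
    exact ⟨a, h1, ha⟩
  have : Fintype A := hA.fintype
  let bx : (A → ι) → ι → ℕ∞ := fun g i => ⨅ a : {a : A // g a = i}, ((a.1.1 i - 1 : ℕ) : ℕ∞)
  let G : Finset (A → ι) := Finset.univ.filter fun g => ∀ a : A, 0 < a.1 (g a)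
  refine ⟨(G.image bx).toList, fun x => ⟨fun hx => ?_, ?_⟩⟩
  · have h1 : ∀ a : A, ∃ i, x i < a.1 i := by
      intro a
      by_contra hcon
      push Not at hcon
      exact a.2.1 (hD (show a.1 ≤ x from hcon) hx)
    choose g hg using h1
    refine ⟨bx g, ?_, fun i => ?_⟩
    · rw [Finset.mem_toList]
      refine Finset.mem_image_of_mem _ ?_
      simp only [G, Finset.mem_filter, Finset.mem_univ, true_and]
      intro a
      have := hg a
      omega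
    · refine le_iInf fun a => ?_
      obtain ⟨a, rfl⟩ := a
      have := hg a
      exact_mod_cast (by omega : x (g a) ≤ a.1 (g a) - 1)
  · rintro ⟨b, hb, hxb⟩
    rw [Finset.mem_toList, Finset.mem_image] at hb
    obtain ⟨g, hg, rfl⟩ := hb
    simp only [G, Finset.mem_filter, Finset.mem_univ, true_and] at hg
    by_contra hx
    obtain ⟨a, ha, hax⟩ := hmin x hx
    have h1 := hxb (g ⟨a, ha⟩)
    have h2 : bx g (g ⟨a, ha⟩) ≤ ((a (g ⟨a, ha⟩) - 1 : ℕ) : ℕ∞) :=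
      iInf_le (fun c : {c : A // g c = g ⟨a, ha⟩} => ((c.1.1 (g ⟨a, ha⟩) - 1 : ℕ) : ℕ∞))
        ⟨⟨a, ha⟩, rfl⟩
    have h3 : ((x (g ⟨a, ha⟩) : ℕ) : ℕ∞) ≤ ((a (g ⟨a, ha⟩) - 1 : ℕ) : ℕ∞) := h1.trans h2
    have h4 : x (g ⟨a, ha⟩) ≤ a (g ⟨a, ha⟩) - 1 := by exact_mod_cast h3
    have h5 : 0 < a (g ⟨a, ha⟩) := hg ⟨a, ha⟩
    have h6 : a (g ⟨a, ha⟩) ≤ x (g ⟨a, ha⟩) := hax (g ⟨a, ha⟩)
    omega

/-- Lower sets of `ℕ ^ ι` are well quasi-ordered. -/
theorem exists_lt_subset {ι : Type} [Finite ι] (D : ℕ → Set (ι → ℕ))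
    (hD : ∀ n, IsLowerSet (D n)) : ∃ i j, i < j ∧ D i ⊆ D j := by
  choose L hL using fun n => exists_boxes (D n) (hD n)
  have h0 : (Set.univ : Set (ι → ℕ∞)).PartiallyWellOrderedOn (· ≤ ·) := by
    intro f
    obtain ⟨i, j, hij, h⟩ := wellQuasiOrdered_le (α := ι → ℕ∞) fun n => (f n).1
    exact ⟨i, j, hij, h⟩
  have h1 := h0.partiallyWellOrderedOn_sublistForall₂ (· ≤ ·)
  obtain ⟨i, j, hij, h⟩ := h1 fun n => ⟨L n, fun x _ => Set.mem_univ x⟩
  refine ⟨i, j, hij, fun x hx => ?_⟩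
  rw [hL] at hx ⊢
  obtain ⟨b, hb, hxb⟩ := hx
  have h' : List.SublistForall₂ (· ≤ ·) (L i) (L j) := h
  rw [List.sublistForall₂_iff] at h'
  obtain ⟨l, hl, hl'⟩ := h'
  obtain ⟨b', hb', hle⟩ : ∃ b' ∈ l, b ≤ b' := by
    clear hl' h
    generalize L i = l₀ at hb hl
    induction hl with
    | nil => simp at hb
    | cons h1 h2 ih =>
      rw [List.mem_cons] at hb
      rcases hb with rfl | hb
      · exact ⟨_, List.mem_cons_self, h1⟩
      · obtain ⟨b', hb', h3⟩ := ih hb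
        exact ⟨b', List.mem_cons_of_mem _ hb', h3⟩
  exact ⟨b', hl'.subset hb', fun i => (hxb i).trans (hle i)⟩

end Pool.Agent.Lib.MP_88bd66_lcP
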