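import Pool.Agent.Lib.MP_88bd66_lc.Final
import Pool.Agent.Lib.MP_88bd66_lcP.Defs

/-!
Permutation identities.
-/

set_option autoImplicit false

namespace Pool.Agent.Lib.MP_88bd66_lcP

open FreeSemigroup Pool.Agent.Lib.MP_88bd66_lc

variable {M : Type} [Semigroup M]

/-- the product of a list, in `M` with a unit adjoined -/
def pr (l : List M) : WithOne M := (l.map fun a : M => (a : WithOne M)).prod

theorem pr_nil : pr ([] : List M) = 1 := rfl

theorem pr_cons (a : M) (l : List M) : pr (a :: l) = (a : WithOne M) * pr l := by
  simp [pr]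

theorem pr_append (l l' : List M) : pr (l ++ l') = pr l * pr l' := by
  simp [pr]

theorem pr_singleton (a : M) : pr [a] = (a : WithOne M) := by simp [pr]

theorem exists_pr {l : List M} (h : l ≠ []) : ∃ a : M, (a : WithOne M) = pr l := by
  induction l with
  | nil => exact absurd rfl h
  | cons x l ih =>
    by_cases hl : l = []
    · subst hl
      exact ⟨x, by simp [pr]⟩
    · obtain ⟨b, hb⟩ := ih hl
      exact ⟨x * b, by rw [pr_cons, ← hb, WithOne.coe_mul]⟩

/-- words and products -/
theorem coe_lift {N : ℕ} (θ : Fin N → M) (w : Wd N) :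
    ((lift θ w : M) : WithOne M) = pr ((lst w).map θ) := by
  induction w using FreeSemigroup.recOnMul with
  | ih1 x => simp [lst_of, pr]
  | ih2 x w h1 h2 =>
    rw [map_mul, WithOne.coe_mul, h1, h2, lst_mul, List.map_append, pr_append]

/-- `a₁ ⋯ a_k x y b₁ ⋯ b_k = a₁ ⋯ a_k y x b₁ ⋯ b_k` -/
def Permutative (k : ℕ) (M : Type) [Semigroup M] : Prop :=
  ∀ (p s : List M) (x y : M), p.length = k → s.length = k →
    pr p * x * y * pr s = pr p * y * x * pr s

theorem Permutative.swap {k : ℕ} (h : Permutative k M) {p s : List M} (hp : k ≤ p.length)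
    (hs : k ≤ s.length) (x y : M) : pr p * x * y * pr s = pr p * y * x * pr s := by
  have e1 : p = p.take (p.length - k) ++ p.drop (p.length - k) := (List.take_append_drop _ _).symm
  have e2 : s = s.take k ++ s.drop k := (List.take_append_drop _ _).symm
  have h1 := h (p.drop (p.length - k)) (s.take k) x y (by simp; omega) (by simp; omega)
  rw [e1, e2, pr_append, pr_append]
  have : ∀ a b : M, pr (p.take (p.length - k)) * pr (p.drop (p.length - k)) * a * b *
      (pr (s.take k) * pr (s.drop k)) = pr (p.take (p.length - k)) *
        (pr (p.drop (p.length - k)) * a * b * pr (s.take k)) * pr (s.drop k) := by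
    intro a b
    simp only [mul_assoc]
  rw [this, this, h1]

theorem Permutative.perm {k : ℕ} (h : Permutative k M) {l l' : List M} (hl : l.Perm l') :
    ∀ p s : List M, k ≤ p.length → k ≤ s.length → pr p * pr l * pr s = pr p * pr l' * pr s := by
  induction hl with
  | nil => intro p s _ _; rfl
  | cons x hl ih =>
    intro p s hp hs
    have := ih (p ++ [x]) s (by simp; omega) hs
    rw [pr_append, pr_singleton] at this
    rw [pr_cons, pr_cons, ← mul_assoc (pr p), ← mul_assoc (pr p)]
    exact this
  | swap x y l =>
    intro p s hp hs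
    have := h.swap (p := p) (s := l ++ s) hp (by simp; omega) y x
    rw [pr_append] at this
    simp only [pr_cons]
    simp only [mul_assoc] at this ⊢
    exact this
  | trans h1 h2 ih1 ih2 =>
    intro p s hp hs
    rw [ih1 p s hp hs, ih2 p s hp hs]

/-! ### Permutation identities imply permutativity -/

theorem exists_not_succ {n : ℕ} (σ : Fin n → Fin n) (hσ : σ ≠ id) :
    ∃ (i : ℕ) (h : i + 1 < n), (σ ⟨i + 1, h⟩ : ℕ) ≠ σ ⟨i, by omega⟩ + 1 := by
  by_contra hcon
  push Not at hcon
  apply hσ
  have key : ∀ (i : ℕ) (h : i < n), (σ ⟨i, h⟩ : ℕ) = σ ⟨0, by omega⟩ + i := by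
    intro i
    induction i with
    | zero => intro h; rfl
    | succ i ih =>
      intro h
      rw [hcon i h, ih (by omega)]
      omega
  funext i
  have h1 := key i.1 i.2
  have h2 := key (n - 1) (by have := i.2; omega)
  have h3 := (σ ⟨n - 1, by have := i.2; omega⟩).2
  apply Fin.ext
  simp only [id_eq]
  have h4 : (σ i : ℕ) = σ ⟨0, by have := i.2; omega⟩ + i := h1
  omega

theorem ofFn_update {n : ℕ} (z : Fin n → M) (v : M) (j : Fin n) :
    List.ofFn (Function.update z j v) =
      (List.ofFn z).take j ++ v :: (List.ofFn z).drop (j + 1) := by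
  have e : List.ofFn (Function.update z j v) = (List.ofFn z).set j v := by
    apply List.ext_getElem
    · simp
    · intro i h1 h2
      have hi : i < n := by simpa using h1
      rw [List.getElem_set, List.getElem_ofFn, List.getElem_ofFn]
      by_cases h : (j : ℕ) = i
      · subst h
        simp
      · rw [if_neg h, Function.update_of_ne]
        intro he
        exact h (congrArg Fin.val he).symm
  rw [e, List.set_eq_take_append_cons_drop, if_pos (by simp)]

theorem prod_ofFn {n : ℕ} (z : Fin n → M) :
    (List.ofFn fun i => (z i : WithOne M)).prod = pr (List.ofFn z) := by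
  unfold pr
  rw [List.map_ofFn]
  rfl

/-- the product with `y` inserted before position `j` -/
theorem prod_update_left {n : ℕ} (z : Fin n → M) (y : M) (j : Fin n) :
    (List.ofFn fun i => ((Function.update z j (y * z j) i : M) : WithOne M)).prod =
      pr ((List.ofFn z).take j) * y * pr ((List.ofFn z).drop j) := by
  have e2 : (List.ofFn z).drop j = z j :: (List.ofFn z).drop (j + 1) := by
    rw [List.drop_eq_getElem_cons (by simp)]
    simp
  rw [prod_ofFn, ofFn_update, e2, pr_append, pr_cons, pr_cons, WithOne.coe_mul]
  simp only [mul_assoc]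

theorem prod_update_right {n : ℕ} (z : Fin n → M) (y : M) (j : Fin n) :
    (List.ofFn fun i => ((Function.update z j (z j * y) i : M) : WithOne M)).prod =
      pr ((List.ofFn z).take (j + 1)) * y * pr ((List.ofFn z).drop (j + 1)) := by
  have e2 : (List.ofFn z).take (j + 1) = (List.ofFn z).take j ++ [z j] := by
    rw [List.take_add_one]
    simp
  rw [prod_ofFn, ofFn_update, e2, pr_append, pr_append, pr_singleton, pr_cons, WithOne.coe_mul]
  simp only [mul_assoc]

theorem prod_update_eq {n : ℕ} (x : Fin n → M) (y : M) (i : ℕ) (h : i + 1 < n) :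
    (List.ofFn fun l => ((Function.update x ⟨i, by omega⟩ (x ⟨i, by omega⟩ * y) l : M) :
      WithOne M)).prod =
    (List.ofFn fun l => ((Function.update x ⟨i + 1, h⟩ (y * x ⟨i + 1, h⟩) l : M) :
      WithOne M)).prod := by
  rw [prod_update_right, prod_update_left]

/-- moving a letter across a block -/
theorem PermId.exists_block {n : ℕ} {π : Equiv.Perm (Fin n)} (hπ : π ≠ 1) (h : PermId π M) :
    ∃ a b : ℕ, a < b ∧ b ≤ n ∧ ∀ (z : Fin n → M) (y : M),
      pr ((List.ofFn z).take a) * y * pr ((List.ofFn z).drop a) =
        pr ((List.ofFn z).take b) * y * pr ((List.ofFn z).drop b) := by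
  have hne : (π.symm : Fin n → Fin n) ≠ id := by
    intro he
    apply hπ
    have : π.symm = 1 := Equiv.ext fun i => by rw [he]; rfl
    rw [← inv_inj, inv_one]
    exact this
  obtain ⟨i, hi, hP⟩ := exists_not_succ _ hne
  have key : ∀ (z : Fin n → M) (y : M),
      pr ((List.ofFn z).take ((π.symm ⟨i, by omega⟩ : Fin n) + 1)) * y *
        pr ((List.ofFn z).drop ((π.symm ⟨i, by omega⟩ : Fin n) + 1)) =
      pr ((List.ofFn z).take (π.symm ⟨i + 1, hi⟩ : Fin n)) * y *
        pr ((List.ofFn z).drop (π.symm ⟨i + 1, hi⟩ : Fin n)) := by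
    intro z y
    rw [← prod_update_right, ← prod_update_left]
    let x : Fin n → M := fun l => z (π.symm l)
    have h1 := h (Function.update x ⟨i, by omega⟩ (x ⟨i, by omega⟩ * y))
    have h2 := h (Function.update x ⟨i + 1, hi⟩ (y * x ⟨i + 1, hi⟩))
    rw [prod_update_eq x y i hi, h2] at h1
    have e : ∀ (l : Fin n) (v : M) (m : Fin n), Function.update x l v (π m) =
        Function.update z (π.symm l) v m := by
      intro l v m
      by_cases hm : π m = l
      · subst hm
        simp
      · rw [Function.update_of_ne hm, Function.update_of_ne]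
        · simp [x]
        · rintro rfl
          simp at hm
    simp only [e] at h1
    exact h1.symm
  rcases lt_or_gt_of_ne (Ne.symm hP) with hlt | hgt
  · exact ⟨_, _, hlt, (π.symm ⟨i + 1, hi⟩).2.le, key⟩
  · exact ⟨_, _, hgt, (π.symm ⟨i, by omega⟩).2, fun z y => (key z y).symm⟩

/-- Putcha and Yaqub: a nontrivial permutation identity implies permutativity. -/
theorem PermId.permutative {n : ℕ} {π : Equiv.Perm (Fin n)} (hπ : π ≠ 1) (h : PermId π M) :
    Permutative n M := by
  obtain ⟨a, b, hab, hbn, hblk⟩ := h.exists_block hπ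
  have hl : ∀ (l : List M) (hl : l.length = n) (y : M),
      pr (l.take a) * y * pr (l.drop a) = pr (l.take b) * y * pr (l.drop b) := by
    intro l hl y
    subst hl
    have := hblk l.get y
    rwa [List.ofFn_get] at this
  -- contexts of any length
  have hmove : ∀ (p z q : List M) (y : M), a ≤ p.length → z.length = b - a → n - b ≤ q.length →
      pr p * y * pr z * pr q = pr p * pr z * y * pr q := by
    intro p z q y hp hz hq
    have e1 : p = p.take (p.length - a) ++ p.drop (p.length - a) :=
      (List.take_append_drop _ _).symm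
    have e2 : q = q.take (n - b) ++ q.drop (n - b) := (List.take_append_drop _ _).symm
    generalize hp1 : p.take (p.length - a) = p1 at e1
    generalize hp2 : p.drop (p.length - a) = p2 at e1
    generalize hq1 : q.take (n - b) = q1 at e2
    generalize hq2 : q.drop (n - b) = q2 at e2
    have l2 : p2.length = a := by rw [← hp2, List.length_drop]; omega
    have l1 : q1.length = n - b := by rw [← hq1, List.length_take]; omega
    have h1 := hl (p2 ++ (z ++ q1)) (by simp only [List.length_append]; omega) y
    rw [List.take_left' l2, List.drop_left' l2] at h1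
    have e3 : p2 ++ (z ++ q1) = (p2 ++ z) ++ q1 := (List.append_assoc _ _ _).symm
    have l3 : (p2 ++ z).length = b := by rw [List.length_append]; omega
    rw [e3, List.take_left' l3, List.drop_left' l3] at h1
    rw [e1, e2]
    simp only [pr_append] at h1 ⊢
    have h2 := congrArg (fun t => pr p1 * t * pr q2) h1
    simp only [mul_assoc] at h2 ⊢
    exact h2
  intro p s x y hp hs
  -- split the left context
  have e1 : p = p.take (n - (b - a)) ++ p.drop (n - (b - a)) := (List.take_append_drop _ _).symm
  generalize hp1 : p.take (n - (b - a)) = p1 at e1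
  generalize hp2 : p.drop (n - (b - a)) = p2 at e1
  have l1 : p1.length = n - (b - a) := by rw [← hp1, List.length_take]; omega
  have l2 : p2.length = b - a := by rw [← hp2, List.length_drop]; omega
  -- the block with the last two letters merged
  have hm1 := hmove p1 p2 (y :: s) x (by omega) l2 (by simp; omega)
  obtain ⟨p3, c, hp3⟩ : ∃ p3 c, p2 = p3 ++ [c] := by
    have hne : p2 ≠ [] := by
      intro h0
      rw [h0] at l2
      simp at l2
      omega
    exact ⟨p2.dropLast, p2.getLast hne, (List.dropLast_append_getLast hne).symm⟩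
  have hm2 := hmove p1 (p3 ++ [c * y]) s x (by omega) (by
    rw [hp3] at l2
    simpa using l2) (by omega)
  rw [e1, pr_append]
  rw [hp3] at hm1 ⊢
  simp only [pr_append, pr_cons, pr_nil, WithOne.coe_mul, mul_one, mul_assoc] at hm1 hm2 ⊢
  rw [← hm1, hm2]

end Pool.Agent.Lib.MP_88bd66_lcP
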