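import Pool.Agent.Lib.MP_88bd66_lcP.Mix
import Pool.Agent.Lib.MP_88bd66_lcP.Perm

/-!
The left zero band of two elements with an identity adjoined (and its dual) does not belong to
pseudovarieties whose members all embed into homomorphic images of products of small semigroups.
-/

set_option autoImplicit false

namespace Pool.Agent.Lib.MP_88bd66_lcP

open FreeSemigroup Pool.Agent.Lib.MP_88bd66_lc

/-- the left zero band of two elements with an identity adjoined -/
inductive L21 : Type
  | one : L21
  | z (b : Bool) : L21

/-- the product -/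
def L21.mul : L21 → L21 → L21
  | .one, y => y
  | .z b, _ => .z b

instance : Monoid L21 where
  mul := L21.mul
  one := L21.one
  mul_assoc := by rintro (_ | _) (_ | _) (_ | _) <;> rfl
  one_mul := fun _ => rfl
  mul_one := by rintro (_ | _) <;> rfl

theorem L21.z_mul (b : Bool) (x : L21) : L21.z b * x = L21.z b := rfl

section

variable {α : Type} [DecidableEq α]

theorem prod_filter_ne (x : α) (θ : α → L21) (l : List α) :
    (l.map fun a => if a = x then 1 else θ a).prod = ((l.filter fun a => a ≠ x).map θ).prod := by
  induction l with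
  | nil => rfl
  | cons a l ih =>
    rw [List.map_cons, List.prod_cons, ih, List.filter_cons]
    by_cases h : a = x
    · simp [h]
    · simp [h]

variable {S : Type} [Semigroup S]

theorem pr_filter_ne (hxx : ∀ x : S, x * x = x) (hxyx : ∀ x y : S, x * y * x = x * y) (x : α)
    (θ : α → S) (l : List α) : ∀ p : WithOne S,
    (θ x : WithOne S) * p * pr (l.map θ) =
      θ x * p * pr ((l.filter fun a => a ≠ x).map θ) := by
  induction l with
  | nil => intro p; rfl
  | cons a l ih =>
    intro p
    rw [List.map_cons, pr_cons, List.filter_cons]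
    by_cases h : a = x
    · subst h
      have e : (θ a : WithOne S) * p * θ a = θ a * p := by
        refine WithOne.cases_on p ?_ fun s => ?_
        · rw [mul_one, ← WithOne.coe_mul, hxx]
        · rw [← WithOne.coe_mul, ← WithOne.coe_mul, hxyx]
      rw [← mul_assoc, e, ih]
      simp
    · have h' : decide (a ≠ x) = true := by simpa using h
      rw [if_pos h', List.map_cons, pr_cons, ← mul_assoc, mul_assoc (θ x : WithOne S) p, ih,
        ← mul_assoc, ← mul_assoc]

theorem lrb_transfer (hxx : ∀ x : S, x * x = x) (hxyx : ∀ x y : S, x * y * x = x * y) (n : ℕ) :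
    ∀ u v : List α, u.length = n →
      (∀ θ : α → L21, (u.map θ).prod = (v.map θ).prod) →
      ∀ θ : α → S, pr (u.map θ) = pr (v.map θ) := by
  induction n using Nat.strong_induction_on with
  | _ n ih =>
    intro u v hn h θ
    cases u with
    | nil =>
      cases v with
      | nil => rfl
      | cons y v =>
        have := h fun _ => L21.z true
        rw [List.map_cons, List.prod_cons, L21.z_mul] at this
        exact absurd this (by intro h; injection h)
    | cons x u =>
      cases v with
      | nil =>
        have := h fun _ => L21.z true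
        rw [List.map_cons, List.prod_cons, L21.z_mul] at this
        exact absurd this (by intro h; injection h)
      | cons y v =>
        have hxy : y = x := by
          by_contra hne
          have := h fun a => if a = x then L21.z true else L21.z false
          rw [List.map_cons, List.prod_cons, List.map_cons, List.prod_cons, if_pos rfl,
            if_neg hne, L21.z_mul, L21.z_mul] at this
          injection this with h1
          exact Bool.noConfusion h1
        subst hxy
        have h1 : ∀ θ : α → L21, ((u.filter fun a => a ≠ y).map θ).prod =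
            ((v.filter fun a => a ≠ y).map θ).prod := by
          intro θ
          have := h fun a => if a = y then 1 else θ a
          rw [List.map_cons, List.prod_cons, List.map_cons, List.prod_cons, if_pos rfl,
            one_mul, one_mul, prod_filter_ne, prod_filter_ne] at this
          exact this
        have hlt : (u.filter fun a => a ≠ y).length < n := by
          have := List.length_filter_le (fun a => decide (a ≠ y)) u
          rw [List.length_cons] at hn
          omega
        have h2 := ih _ hlt _ _ rfl h1 θ
        have e1 := pr_filter_ne hxx hxyx y θ u 1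
        have e2 := pr_filter_ne hxx hxyx y θ v 1
        rw [mul_one] at e1 e2
        rw [List.map_cons, pr_cons, List.map_cons, pr_cons, e1, e2, h2]

end

theorem lift_eq_prod {N : ℕ} (θ : Fin N → L21) (w : Wd N) :
    lift θ w = ((lst w).map θ).prod := by
  induction w using FreeSemigroup.recOnMul with
  | ih1 x => simp [lst_of]
  | ih2 x w h1 h2 => rw [map_mul, h1, h2, lst_mul, List.map_append, List.prod_append]

theorem idLe_of_lrb {S : Type} [Semigroup S] (hxx : ∀ x : S, x * x = x)
    (hxyx : ∀ x y : S, x * y * x = x * y) : IdLe L21 S := by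
  intro N u v h θ
  apply WithOne.coe_injective
  rw [coe_lift, coe_lift]
  refine lrb_transfer hxx hxyx _ _ _ rfl (fun θ => ?_) θ
  rw [← lift_eq_prod, ← lift_eq_prod]
  exact h θ

/-! ### The act -/

/-- a left regular band with a large subdirectly irreducible left zero kernel -/
inductive Sn (n : ℕ) : Type
  | one : Sn n
  | m (B : Finset (Fin n)) (b : Bool) : Sn n
  | a (A : Finset (Fin n)) : Sn n
  | c (b : Bool) : Sn n

/-- the product -/
def Sn.mul {n : ℕ} : Sn n → Sn n → Sn n
  | .one, s => s
  | .m B b, .one => .m B b
  | .m B b, .m B' _ => .m (B ∪ B') b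
  | .m B b, .a A => if B ∪ A = Finset.univ then .c b else .a (B ∪ A)
  | .m _ b, .c _ => .c b
  | .a A, _ => .a A
  | .c b, _ => .c b

theorem Sn.mul_assoc' {n : ℕ} (x y w : Sn n) : (x.mul y).mul w = x.mul (y.mul w) := by
  rcases x with _ | ⟨B, b⟩ | A | b
  · rfl
  · rcases y with _ | ⟨B', b'⟩ | A' | b'
    · rfl
    · rcases w with _ | ⟨B'', b''⟩ | A'' | b''
      · rfl
      · simp only [Sn.mul, Finset.union_assoc]
      · simp only [Sn.mul]
        by_cases h : B' ∪ A'' = Finset.univ
        · have h' : B ∪ B' ∪ A'' = Finset.univ := by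
            rw [Finset.union_assoc, h]
            exact Finset.eq_univ_of_forall fun x => by simp
          rw [if_pos h, if_pos h']
        · rw [if_neg h, Finset.union_assoc]
      · rfl
    · simp only [Sn.mul]
      by_cases h : B ∪ A' = Finset.univ
      · rw [if_pos h]
      · rw [if_neg h]
    · rfl
  · rfl
  · rfl

instance (n : ℕ) : Monoid (Sn n) where
  mul := Sn.mul
  one := Sn.one
  mul_assoc := Sn.mul_assoc'
  one_mul := fun _ => rfl
  mul_one := by rintro (_ | ⟨_, _⟩ | _ | _) <;> rfl

instance (n : ℕ) : Finite (Sn n) := by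
  refine Finite.of_surjective (α := Unit ⊕ (Finset (Fin n) × Bool) ⊕ Finset (Fin n) ⊕ Bool)
    (fun x => match x with
      | .inl _ => .one
      | .inr (.inl (B, b)) => .m B b
      | .inr (.inr (.inl A)) => .a A
      | .inr (.inr (.inr b)) => .c b) ?_
  rintro (_ | ⟨B, b⟩ | A | b)
  · exact ⟨.inl (), rfl⟩
  · exact ⟨.inr (.inl (B, b)), rfl⟩
  · exact ⟨.inr (.inr (.inl A)), rfl⟩
  · exact ⟨.inr (.inr (.inr b)), rfl⟩

theorem Sn.mul_self' {n : ℕ} (x : Sn n) : x * x = x := by
  rcases x with _ | ⟨B, b⟩ | A | b
  · rfl
  · change Sn.m (B ∪ B) b = Sn.m B b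
    rw [Finset.union_self]
  · rfl
  · rfl

theorem Sn.lrb {n : ℕ} (x y : Sn n) : x * y * x = x * y := by
  rcases x with _ | ⟨B, b⟩ | A | b
  · change y.mul Sn.one = y
    rcases y with _ | ⟨_, _⟩ | _ | _ <;> rfl
  · rcases y with _ | ⟨B', b'⟩ | A' | b'
    · exact Sn.mul_self' _
    · change Sn.m (B ∪ B' ∪ B) b = Sn.m (B ∪ B') b
      congr 1
      ext i
      simp only [Finset.mem_union]
      tauto
    · change ((Sn.m B b).mul (Sn.a A')).mul (Sn.m B b) = (Sn.m B b).mul (Sn.a A')
      simp only [Sn.mul]
      by_cases h : B ∪ A' = Finset.univ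
      · rw [if_pos h]
      · rw [if_neg h]
    · rfl
  · rfl
  · rfl

/-- The hypothesis on `M`. -/
def HypS (t : ℕ) (M : Type) [Semigroup M] : Prop :=
  ∀ (S : Type) (_ : Semigroup S), Finite S → Nonempty S → IdLe M S → BddS t S

theorem no_L21 {t : ℕ} {M : Type} [Semigroup M] (hyp : HypS t M) : ¬ IdLe M L21 := by
  intro hle
  have hle' : IdLe M (Sn (t + 1)) := hle.trans (idLe_of_lrb Sn.mul_self' Sn.lrb)
  have hb : BddS t (Sn (t + 1)) := hyp _ _ inferInstance ⟨Sn.one⟩ hle'
  obtain ⟨r, R, h1, h2, h3, h4, h5⟩ := mixtures hb (Sn.a ∅) (fun _ => rfl)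
  have hall : ∀ k, R k (Sn.m Finset.univ true) (Sn.m Finset.univ false) := by
    intro k
    obtain ⟨i, j, hij, hR⟩ : ∃ i j : Fin (t + 1), i < j ∧
        R k (Sn.m (Finset.univ.filter fun l => l < i) true)
          (Sn.m (Finset.univ.filter fun l => l < j) true) := by
      obtain ⟨i, j, hne, hR⟩ := h4 k fun i => Sn.m (Finset.univ.filter fun l => l < i) true
      rcases lt_or_gt_of_ne hne with h | h
      · exact ⟨i, j, h, hR⟩
      · exact ⟨j, i, h, (h1 k).symm hR⟩
    have key : ∀ b, R k (Sn.m (Finset.univ.erase i) b) (Sn.m Finset.univ b) := by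
      intro b
      have := h2 k _ _ (Sn.m (Finset.univ.erase i) b) hR
      change R k (Sn.m (Finset.univ.erase i ∪ _) b) (Sn.m (Finset.univ.erase i ∪ _) b) at this
      have e1 : Finset.univ.erase i ∪ (Finset.univ.filter fun l => l < i) =
          Finset.univ.erase i := by
        ext l
        simp only [Finset.mem_union, Finset.mem_erase, Finset.mem_univ, and_true,
          Finset.mem_filter, true_and]
        constructor
        · rintro (h | h)
          · exact h
          · exact h.ne
        · exact fun h => Or.inl h
      have e2 : Finset.univ.erase i ∪ (Finset.univ.filter fun l => l < j) = Finset.univ := by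
        ext l
        simp only [Finset.mem_union, Finset.mem_erase, Finset.mem_univ, and_true,
          Finset.mem_filter, true_and, iff_true]
        by_cases h : l = i
        · right
          rw [h]
          exact hij
        · exact Or.inl h
      rw [e1, e2] at this
      exact this
    have hne : ¬ (Finset.univ.erase i ∪ ∅ : Finset (Fin (t + 1))) = Finset.univ := by
      intro h
      have : i ∈ (Finset.univ.erase i ∪ ∅ : Finset (Fin (t + 1))) := by
        rw [h]
        exact Finset.mem_univ i
      simp at this
    have hz : ∀ b, Sn.m (Finset.univ.erase i) b * Sn.a ∅ = Sn.a (Finset.univ.erase i ∪ ∅) :=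
      fun b => if_neg hne
    have h6 := h3 k (Sn.m (Finset.univ.erase i) true) (Sn.m (Finset.univ.erase i) false)
      (by rw [hz, hz])
    exact (h1 k).trans ((h1 k).symm (key true)) ((h1 k).trans h6 (key false))
  have hfin := h5 _ _ hall
  have hz : ∀ b, Sn.m (Finset.univ : Finset (Fin (t + 1))) b * Sn.a ∅ = Sn.c b :=
    fun b => if_pos (by rw [Finset.union_empty])
  rw [hz, hz] at hfin
  injection hfin with h
  exact Bool.noConfusion h

/-! ### The dual -/

open MulOpposite

theorem BddS.of_op {t : ℕ} {S : Type} [Semigroup S] (h : BddS t Sᵐᵒᵖ) : BddS t S := by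
  obtain ⟨r, T, sg, Q, sq, hfin, hcard, p, f, hp, hf⟩ := h
  refine ⟨r, fun i => (T i)ᵐᵒᵖ, fun i => inferInstance, Qᵐᵒᵖ, inferInstance,
    fun i => Finite.of_equiv _ (opEquiv (α := T i)),
    fun i => by rw [Nat.card_congr (opEquiv (α := T i)).symm]; exact hcard i,
    ⟨fun x => op (p fun i => unop (x i)), fun x y => ?_⟩, ⟨fun s => op (f (op s)), fun x y => ?_⟩,
    ?_, ?_⟩
  · rw [← op_mul, ← map_mul]
    rfl
  · rw [← op_mul, ← map_mul]
    rfl
  · intro q
    obtain ⟨x, hx⟩ := hp (unop q)
    exact ⟨fun i => op (x i), unop_injective hx⟩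
  · intro x y hxy
    exact op_injective (hf (op_injective hxy))

theorem idLe_op {M S : Type} [Semigroup M] [Semigroup S] (h : IdLe Mᵐᵒᵖ S) : IdLe M Sᵐᵒᵖ := by
  intro N u v huv
  rw [sat_op]
  apply h
  rw [sat_op, rev_rev, rev_rev]
  exact huv

theorem HypS.op {t : ℕ} {M : Type} [Semigroup M] (h : HypS t M) : HypS t Mᵐᵒᵖ := by
  intro S sg hfin hne hle
  exact BddS.of_op (h Sᵐᵒᵖ inferInstance (Finite.of_equiv _ (opEquiv (α := S))) ⟨MulOpposite.op hne.some⟩
    (idLe_op hle))

/-- no two left zeros in local monoids -/
theorem idLe_L21 {M : Type} [Semigroup M] {e f g : M} (he : e * e = e) (ef : e * f = f)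
    (fe : f * e = f) (eg : e * g = g) (ge : g * e = g) (ff : f * f = f) (gg : g * g = g)
    (fg : f * g = f) (gf : g * f = g) (hne : f ≠ g) : IdLe M L21 := by
  have hef : e ≠ f := by
    rintro rfl
    exact hne (fg.symm.trans eg)
  have heg : e ≠ g := by
    rintro rfl
    exact hne (ef.symm.trans gf)
  refine idLe_of_inj (M := M) (S := L21) ⟨fun x => match x with
    | .one => e
    | .z true => f
    | .z false => g, ?_⟩ ?_
  · rintro (_ | _ | _) (_ | _ | _)
    · exact he.symm
    · exact eg.symm
    · exact ef.symm
    · exact ge.symm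
    · exact gg.symm
    · exact gf.symm
    · exact fe.symm
    · exact fg.symm
    · exact ff.symm
  · rintro (_ | _ | _) (_ | _ | _) h
    · rfl
    · exact absurd h heg
    · exact absurd h hef
    · exact absurd h.symm heg
    · rfl
    · exact absurd h.symm hne
    · exact absurd h.symm hef
    · exact absurd h hne
    · rfl

theorem HypS.locL {t : ℕ} {M : Type} [Semigroup M] (h : HypS t M) {e f g : M} (he : e * e = e)
    (ef : e * f = f) (fe : f * e = f) (eg : e * g = g) (ge : g * e = g) (ff : f * f = f)
    (gg : g * g = g) (fg : f * g = f) (gf : g * f = g) : f = g := by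
  by_contra hne
  exact no_L21 h (idLe_L21 he ef fe eg ge ff gg fg gf hne)

theorem HypS.locR {t : ℕ} {M : Type} [Semigroup M] (h : HypS t M) {e f g : M} (he : e * e = e)
    (ef : e * f = f) (fe : f * e = f) (eg : e * g = g) (ge : g * e = g) (ff : f * f = f)
    (gg : g * g = g) (fg : f * g = g) (gf : g * f = f) : f = g := by
  have hop : ∀ x y : M, MulOpposite.op x * MulOpposite.op y = MulOpposite.op (y * x) :=
    fun x y => (op_mul y x).symm
  exact op_injective (h.op.locL (e := MulOpposite.op e) (f := MulOpposite.op f)
    (g := MulOpposite.op g) (by rw [hop, he]) (by rw [hop, fe]) (by rw [hop, ef])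
    (by rw [hop, ge]) (by rw [hop, eg]) (by rw [hop, ff]) (by rw [hop, gg]) (by rw [hop, gf])
    (by rw [hop, fg]))

end Pool.Agent.Lib.MP_88bd66_lcP
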