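import Pool.Agent.Lib.MP_88bd66_lcP.Transfer
import Pool.Agent.Lib.MP_88bd66_lcP.IdDec

/-!
The permutative part of kernels is decidable.
-/

set_option autoImplicit false

namespace Pool.Agent.Lib.MP_88bd66_lcP

open FreeSemigroup Pool.Agent.Lib.MP_88bd66_lc

/-! ### Encoding of pairs of words -/

/-- types of letters in a pair of words -/
abbrev PTy (k c : ℕ) : Type := Ty k c × Ty k c

/-- the type of a letter in a pair of words -/
def pty (k c : ℕ) {N : ℕ} (u v : Wd N) (x : Fin N) : PTy k c :=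
  (ty k c (lst u) x, ty k c (lst v) x)

/-- global data -/
abbrev Idx (k c : ℕ) : Type := Fin (2 * k + 1) × Fin (2 * k + 1) × (PTy k c → Prop)

/-- lengths up to `2 k`, and the types which occur -/
def idx (k c : ℕ) {N : ℕ} (u v : Wd N) : Idx k c :=
  (⟨min (lst u).length (2 * k), by omega⟩, ⟨min (lst v).length (2 * k), by omega⟩,
    fun τ => ∃ x, pty k c u v x = τ)

open Classical in
/-- the code of a pair of words -/
noncomputable def enc (k c : ℕ) {N : ℕ} (u v : Wd N) : PTy k c ⊕ Idx k c → ℕ :=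
  Sum.elim (fun τ => Nat.card {x : Fin N // pty k c u v x = τ})
    (fun i => if i = idx k c u v then 1 else 0)

theorem idx_eq {k c N N' : ℕ} {u v : Wd N} {u' v' : Wd N'} (h : enc k c u v ≤ enc k c u' v') :
    idx k c u v = idx k c u' v' := by
  have h1 := h (Sum.inr (idx k c u v))
  simp only [enc, Sum.elim_inr, if_true] at h1
  by_contra hne
  rw [if_neg hne] at h1
  omega

theorem exists_rho {k c N N' : ℕ} {u v : Wd N} {u' v' : Wd N'}
    (h : enc k c u v ≤ enc k c u' v') :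
    ∃ ρ : Fin N' → Fin N, Function.Surjective ρ ∧ ∀ x', pty k c u v (ρ x') = pty k c u' v' x' := by
  classical
  have hidx := idx_eq h
  have hsupp : ∀ x', ∃ x, pty k c u v x = pty k c u' v' x' := by
    intro x'
    have h1 := congrFun (congrArg (fun t => t.2.2) hidx) (pty k c u' v' x')
    exact h1.mpr ⟨x', rfl⟩
  choose g hg using hsupp
  have hemb : ∀ τ, Nonempty ({x : Fin N // pty k c u v x = τ} ↪
      {x : Fin N' // pty k c u' v' x = τ}) := by
    intro τ
    have h1 := h (Sum.inl τ)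
    simp only [enc, Sum.elim_inl] at h1
    rw [Nat.card_eq_fintype_card, Nat.card_eq_fintype_card] at h1
    exact Function.Embedding.nonempty_of_card_le h1
  let E := fun τ => Classical.choice (hemb τ)
  let f : Fin N → Fin N' := fun x => (E (pty k c u v x) ⟨x, rfl⟩).1
  have hf : ∀ x, pty k c u' v' (f x) = pty k c u v x := fun x => (E (pty k c u v x) ⟨x, rfl⟩).2
  have hfE : ∀ x τ (hx : pty k c u v x = τ), f x = (E τ ⟨x, hx⟩).1 := by
    intro x τ hx
    subst hx
    rfl
  have hinj : Function.Injective f := by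
    intro x y hxy
    have h1 : pty k c u v x = pty k c u v y := by rw [← hf x, ← hf y, hxy]
    rw [hfE x _ h1, hfE y _ rfl] at hxy
    have h2 := (E (pty k c u v y)).injective (Subtype.ext hxy)
    exact congrArg Subtype.val h2
  refine ⟨fun x' => if hx : ∃ x, f x = x' then hx.choose else g x', ?_, ?_⟩
  · intro x
    refine ⟨f x, ?_⟩
    have hx : ∃ y, f y = f x := ⟨x, rfl⟩
    simp only [dif_pos hx]
    exact hinj hx.choose_spec
  · intro x'
    by_cases hx : ∃ x, f x = x'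
    · simp only [dif_pos hx]
      rw [← hf, hx.choose_spec]
    · simp only [dif_neg hx]
      exact hg x'

theorem transfer_enc {M : Type} [Semigroup M] {k c : ℕ} (hP : Permutative k M) (hc : PowL c M)
    {N N' : ℕ} {u v : Wd N} {u' v' : Wd N'} (h : enc k c u v ≤ enc k c u' v')
    (hs : Sat M u v) : Sat M u' v' := by
  obtain ⟨ρ, hρ, hty⟩ := exists_rho h
  have hidx := idx_eq h
  have hty1 : ∀ x', ty k c (lst u) (ρ x') = ty k c (lst u') x' := fun x' =>
    congrArg Prod.fst (hty x')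
  have hty2 : ∀ x', ty k c (lst v) (ρ x') = ty k c (lst v') x' := fun x' =>
    congrArg Prod.snd (hty x')
  have hl1 : min (lst u).length (2 * k) = min (lst u').length (2 * k) :=
    congrArg (fun t : Idx k c => (t.1 : ℕ)) hidx
  have hl2 : min (lst v).length (2 * k) = min (lst v').length (2 * k) :=
    congrArg (fun t : Idx k c => (t.2.1 : ℕ)) hidx
  intro θ'
  have hex : ∀ y, ∃ a : M, (a : WithOne M) = pr ((fib ρ y).map θ') := fun y =>
    exists_pr (by simpa using fib_ne_nil hρ y)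
  choose θ hθ using hex
  have e1 := word_eq hP hc hty1 hl1 (fun x' hx' y' hy' =>
    (hx'.inj (y := y') (by rw [← hty1, ← hty1, hy'])).symm) θ θ' hθ
  have e2 := word_eq hP hc hty2 hl2 (fun x' hx' y' hy' =>
    (hx'.inj (y := y') (by rw [← hty2, ← hty2, hy'])).symm) θ θ' hθ
  apply WithOne.coe_injective
  rw [coe_lift, coe_lift, ← e1, ← e2, ← coe_lift, ← coe_lift, hs θ]

/-! ### Finite bases -/

theorem exists_le {k c : ℕ} (f : ℕ → FinSgrp)
    (hf : ∀ n, Permutative k (f n).carrier ∧ PowL c (f n).carrier) :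
    ∃ i j, i < j ∧ IdLe (f j).carrier (f i).carrier := by
  obtain ⟨i, j, hij, hD⟩ := exists_lt_subset (ι := PTy k c ⊕ Idx k c)
    (fun n => {e | ∃ (N : ℕ) (u v : Wd N), ¬ Sat (f n).carrier u v ∧ e ≤ enc k c u v}) (by
      rintro n e e' he ⟨N, u, v, h1, h2⟩
      exact ⟨N, u, v, h1, he.trans h2⟩)
  refine ⟨i, j, hij, fun N u v hs => ?_⟩
  by_contra hn
  obtain ⟨N', u', v', h1, h2⟩ := hD (a := enc k c u v) ⟨N, u, v, hn, le_rfl⟩
  exact h1 (transfer_enc (hf j).1 (hf j).2 h2 hs)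

theorem exists_basis {k c : ℕ} (C : Set FinSgrp) :
    ∃ Bs : Finset FinSgrp, (∀ B ∈ Bs, B ∉ C) ∧
      ∀ M : FinSgrp, Permutative k M.carrier → PowL c M.carrier → M ∉ C →
        ∃ B ∈ Bs, IdLe M.carrier B.carrier := by
  by_contra hcon
  push Not at hcon
  obtain ⟨f, hf1, hf2⟩ := exists_seq_of_forall_finset_exists
    (fun M : FinSgrp => Permutative k M.carrier ∧ PowL c M.carrier ∧ M ∉ C)
    (fun x y => ¬ IdLe y.carrier x.carrier) (fun s hs => by
      obtain ⟨M, h1, h2, h3, h4⟩ := hcon s fun B hB => (hs B hB).2.2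
      exact ⟨M, ⟨h1, h2, h3⟩, h4⟩)
  obtain ⟨i, j, hij, h⟩ := exists_le f fun n => ⟨(hf1 n).1, (hf1 n).2.1⟩
  exact hf2 i j hij h

/-! ### Permutation identities and power laws as identities -/

/-- the word of a nonempty list -/
def wl {N : ℕ} : (l : List (Fin N)) → l ≠ [] → Wd N
  | x :: l, _ => ⟨x, l⟩

theorem lst_wl {N : ℕ} (l : List (Fin N)) (h : l ≠ []) : lst (wl l h) = l := by
  cases l with
  | nil => exact absurd rfl h
  | cons x l => rfl

theorem pos_of_ne_one {n : ℕ} {π : Equiv.Perm (Fin n)} (hπ : π ≠ 1) : 0 < n := by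
  rcases Nat.eq_zero_or_pos n with h | h
  · subst h
    exact absurd (Subsingleton.elim _ _) hπ
  · exact h

theorem ofFn_ne {n N : ℕ} (hn : 0 < n) (f : Fin n → Fin N) : List.ofFn f ≠ [] := by
  intro h
  have := congrArg List.length h
  simp at this
  omega

theorem permId_iff {n : ℕ} {π : Equiv.Perm (Fin n)} (hn : 0 < n) {M : Type} [Semigroup M] :
    PermId π M ↔ Sat M (wl (List.ofFn fun i : Fin n => i) (ofFn_ne hn _))
      (wl (List.ofFn fun i : Fin n => π i) (ofFn_ne hn _)) := by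
  have e : ∀ (θ : Fin n → M) (f : Fin n → Fin n),
      ((lift θ (wl (List.ofFn f) (ofFn_ne hn _)) : M) : WithOne M) =
        (List.ofFn fun i => (θ (f i) : WithOne M)).prod := by
    intro θ f
    rw [coe_lift, lst_wl, List.map_ofFn, prod_ofFn (fun i => θ (f i))]
    rfl
  constructor
  · intro h θ
    apply WithOne.coe_injective
    rw [e, e]
    exact h θ
  · intro h θ
    have := congrArg (fun a : M => (a : WithOne M)) (h θ)
    simp only [e] at this
    exact this

theorem powL_iff {c : ℕ} {M : Type} [Semigroup M] :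
    PowL c M ↔ Sat M (pw (of 0 : Wd 1) c * pw (of 0 : Wd 1) c) (pw (of 0 : Wd 1) c) := by
  constructor
  · intro h θ
    rw [map_mul, pw_map, lift_of]
    exact h _
  · intro h x
    have := h fun _ => x
    rwa [map_mul, pw_map, lift_of] at this

theorem sat_pi {ι : Type} (T : ι → Type) [∀ i, Semigroup (T i)] {N : ℕ} {u v : Wd N}
    (h : ∀ i, Sat (T i) u v) : Sat (∀ i, T i) u v := by
  intro θ
  funext i
  have e : ∀ w : Wd N, (lift θ w) i = lift (fun x => θ x i) w := by
    intro w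
    let pr : (∀ i, T i) →ₙ* T i := ⟨fun p => p i, fun _ _ => rfl⟩
    have : pr.comp (lift θ) = lift (fun x => θ x i) := by
      ext x
      simp [pr]
    rw [← this]
    rfl
  rw [e, e, h i]

theorem sat_opH {C : Set FinSgrp} {N : ℕ} {u v : Wd N} (h : ∀ S ∈ C, Sat S.carrier u v) :
    ∀ S ∈ opH C, Sat S.carrier u v := by
  rintro S ⟨T, hT, f, hf⟩
  exact idLe_of_surj f hf N u v (h T hT)

theorem sat_opS {C : Set FinSgrp} {N : ℕ} {u v : Wd N} (h : ∀ S ∈ C, Sat S.carrier u v) :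
    ∀ S ∈ opS C, Sat S.carrier u v := by
  rintro S ⟨T, hT, f, hf⟩
  exact idLe_of_inj f hf N u v (h T hT)

theorem sat_opP {C : Set FinSgrp} {N : ℕ} {u v : Wd N} (h : ∀ S ∈ C, Sat S.carrier u v) :
    ∀ S ∈ opP C, Sat S.carrier u v := by
  rintro S ⟨n, _, T, hT, ⟨e⟩⟩
  exact idLe_of_inj (e : S.carrier →ₙ* _) e.injective N u v
    (sat_pi (fun i => (T i).carrier) fun i => h _ (hT i))

/-- the four operators of the question -/
def FourOps (K : Set FinSgrp → Set FinSgrp) : Prop :=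
  K = (fun C => opH (opP C)) ∨ K = (fun C => opH (opP (opS C))) ∨
    K = (fun C => opS (opH (opP C))) ∨ K = (fun C => opS (opH (opP (opS C))))

theorem FourOps.sat {K : Set FinSgrp → Set FinSgrp} (hK : FourOps K) {C : Set FinSgrp} {N : ℕ}
    {u v : Wd N} (h : ∀ S ∈ C, Sat S.carrier u v) : ∀ S ∈ K C, Sat S.carrier u v := by
  rcases hK with rfl | rfl | rfl | rfl
  · exact sat_opH (sat_opP h)
  · exact sat_opH (sat_opP (sat_opS h))
  · exact sat_opS (sat_opH (sat_opP h))
  · exact sat_opS (sat_opH (sat_opP (sat_opS h)))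

/-! ### Deciding -/

theorem exists_fin (B : FinSgrp) : ∃ (n : ℕ) (s : Semigroup (Fin n)),
    ∀ (m : ℕ) (sM : Semigroup (Fin m)),
      @IdLe (Fin m) B.carrier sM _ ↔ @IdLe (Fin m) (Fin n) sM s := by
  classical
  have := Fintype.ofFinite B.carrier
  let e : Fin (Fintype.card B.carrier) ≃ B.carrier := (Fintype.equivFin B.carrier).symm
  let s : Semigroup (Fin (Fintype.card B.carrier)) := e.semigroup
  refine ⟨_, s, fun m sM => ?_⟩
  let E : @MulHom (Fin (Fintype.card B.carrier)) B.carrier s.toMul B.sgrp.toMul :=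
    @MulHom.mk _ _ s.toMul B.sgrp.toMul e fun x y => e.apply_symm_apply (e x * e y)
  exact ⟨fun h => @IdLe.trans (Fin m) B.carrier _ sM _ s h
      (@idLe_of_inj B.carrier (Fin (Fintype.card B.carrier)) B.sgrp s E e.injective),
    fun h => @IdLe.trans (Fin m) _ B.carrier sM s _ h
      (@idLe_of_surj (Fin (Fintype.card B.carrier)) B.carrier s B.sgrp E e.surjective)⟩

theorem primrec_sat {N : ℕ} (u v : Wd N) : ∃ P : Tb → Prop, PrimrecPred P ∧
    ∀ (m : ℕ) (s : Semigroup (Fin m)), P (table s) ↔ @Sat (Fin m) s N u v := by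
  obtain ⟨x, l⟩ := u
  obtain ⟨x', l'⟩ := v
  refine ⟨fun T => SatL N T x (l.map Fin.val) x' (l'.map Fin.val), ?_, fun m s =>
    satL_iff s x x' l l'⟩
  exact (primrec_satL N).comp (Primrec.pair Primrec.id (Primrec.const (↑x, l.map Fin.val, ↑x',
    l'.map Fin.val)))

theorem primrec_idLe (B : FinSgrp) : ∃ P : Tb → Prop, PrimrecPred P ∧
    ∀ (m : ℕ) (s : Semigroup (Fin m)), P (table s) ↔ @IdLe (Fin m) B.carrier s _ := by
  obtain ⟨n, sB, h⟩ := exists_fin B
  exact ⟨Good n (table sB), primrec_good n (table sB), fun m s =>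
    (good_iff s sB).trans (h m s).symm⟩

theorem primrec_none (Bs : Finset FinSgrp) : ∃ P : Tb → Prop, PrimrecPred P ∧
    ∀ (m : ℕ) (s : Semigroup (Fin m)), P (table s) ↔
      ∀ B ∈ Bs, ¬ @IdLe (Fin m) B.carrier s _ := by
  classical
  induction Bs using Finset.induction_on with
  | empty => exact ⟨fun _ => True, ⟨inferInstance, Primrec.const _⟩, by simp⟩
  | insert B Bs _ ih =>
    obtain ⟨P, h1, h2⟩ := ih
    obtain ⟨Q, h3, h4⟩ := primrec_idLe B
    refine ⟨fun T => ¬ Q T ∧ P T, h3.not.and h1, fun m s => ?_⟩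
    rw [Finset.forall_mem_insert]
    change (¬ Q (table s) ∧ P (table s)) ↔ _
    rw [h2, h4]

theorem decidable_perm (K : Set FinSgrp → Set FinSgrp) (hK : FourOps K) (Φ : Set FinSgrp)
    (hΦ : FiniteClass Φ) {n : ℕ} (π : Equiv.Perm (Fin n)) (hπ : π ≠ 1) :
    DecidableClass {M | M ∈ Cor K Φ ∧ PermId π M.carrier} := by
  obtain ⟨t, ht, hbd⟩ := hΦ.bound
  have hn := pos_of_ne_one hπ
  have hpow : ∀ S ∈ K Φ, PowL (t.factorial - 1) S.carrier := by
    intro S hS
    rw [powL_iff]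
    refine hK.sat (fun S hS => ?_) S hS
    rw [← powL_iff]
    exact fun x => om_idem (hbd S hS) ht x
  generalize t.factorial - 1 = c at hpow
  obtain ⟨Bs, hBs1, hBs2⟩ := exists_basis (k := n) (c := c) (Cor K Φ)
  obtain ⟨P1, h1, h1'⟩ := primrec_sat (wl (List.ofFn fun i : Fin n => i) (ofFn_ne hn _))
      (wl (List.ofFn fun i : Fin n => π i) (ofFn_ne hn _))
  obtain ⟨P2, h2, h2'⟩ := primrec_sat (pw (of 0 : Wd 1) c * pw (of 0 : Wd 1) c)
    (pw (of 0 : Wd 1) c)
  obtain ⟨P3, h3, h3'⟩ := primrec_none Bs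
  obtain ⟨inst, hp⟩ := (h1.and h2).and h3
  refine ⟨_, hp.to_comp, ?_⟩
  intro m ne s
  rw [decide_eq_true_iff]
  change ((P1 (table s) ∧ P2 (table s)) ∧ P3 (table s)) ↔ _
  rw [h1', h2', h3', ← @permId_iff n π hn (Fin m) s, ← @powL_iff c (Fin m) s]
  constructor
  · rintro ⟨⟨h4, h5⟩, h6⟩
    refine ⟨?_, h4⟩
    by_contra hM
    obtain ⟨B, hB, hle⟩ := hBs2 (FinSgrp.mk (Fin m) (sgrp := s) (nonempty := ne))
      (@PermId.permutative (Fin m) s n π hπ h4) h5 hM
    exact h6 B hB hle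
  · rintro ⟨hM, h4⟩
    exact ⟨⟨h4, hpow _ hM.1⟩, fun B hB hle => hBs1 B hB (mem_of_idLe hM hle)⟩

theorem DecidableClass.congr' {C C' : Set FinSgrp} (h : DecidableClass C) (e : C = C') :
    DecidableClass C' := e ▸ h

theorem main_perm (K : Set FinSgrp → Set FinSgrp)
    (hK : K = (fun C => opH (opP C)) ∨ K = (fun C => opH (opP (opS C))) ∨
      K = (fun C => opS (opH (opP C))) ∨ K = (fun C => opS (opH (opP (opS C)))))
    (Φ : Set FinSgrp) (hΦ : FiniteClass Φ) {n : ℕ} (π : Equiv.Perm (Fin n)) (hπ : π ≠ 1) :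
    DecidableClass {M | M ∈ Cor K Φ ∧ PermId π M.carrier} ∧
      ((∀ S ∈ Φ, PermId π S.carrier) → DecidableClass (Cor K Φ)) := by
  have h := decidable_perm K hK Φ hΦ π hπ
  refine ⟨h, fun hS => DecidableClass.congr' h ?_⟩
  ext M
  refine ⟨fun hM => hM.1, fun hM => ⟨hM, ?_⟩⟩
  have hn := pos_of_ne_one hπ
  rw [permId_iff hn]
  exact FourOps.sat hK (fun S hS' => (permId_iff hn).1 (hS S hS')) M hM.1

end Pool.Agent.Lib.MP_88bd66_lcP
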