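import Pool.Agent.Lib.MP_88bd66_lcP.Nec
import Pool.Agent.Lib.MP_88bd66_lcP.Lrb
import Pool.Agent.Lib.MP_88bd66_lcP.Main
import Pool.Agent.Lib.MP_88bd66_lcP.DefsCr

/-!
The completely regular members with abelian subgroups of a kernel form a decidable class.
-/

set_option autoImplicit false

namespace Pool.Agent.Lib.MP_88bd66_lcP

open FreeSemigroup Pool.Agent.Lib.MP_88bd66_lc

section

variable {M : Type} [Semigroup M] {c t : ℕ}

theorem pw_comm_mul {x y : M} (hxy : x * y = y * x) (k : ℕ) : pw x k * pw y k = pw (x * y) k := by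
  have h1 : ∀ k, y * pw x k = pw x k * y := by
    intro k
    induction k with
    | zero => exact hxy.symm
    | succ k ih => rw [pw_succ, ← mul_assoc, ih, mul_assoc, ← hxy, mul_assoc]
  induction k with
  | zero => rfl
  | succ k ih =>
    rw [pw_succ (x * y), ← ih, pw_succ x, pw_succ' y]
    calc pw x k * x * (y * pw y k) = pw x k * (x * y) * pw y k := by simp only [mul_assoc]
      _ = pw x k * (x * y * pw y k) := mul_assoc _ _ _
      _ = pw x k * (pw y k * (x * y)) := by
          congr 1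
          have h2 : ∀ k, x * y * pw y k = pw y k * (x * y) := by
            intro k
            induction k with
            | zero =>
              change x * y * y = y * (x * y)
              rw [hxy, mul_assoc, hxy]
            | succ k ih =>
              rw [pw_succ, ← mul_assoc, ih, mul_assoc, mul_assoc (pw y k)]
              congr 1
              rw [hxy, mul_assoc, hxy]
          exact h2 k
      _ = pw x k * pw y k * (x * y) := (mul_assoc _ _ _).symm

theorem cr_of_crab (h : CRAb M) (hp : PowL c M) : CR c M := by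
  intro x
  obtain ⟨y, h1, h2⟩ := h.1 x
  have hg : x * y * (x * y) = x * y := by rw [← mul_assoc, h1]
  have h3 : pw x c * pw y c = x * y := by rw [pw_comm_mul h2, pw_idem hg]
  have h4 : pw x c * (x * y) = pw x c := by
    refine pw_mul ?_ c
    rw [h2, ← mul_assoc, h1]
  have h5 : pw x c * (x * y) = x * y := by
    conv_lhs => rw [← h3, ← mul_assoc, hp x]
    exact h3
  rw [← h4, h5, h1]

theorem central (h : CR c M) (hyp : HypS t M) {e f x : M} (he : e * e = e) (ff : f * f = f)
    (ef : e * f = f) (fe : f * e = f) (ex : e * x = x) (xe : x * e = x) : x * f = f * x := by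
  have h1 : f * (x * f) = x * f := by
    obtain ⟨k, hk⟩ : ∃ k, k = pw (x * f) c := ⟨_, rfl⟩
    have hkk : k * k = k := by rw [hk]; exact h.idem _
    have hkf : k * f = k := by rw [hk]; exact pw_mul (by rw [mul_assoc, ff]) c
    have hek : e * k = k := by rw [hk]; exact mul_pw (by rw [← mul_assoc, ex]) c
    have hke : k * e = k := by rw [← hkf, mul_assoc, fe]
    have hkx : k * (x * f) = x * f := by rw [hk]; exact h _
    have e1 : k = f * k := hyp.locL (e := e) he hek hke (by rw [← mul_assoc, ef])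
      (by rw [mul_assoc, hke]) hkk (by rw [mul_assoc, ← mul_assoc k, hkf, hkk])
      (by rw [← mul_assoc, hkf, hkk]) (by rw [mul_assoc, hkk])
    calc f * (x * f) = f * (k * (x * f)) := by rw [hkx]
      _ = f * k * (x * f) := (mul_assoc _ _ _).symm
      _ = x * f := by rw [← e1, hkx]
  have h2 : f * x * f = f * x := by
    obtain ⟨k, hk⟩ : ∃ k, k = pw (f * x) c := ⟨_, rfl⟩
    have hkk : k * k = k := by rw [hk]; exact h.idem _
    have hfk : f * k = k := by rw [hk]; exact mul_pw (by rw [← mul_assoc, ff]) c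
    have hke : k * e = k := by rw [hk]; exact pw_mul (by rw [mul_assoc, xe]) c
    have hek : e * k = k := by rw [← hfk, ← mul_assoc, ef]
    have hxk : f * x * k = f * x := by rw [hk]; exact h.mul_o _
    have e1 : k = k * f := hyp.locR (e := e) he hek hke (by rw [← mul_assoc, hek])
      (by rw [mul_assoc, fe]) hkk (by rw [mul_assoc, ← mul_assoc f, hfk, ← mul_assoc, hkk])
      (by rw [← mul_assoc, hkk]) (by rw [mul_assoc, hfk, hkk])
    calc f * x * f = f * x * k * f := by rw [hxk]
      _ = f * x * (k * f) := mul_assoc _ _ _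
      _ = f * x := by rw [← e1, hxk]
  rw [← h1, ← mul_assoc, h2]

theorem lc_of_hyp (h : CR c M) (hyp : HypS t M)
    (hab : ∀ e a b : M, InSub e a → InSub e b → a * b = b * a) : LC c M := by
  intro x y z
  have he := h.idem x
  generalize pw x c = e at he
  obtain ⟨a, ha⟩ : ∃ a, a = e * y * e := ⟨_, rfl⟩
  obtain ⟨b, hb⟩ : ∃ b, b = e * z * e := ⟨_, rfl⟩
  rw [← ha, ← hb]
  have hea : e * a = a := by rw [ha, ← mul_assoc, ← mul_assoc, he]
  have hae : a * e = a := by rw [ha, mul_assoc, he]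
  have heb : e * b = b := by rw [hb, ← mul_assoc, ← mul_assoc, he]
  have hbe : b * e = b := by rw [hb, mul_assoc, he]
  obtain ⟨p, hp⟩ : ∃ p, p = pw a c := ⟨_, rfl⟩
  obtain ⟨q, hq⟩ : ∃ q, q = pw b c := ⟨_, rfl⟩
  have hpp : p * p = p := by rw [hp]; exact h.idem _
  have hqq : q * q = q := by rw [hq]; exact h.idem _
  have hep : e * p = p := by rw [hp]; exact mul_pw hea c
  have hpe : p * e = p := by rw [hp]; exact pw_mul hae c
  have heq : e * q = q := by rw [hq]; exact mul_pw heb c
  have hqe : q * e = q := by rw [hq]; exact pw_mul hbe c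
  have hap : a * p = a := by rw [hp]; exact h.mul_o a
  have hbq : b * q = b := by rw [hq]; exact h.mul_o b
  have hcp : ∀ s, e * s = s → s * e = s → s * p = p * s := fun s h1 h2 =>
    central h hyp he hpp hep hpe h1 h2
  have hcq : ∀ s, e * s = s → s * e = s → s * q = q * s := fun s h1 h2 =>
    central h hyp he hqq heq hqe h1 h2
  obtain ⟨g, hg⟩ : ∃ g, g = p * q := ⟨_, rfl⟩
  have hgg : g * g = g := by
    calc g * g = p * (q * p) * q := by rw [hg]; simp only [mul_assoc]
      _ = p * (p * q) * q := by rw [hcp q heq hqe]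
      _ = p * p * (q * q) := by simp only [mul_assoc]
      _ = g := by rw [hpp, hqq, hg]
  have heg : e * g = g := by rw [hg, ← mul_assoc, hep]
  have hge : g * e = g := by rw [hg, mul_assoc, hqe]
  have hcg : ∀ s, e * s = s → s * e = s → s * g = g * s := fun s h1 h2 =>
    central h hyp he hgg heg hge h1 h2
  have hpg : p * g = g := by rw [hg, ← mul_assoc, hpp]
  have hqg : q * g = g := by rw [hg, ← mul_assoc, hcp q heq hqe, mul_assoc, hqq]
  have hin : ∀ s, e * s = s → s * e = s → pw s c * g = g → InSub g (s * g) := by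
    intro s h1 h2 h3
    refine ⟨?_, by rw [mul_assoc, hgg], pw s (2 * c) * g, ?_, ?_⟩
    · rw [← mul_assoc, ← hcg s h1 h2, mul_assoc, hgg]
    · have hi1 : e * pw s (2 * c) = pw s (2 * c) := mul_pw h1 _
      have hi2 : pw s (2 * c) * e = pw s (2 * c) := pw_mul h2 _
      calc s * g * (pw s (2 * c) * g) = s * (g * pw s (2 * c)) * g := by simp only [mul_assoc]
        _ = s * (pw s (2 * c) * g) * g := by rw [← hcg _ hi1 hi2]
        _ = s * pw s (2 * c) * (g * g) := by simp only [mul_assoc]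
        _ = g := by rw [h.mul_iv, hgg, h3]
    · calc pw s (2 * c) * g * (s * g) = pw s (2 * c) * (g * s) * g := by simp only [mul_assoc]
        _ = pw s (2 * c) * (s * g) * g := by rw [← hcg _ h1 h2]
        _ = pw s (2 * c) * s * (g * g) := by simp only [mul_assoc]
        _ = g := by rw [h.iv_mul, hgg, h3]
  have hA := hin a hea hae (by rw [← hp]; exact hpg)
  have hB := hin b heb hbe (by rw [← hq]; exact hqg)
  have hAB := hab g _ _ hA hB
  have hmul : ∀ s r, e * s = s → s * e = s → e * r = r → r * e = r →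
      s * g * (r * g) = s * r * g := by
    intro s r h1 h2 h3 h4
    calc s * g * (r * g) = s * (g * r) * g := by simp only [mul_assoc]
      _ = s * (r * g) * g := by rw [← hcg r h3 h4]
      _ = s * r * (g * g) := by simp only [mul_assoc]
      _ = s * r * g := by rw [hgg]
  rw [hmul a b hea hae heb hbe, hmul b a heb hbe hea hae] at hAB
  have h1 : a * b * g = a * b := by
    calc a * b * g = a * (b * p) * q := by rw [hg]; simp only [mul_assoc]
      _ = a * (p * b) * q := by rw [hcp b heb hbe]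
      _ = a * p * (b * q) := by simp only [mul_assoc]
      _ = a * b := by rw [hap, hbq]
  have h2 : b * a * g = b * a := by
    calc b * a * g = b * (a * p) * q := by rw [hg]; simp only [mul_assoc]
      _ = b * (a * q) := by rw [hap, mul_assoc]
      _ = b * (q * a) := by rw [hcq a hea hae]
      _ = b * q * a := (mul_assoc _ _ _).symm
      _ = b * a := by rw [hbq]
  rw [← h1, hAB, h2]

theorem pw_of_inSub (h : CR c M) {e a : M} (ha : InSub e a) : e * e = e ∧ pw a c = e := by
  obtain ⟨h1, h2, b, h3, h4⟩ := ha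
  have he : e * e = e := by
    calc e * e = e * (a * b) := by rw [h3]
      _ = e := by rw [← mul_assoc, h1, h3]
  refine ⟨he, ?_⟩
  have := h.loc_o he (b := a) ⟨e, b, by rw [h1, h3]⟩
  rwa [h1, h2] at this

theorem crab_of_lc (h : CR c M) (hl : LC c M) : CRAb M := by
  refine ⟨fun x => ⟨pw x (2 * c), by rw [h.mul_iv, h], by rw [h.mul_iv, h.iv_mul]⟩, ?_⟩
  intro e a b ha hb
  exact hl.comm' (pw_of_inSub h ha).1 ha.1 ha.2.1 hb.1 hb.2.1

/-- the identity which says that subgroups are abelian -/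
def AB (c : ℕ) (M : Type) [Semigroup M] : Prop := ∀ x y : M,
  pw (x * y) c * x * pw (x * y) c * (pw (x * y) c * y * pw (x * y) c) =
    pw (x * y) c * y * pw (x * y) c * (pw (x * y) c * x * pw (x * y) c)

theorem ab_of_crab (h : CR c M) (hab : CRAb M) : AB c M := by
  intro x y
  have hg := h.idem (x * y)
  have h1 : Jle (pw (x * y) c) x := (h.pw_jle _ _).trans (h.jright x y)
  have h2 : Jle (pw (x * y) c) y := (h.pw_jle _ _).trans (h.jleft x y)
  generalize pw (x * y) c = g at *
  have hin : ∀ s, Jle g s → InSub g (g * s * g) := fun s hs =>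
    ⟨by rw [← mul_assoc, ← mul_assoc, hg], by rw [mul_assoc, hg], ivl c g s,
      mul_ivl h hg hs, ivl_mul h hg hs⟩
  exact hab.2 g _ _ (hin x h1) (hin y h2)

theorem crab_of_ab (h : CR c M) (hab : AB c M) : CRAb M := by
  refine ⟨fun x => ⟨pw x (2 * c), by rw [h.mul_iv, h], by rw [h.mul_iv, h.iv_mul]⟩, ?_⟩
  intro e a b ha hb
  have hin : InSub e (a * b) := by
    obtain ⟨h1, h2, a', h3, h4⟩ := ha
    obtain ⟨h5, h6, b', h7, h8⟩ := hb
    refine ⟨by rw [← mul_assoc, h1], by rw [mul_assoc, h6], b' * a', ?_, ?_⟩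
    · calc a * b * (b' * a') = a * (b * b') * a' := by simp only [mul_assoc]
        _ = e := by rw [h7, h2, h3]
    · calc b' * a' * (a * b) = b' * (a' * a) * b := by simp only [mul_assoc]
        _ = b' * (e * b) := by rw [h4, mul_assoc]
        _ = e := by rw [h5, h8]
  have := hab a b
  rw [(pw_of_inSub h hin).2, ha.1, ha.2.1, hb.1, hb.2.1] at this
  exact this

end

/-! ### Identities -/

theorem cr_iff {c : ℕ} {M : Type} [Semigroup M] : CR c M ↔ Sat M (pw A0 c * A0) A0 := by
  rw [sat2]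
  simp only [map_mul, pw_map, lift_of]
  exact ⟨fun h x _ => h x, fun h x => h x x⟩

/-- the word of the idempotent of the product -/
def gw (c : ℕ) : Wd 2 := pw (A0 * A1) c

theorem ab_iff {c : ℕ} {M : Type} [Semigroup M] : AB c M ↔
    Sat M (gw c * A0 * gw c * (gw c * A1 * gw c)) (gw c * A1 * gw c * (gw c * A0 * gw c)) := by
  rw [sat2]
  simp only [gw, map_mul, pw_map, lift_of]
  rfl

theorem lc_iff {c : ℕ} {M : Type} [Semigroup M] : LC c M ↔
    Sat M (pw (of 0 : Wd 3) c * of 1 * pw (of 0 : Wd 3) c *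
      (pw (of 0 : Wd 3) c * of 2 * pw (of 0 : Wd 3) c))
      (pw (of 0 : Wd 3) c * of 2 * pw (of 0 : Wd 3) c *
      (pw (of 0 : Wd 3) c * of 1 * pw (of 0 : Wd 3) c)) := by
  constructor
  · intro h θ
    simp only [map_mul, pw_map, lift_of]
    exact h _ _ _
  · intro h x y z
    have := h ![x, y, z]
    simp only [map_mul, pw_map, lift_of] at this
    exact this

/-! ### Boundedness -/

theorem FourOps.bddS {K : Set FinSgrp → Set FinSgrp} (hK : FourOps K) {Φ : Set FinSgrp} {t : ℕ}
    (h : ∀ S ∈ Φ, Nat.card S.carrier ≤ t) : ∀ S ∈ K Φ, BddS t S.carrier := by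
  have key : ∀ C : Set FinSgrp, (∀ S ∈ C, Nat.card S.carrier ≤ t) →
      ∀ S ∈ opS (opH (opP C)), BddS t S.carrier := by
    rintro C hC S ⟨R, ⟨Q, ⟨n, _, T, hT, ⟨e⟩⟩, g, hg⟩, f, hf⟩
    refine ⟨n, fun i => (T i).carrier, fun i => inferInstance, R.carrier, inferInstance,
      fun i => inferInstance, fun i => hC _ (hT i),
      g.comp (e.symm : (∀ i, (T i).carrier) →ₙ* Q.carrier), f, ?_, hf⟩
    exact hg.comp e.symm.surjective
  have key' : ∀ C : Set FinSgrp, (∀ S ∈ C, Nat.card S.carrier ≤ t) →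
      ∀ S ∈ opH (opP C), BddS t S.carrier := fun C hC S hS =>
    key C hC S ⟨S, hS, MulHom.id _, Function.injective_id⟩
  rcases hK with rfl | rfl | rfl | rfl
  · exact key' _ h
  · exact key' _ (card_opS h)
  · exact key _ h
  · exact key _ (card_opS h)

theorem hypS_of_mem {t : ℕ} {K : Set FinSgrp → Set FinSgrp} {Φ : Set FinSgrp}
    (hK : ∀ S ∈ K Φ, BddS t S.carrier) {M : FinSgrp} (hM : M ∈ Cor K Φ) : HypS t M.carrier := by
  intro S sg hfin hne hle
  exact hK (FinSgrp.mk S) (hM.2 (mem_HSP_of_idLe (S := FinSgrp.mk S) hle))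

theorem decidable_cr (K : Set FinSgrp → Set FinSgrp) (hK : FourOps K) (Φ : Set FinSgrp)
    (hΦ : FiniteClass Φ) : DecidableClass {M | M ∈ Cor K Φ ∧ CRAb M.carrier} := by
  obtain ⟨t, ht, hbd⟩ := hΦ.bound
  have hbS := hK.bddS hbd
  have hpow : ∀ S ∈ K Φ, PowL (t.factorial - 1) S.carrier := by
    intro S hS
    rw [powL_iff]
    refine hK.sat (fun S hS => ?_) S hS
    rw [← powL_iff]
    exact fun x => om_idem (hbd S hS) ht x
  generalize t.factorial - 1 = c at hpow
  have hgood : ∀ M ∈ Cor K Φ, CRAb M.carrier → CR c M.carrier ∧ LC c M.carrier := by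
    intro M hM hab
    have h1 := cr_of_crab hab (hpow M hM.1)
    exact ⟨h1, lc_of_hyp h1 (hypS_of_mem hbS hM) hab.2⟩
  -- the profile
  let h : List Prop → Prop := fun l =>
    ∃ M ∈ Cor K Φ, CRAb M.carrier ∧ (TL c).map (fun e => Sat M.carrier e.1 e.2) = l
  have hex : ∀ e : Wd 2 × Wd 2, ∃ P : Tb → Prop, PrimrecPred P ∧
      ∀ (m : ℕ) (s : Semigroup (Fin m)), P (table s) ↔ @Sat (Fin m) s 2 e.1 e.2 :=
    fun e => primrec_sat e.1 e.2
  choose P hP1 hP2 using hex
  obtain ⟨P1, h1, h1'⟩ := primrec_sat (pw A0 c * A0) A0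
  obtain ⟨P2, h2, h2'⟩ := primrec_sat (pw (of 0 : Wd 3) c * of 1 * pw (of 0 : Wd 3) c *
      (pw (of 0 : Wd 3) c * of 2 * pw (of 0 : Wd 3) c))
      (pw (of 0 : Wd 3) c * of 2 * pw (of 0 : Wd 3) c *
      (pw (of 0 : Wd 3) c * of 1 * pw (of 0 : Wd 3) c))
  have h3 := primrec_profile ((TL c).map P) (by
    intro Q hQ
    rw [List.mem_map] at hQ
    obtain ⟨e, _, rfl⟩ := hQ
    exact hP1 e) h
  obtain ⟨inst, hp⟩ := (h1.and h2).and h3
  refine ⟨_, hp.to_comp, ?_⟩
  intro m ne s
  rw [decide_eq_true_iff]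
  change ((P1 (table s) ∧ P2 (table s)) ∧ h (((TL c).map P).map (fun P => P (table s)))) ↔ _
  have e1 : ((TL c).map P).map (fun P => P (table s)) =
      (TL c).map fun e => @Sat (Fin m) s 2 e.1 e.2 := by
    rw [List.map_map]
    exact List.map_congr_left fun e _ => propext (hP2 e m s)
  rw [e1, h1', h2', ← @cr_iff c (Fin m) s, ← @lc_iff c (Fin m) s]
  constructor
  · rintro ⟨⟨h4, h5⟩, M, hM, hab, hprof⟩
    have hpt : ∀ e ∈ TL c, Sat M.carrier e.1 e.2 = @Sat (Fin m) s 2 e.1 e.2 :=
      List.map_inj_left.1 hprof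
    obtain ⟨h6, h7⟩ := hgood M hM hab
    have hle : @IdLe M.carrier (Fin m) _ s :=
      @transfer_cr c M.carrier _ (Fin m) s h6 h7 h4 h5 fun e he hs => by
        rw [← hpt e he]
        exact hs
    exact ⟨mem_of_idLe hM hle, @crab_of_lc (Fin m) s c h4 h5⟩
  · rintro ⟨hM, hab⟩
    exact ⟨hgood _ hM hab, _, hM, hab, rfl⟩

theorem main_cr (K : Set FinSgrp → Set FinSgrp)
    (hK : K = (fun C => opH (opP C)) ∨ K = (fun C => opH (opP (opS C))) ∨
      K = (fun C => opS (opH (opP C))) ∨ K = (fun C => opS (opH (opP (opS C)))))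
    (Φ : Set FinSgrp) (hΦ : FiniteClass Φ) :
    DecidableClass {M | M ∈ Cor K Φ ∧ CRAb M.carrier} ∧
      ((∀ S ∈ Φ, CRAb S.carrier) → DecidableClass (Cor K Φ)) := by
  have hdec := decidable_cr K hK Φ hΦ
  refine ⟨hdec, fun hS => DecidableClass.congr' hdec ?_⟩
  obtain ⟨t, ht, hbd⟩ := hΦ.bound
  have hcr : ∀ S ∈ Φ, CR (t.factorial - 1) S.carrier := fun S hS' =>
    cr_of_crab (hS S hS') fun x => om_idem (hbd S hS') ht x
  have hab : ∀ S ∈ Φ, AB (t.factorial - 1) S.carrier := fun S hS' =>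
    ab_of_crab (hcr S hS') (hS S hS')
  ext M
  refine ⟨fun hM => hM.1, fun hM => ⟨hM, ?_⟩⟩
  refine crab_of_ab (c := t.factorial - 1) ?_ ?_
  · rw [cr_iff]
    exact FourOps.sat hK (fun S hS' => cr_iff.1 (hcr S hS')) M hM.1
  · rw [ab_iff]
    exact FourOps.sat hK (fun S hS' => ab_iff.1 (hab S hS')) M hM.1

end Pool.Agent.Lib.MP_88bd66_lcP
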