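import Pool.Agent.Lib.MP_88bd66_lcP.EFlip
import Pool.Agent.Lib.MP_88bd66_lcP.EDich
import Pool.Agent.Lib.MP_88bd66_lcP.EStruct

/-!
Kernels for semigroups with commuting idempotents and abelian subgroups.
-/

set_option autoImplicit false

namespace Pool.Agent.Lib.MP_88bd66_lcP

open FreeSemigroup Pool.Agent.Lib.MP_88bd66_lc

/-! ### Abelian subgroups -/

/-- the subgroups are abelian -/
def AbS (M : Type) [Semigroup M] : Prop := ∀ e a b : M, InSub e a → InSub e b → a * b = b * a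

theorem InSub.map {S T : Type} [Semigroup S] [Semigroup T] (f : S →ₙ* T) {e a : S}
    (h : InSub e a) : InSub (f e) (f a) := by
  obtain ⟨h1, h2, b, h3, h4⟩ := h
  exact ⟨by rw [← map_mul, h1], by rw [← map_mul, h2], f b, by rw [← map_mul, h3],
    by rw [← map_mul, h4]⟩

theorem abS_of_inj {S T : Type} [Semigroup S] [Semigroup T] (f : S →ₙ* T)
    (hf : Function.Injective f) (h : AbS T) : AbS S := by
  intro e a b ha hb
  apply hf
  rw [map_mul, map_mul]
  exact h _ _ _ (ha.map f) (hb.map f)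

theorem abS_pi {ι : Type} (T : ι → Type) [∀ i, Semigroup (T i)] (h : ∀ i, AbS (T i)) :
    AbS (∀ i, T i) := by
  intro e a b ha hb
  funext i
  let pr : (∀ i, T i) →ₙ* T i := ⟨fun p => p i, fun _ _ => rfl⟩
  exact h i _ _ _ (ha.map pr) (hb.map pr)

theorem abS_of_surj {S T : Type} [Semigroup S] [Semigroup T] [Finite S] (f : S →ₙ* T)
    (hf : Function.Surjective f) (h : AbS S) : AbS T := by
  intro e a b ha hb
  obtain ⟨c, hc⟩ : ∃ c, ∀ x : S, pw x c * pw x c = pw x c :=
    ⟨(Nat.card S + 1).factorial - 1, fun x => om_idem (by omega) (by omega) x⟩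
  -- the idempotents over `e`
  let E : Set S := {i | i * i = i ∧ f i = e}
  have hpwe : ∀ x : S, InSub e (f x) → f (pw x c) = e := by
    intro x hx
    obtain ⟨h1, h2, b, h3, h4⟩ := hx
    have hid : f (pw x c) * f (pw x c) = f (pw x c) := by rw [← map_mul, hc]
    rw [pw_map] at hid ⊢
    have h5 : pw (f x) c * e = pw (f x) c := pw_mul h2 c
    have h6 : ∀ k, ∃ b', pw (f x) k * b' = e := by
      intro k
      induction k with
      | zero => exact ⟨b, h3⟩
      | succ k ih =>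
        obtain ⟨b', hb'⟩ := ih
        refine ⟨b * b', ?_⟩
        rw [pw_succ, mul_assoc, ← mul_assoc (f x), h3]
        cases k with
        | zero => rw [pw_zero] at hb' ⊢; rw [← mul_assoc, h2, hb']
        | succ k => rw [← mul_assoc, pw_mul h2, hb']
    obtain ⟨b', hb'⟩ := h6 c
    calc pw (f x) c = pw (f x) c * e := h5.symm
      _ = pw (f x) c * (pw (f x) c * b') := by rw [hb']
      _ = e := by rw [← mul_assoc, hid, hb']
  obtain ⟨x, hx⟩ := hf a
  obtain ⟨y, hy⟩ := hf b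
  have hE : E.Nonempty := ⟨pw x c, hc x, hpwe x (by rw [hx]; exact ha)⟩
  let μ : S → ℕ := fun i => {x : S | i * x = x ∧ x * i = x}.ncard
  obtain ⟨i, hi, hmin⟩ := WellFounded.has_min (measure μ).wf E hE
  have hmin' : ∀ j ∈ E, i * j = j → j * i = j → j = i := by
    intro j hj h1 h2
    have hsub : {x : S | j * x = x ∧ x * j = x} ⊆ {x | i * x = x ∧ x * i = x} := by
      rintro x ⟨h3, h4⟩
      refine ⟨?_, ?_⟩
      · rw [← h3, ← mul_assoc, h1]
      · rw [← h4, mul_assoc, h2]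
    have hle : {x : S | i * x = x ∧ x * i = x}.ncard ≤ {x : S | j * x = x ∧ x * j = x}.ncard :=
      not_lt.1 (hmin j hj)
    have heq := Set.eq_of_subset_of_ncard_le hsub hle (Set.toFinite _)
    have : i ∈ {x : S | j * x = x ∧ x * j = x} := by
      rw [heq]
      exact ⟨hi.1, hi.1⟩
    rw [← h2, this.1]
  obtain ⟨ii, fi⟩ := hi
  have key : ∀ x : S, InSub e (f x) → InSub i (i * x * i) := by
    intro x hx
    have h1 : i * (i * x * i) = i * x * i := by rw [← mul_assoc, ← mul_assoc, ii]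
    have h2 : i * x * i * i = i * x * i := by rw [mul_assoc, ii]
    have h3 : f (i * x * i) = f x := by
      rw [map_mul, map_mul, fi, hx.1, hx.2.1]
    have h4 : pw (i * x * i) c = i :=
      hmin' _ ⟨hc _, hpwe _ (by rw [h3]; exact hx)⟩ (mul_pw h1 c) (pw_mul h2 c)
    refine ⟨h1, h2, pw (i * x * i) (2 * c), ?_, ?_⟩
    · rw [← pw_succ', show 2 * c + 1 = c + c + 1 by ring, ← pw_add, hc, h4]
    · rw [← pw_succ, show 2 * c + 1 = c + c + 1 by ring, ← pw_add, hc, h4]
  have hcomm := h _ _ _ (key x (by rw [hx]; exact ha)) (key y (by rw [hy]; exact hb))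
  have hfx : f (i * x * i) = a := by rw [map_mul, map_mul, fi, hx, ha.1, ha.2.1]
  have hfy : f (i * y * i) = b := by rw [map_mul, map_mul, fi, hy, hb.1, hb.2.1]
  rw [← hfx, ← hfy, ← map_mul, ← map_mul, hcomm]

theorem FourOps.abS {K : Set FinSgrp → Set FinSgrp} (hK : FourOps K) {Φ : Set FinSgrp}
    (h : ∀ S ∈ Φ, AbS S.carrier) : ∀ S ∈ K Φ, AbS S.carrier := by
  have hH : ∀ C : Set FinSgrp, (∀ S ∈ C, AbS S.carrier) → ∀ S ∈ opH C, AbS S.carrier := by
    rintro C hC S ⟨T, hT, f, hf⟩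
    exact abS_of_surj f hf (hC T hT)
  have hS : ∀ C : Set FinSgrp, (∀ S ∈ C, AbS S.carrier) → ∀ S ∈ opS C, AbS S.carrier := by
    rintro C hC S ⟨T, hT, f, hf⟩
    exact abS_of_inj f hf (hC T hT)
  have hP : ∀ C : Set FinSgrp, (∀ S ∈ C, AbS S.carrier) → ∀ S ∈ opP C, AbS S.carrier := by
    rintro C hC S ⟨n, _, T, hT, ⟨e⟩⟩
    exact abS_of_inj (e : S.carrier →ₙ* _) e.injective (abS_pi _ fun i => hC _ (hT i))
  rcases hK with rfl | rfl | rfl | rfl
  · exact hH _ (hP _ h)
  · exact hH _ (hP _ (hS _ h))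
  · exact hS _ (hH _ (hP _ h))
  · exact hS _ (hH _ (hP _ (hS _ h)))

/-! ### Commuting idempotents -/

theorem ci_iff {c : ℕ} {M : Type} [Semigroup M] : CI c M ↔
    Sat M (of 0 * pw (of 1) c * pw (of 2) c * of 3 : Wd 4)
      (of 0 * pw (of 2) c * pw (of 1) c * of 3) := by
  constructor
  · intro h θ
    simp only [map_mul, pw_map, lift_of]
    exact h _ _ _ _
  · intro h x a b y
    have := h ![x, a, b, y]
    simp only [map_mul, pw_map, lift_of] at this
    exact this

theorem ce_of_ci {c : ℕ} {M : Type} [Semigroup M] (h : CI c M) : CE M := by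
  intro x e f y he hf
  have := h x e f y
  rwa [pw_idem he, pw_idem hf] at this

theorem ci_of_ce {c : ℕ} {M : Type} [Semigroup M] (h : CE M) (hc : PowL c M) : CI c M :=
  fun x a b y => h x _ _ y (hc a) (hc b)

theorem FourOps.bddE {K : Set FinSgrp → Set FinSgrp} (hK : FourOps K) {Φ : Set FinSgrp} {t c : ℕ}
    (h : ∀ S ∈ Φ, Nat.card S.carrier ≤ t) (h' : ∀ S ∈ Φ, CI c S.carrier) :
    ∀ S ∈ K Φ, BddE t c S.carrier := by
  have key : ∀ C : Set FinSgrp, (∀ S ∈ C, Nat.card S.carrier ≤ t) → (∀ S ∈ C, CI c S.carrier) →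
      ∀ S ∈ opS (opH (opP C)), BddE t c S.carrier := by
    rintro C hC hC' S ⟨R, ⟨Q, ⟨n, _, T, hT, ⟨e⟩⟩, g, hg⟩, f, hf⟩
    refine ⟨n, fun i => (T i).carrier, fun i => inferInstance, R.carrier, inferInstance,
      fun i => inferInstance, fun i => hC _ (hT i), fun i => hC' _ (hT i),
      g.comp (e.symm : (∀ i, (T i).carrier) →ₙ* Q.carrier), f, ?_, hf⟩
    exact hg.comp e.symm.surjective
  have key' : ∀ C : Set FinSgrp, (∀ S ∈ C, Nat.card S.carrier ≤ t) → (∀ S ∈ C, CI c S.carrier) →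
      ∀ S ∈ opH (opP C), BddE t c S.carrier := fun C hC hC' S hS =>
    key C hC hC' S ⟨S, hS, MulHom.id _, Function.injective_id⟩
  have hci : ∀ S ∈ opS Φ, CI c S.carrier := fun S hS =>
    ci_iff.2 (sat_opS (fun S hS => ci_iff.1 (h' S hS)) S hS)
  rcases hK with rfl | rfl | rfl | rfl
  · exact key' _ h h'
  · exact key' _ (card_opS h) hci
  · exact key _ h h'
  · exact key _ (card_opS h) hci

theorem hypE_of_mem {t c : ℕ} {K : Set FinSgrp → Set FinSgrp} {Φ : Set FinSgrp}
    (hK : ∀ S ∈ K Φ, BddE t c S.carrier) {M : FinSgrp} (hM : M ∈ Cor K Φ) :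
    HypE t c M.carrier := by
  intro S sg hfin hne hle
  exact hK (FinSgrp.mk S) (hM.2 (mem_HSP_of_idLe (S := FinSgrp.mk S) hle))

/-! ### The theorem -/

/-- the transposition of the two middle letters -/
def mt (k : ℕ) : Equiv.Perm (Fin (k + (2 + k))) :=
  Equiv.swap (Fin.natAdd k (Fin.castAdd k 0)) (Fin.natAdd k (Fin.castAdd k 1))

theorem mt_ne (k : ℕ) : mt k ≠ 1 := by
  intro h
  have h1 := Equiv.swap_eq_one_iff.1 h
  have h2 := congrArg Fin.val h1
  simp at h2

theorem permId_of_permutative {k : ℕ} {M : Type} [Semigroup M] (h : Permutative k M) :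
    PermId (mt k) M := by
  intro x
  have e : ∀ z : Fin (k + (2 + k)) → M, (List.ofFn fun i => (z i : WithOne M)).prod =
      pr (List.ofFn fun i : Fin k => z (Fin.castAdd _ i)) *
        z (Fin.natAdd k (Fin.castAdd k 0)) * z (Fin.natAdd k (Fin.castAdd k 1)) *
        pr (List.ofFn fun i : Fin k => z (Fin.natAdd k (Fin.natAdd 2 i))) := by
    intro z
    rw [List.ofFn_add, List.prod_append, List.ofFn_add, List.prod_append]
    simp only [pr, List.map_ofFn, Function.comp_def, List.ofFn_succ, List.ofFn_zero,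
      List.prod_cons, List.prod_nil, mul_one, mul_assoc]
    rfl
  rw [e x, e fun i => x (mt k i)]
  have h1 : ∀ i : Fin k, mt k (Fin.castAdd _ i) = Fin.castAdd _ i := by
    intro i
    refine Equiv.swap_apply_of_ne_of_ne ?_ ?_ <;>
    · intro h'
      have := congrArg Fin.val h'
      simp at this <;> omega
  have h2 : ∀ i : Fin k, mt k (Fin.natAdd k (Fin.natAdd 2 i)) = Fin.natAdd k (Fin.natAdd 2 i) := by
    intro i
    refine Equiv.swap_apply_of_ne_of_ne ?_ ?_ <;>
    · intro h'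
      have := congrArg Fin.val h'
      simp at this <;> omega
  have h3 : mt k (Fin.natAdd k (Fin.castAdd k 0)) = Fin.natAdd k (Fin.castAdd k 1) :=
    Equiv.swap_apply_left _ _
  have h4 : mt k (Fin.natAdd k (Fin.castAdd k 1)) = Fin.natAdd k (Fin.castAdd k 0) :=
    Equiv.swap_apply_right _ _
  simp only [h1, h2, h3, h4]
  exact h _ _ _ _ (by simp) (by simp)

theorem main_ci (K : Set FinSgrp → Set FinSgrp)
    (hK : K = (fun C => opH (opP C)) ∨ K = (fun C => opH (opP (opS C))) ∨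
      K = (fun C => opS (opH (opP C))) ∨ K = (fun C => opS (opH (opP (opS C)))))
    (Φ : Set FinSgrp) (hΦ : FiniteClass Φ) (hci : ∀ S ∈ Φ, CIAb S.carrier) :
    DecidableClass (Cor K Φ) := by
  obtain ⟨t, ht, hbd⟩ := hΦ.bound
  have hK' : FourOps K := hK
  have hpowΦ : ∀ S ∈ Φ, PowL (t.factorial - 1) S.carrier := fun S hS x =>
    om_idem (hbd S hS) ht x
  have hpow : ∀ S ∈ K Φ, PowL (t.factorial - 1) S.carrier := by
    intro S hS
    rw [powL_iff]
    refine hK'.sat (fun S hS => ?_) S hS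
    rw [← powL_iff]
    exact hpowΦ S hS
  generalize t.factorial - 1 = c at hpow hpowΦ
  have hciΦ : ∀ S ∈ Φ, CI c S.carrier := fun S hS => ci_of_ce (hci S hS).1 (hpowΦ S hS)
  have hciK : ∀ S ∈ K Φ, CI c S.carrier := fun S hS =>
    ci_iff.2 (hK'.sat (fun S hS => ci_iff.1 (hciΦ S hS)) S hS)
  have habK : ∀ S ∈ K Φ, AbS S.carrier := hK'.abS fun S hS => (hci S hS).2
  have hbE := hK'.bddE hbd hciΦ
  have hperm : ∀ M ∈ Cor K Φ, Permutative (2 * c + 4) M.carrier := by
    intro M hM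
    obtain ⟨N, u, v, h1, h2, h3, h4⟩ := exists_id (hypE_of_mem hbE hM)
    rcases dich h1 h2 h3 h4 with h | h
    · exact h
    · exact h.permutative (hpow M hM.1) (ce_of_ci (hciK M hM.1)) (habK M hM.1)
  refine DecidableClass.congr' (main_perm K hK Φ hΦ (mt (2 * c + 4)) (mt_ne _)).1 ?_
  ext M
  exact ⟨fun h => h.1, fun h => ⟨h, permId_of_permutative (hperm M h)⟩⟩

end Pool.Agent.Lib.MP_88bd66_lcP
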