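import Pool.Agent.Lib.MP_88bd66_lc.Final

/-!
Mixtures: left congruences of bounded index on monoids with a left zero, when the monoid embeds
into a homomorphic image of a product of small semigroups.
-/

set_option autoImplicit false

namespace Pool.Agent.Lib.MP_88bd66_lcP

open Pool.Agent.Lib.MP_88bd66_lc

/-- `S` embeds into a homomorphic image of a product of semigroups with at most `t` elements. -/
def BddS (t : ℕ) (S : Type) [Semigroup S] : Prop :=
  ∃ (r : ℕ) (T : Fin r → Type) (_ : ∀ i, Semigroup (T i)) (Q : Type) (_ : Semigroup Q),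
    (∀ i, Finite (T i)) ∧ (∀ i, Nat.card (T i) ≤ t) ∧
    ∃ (p : (∀ i, T i) →ₙ* Q) (f : S →ₙ* Q), Function.Surjective p ∧ Function.Injective f

theorem pw_idem {S : Type} [Semigroup S] {x : S} (h : x * x = x) (k : ℕ) : pw x k = x := by
  induction k with
  | zero => rfl
  | succ k ih => rw [pw_succ, ih, h]

theorem mul_pw {S : Type} [Semigroup S] {e x : S} (h : e * x = x) (k : ℕ) :
    e * pw x k = pw x k := by
  induction k with
  | zero => exact h
  | succ k ih => rw [pw_succ, ← mul_assoc, ih]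

theorem pw_mul {S : Type} [Semigroup S] {e x : S} (h : x * e = x) (k : ℕ) :
    pw x k * e = pw x k := by
  cases k with
  | zero => exact h
  | succ k => rw [pw_succ, mul_assoc, h]

/-- The data of a cover. -/
structure Cov (P Q S : Type) [Semigroup P] [Semigroup Q] [Monoid S] (z : S) where
  p : P →ₙ* Q
  f : S →ₙ* Q
  surj : Function.Surjective p
  inj : Function.Injective f
  hz : ∀ s : S, z * s = z
  c : ℕ
  hc : ∀ x : P, pw x c * pw x c = pw x c
  u : P
  hu : u * u = u
  pu : p u = f 1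
  e : P
  he : e * e = e
  ue : u * e = e
  eu : e * u = e
  pe : p e = f z
  key : ∀ x : P, (∃ s, p x = f s) → pw (e * x * e) c = e

namespace Cov

variable {P Q S : Type} [Semigroup P] [Semigroup Q] [Monoid S] {z : S} (D : Cov P Q S z)

/-- the inverse in the maximal subgroup -/
def J (x : P) : P := pw (D.e * x * D.e) (2 * D.c)

/-- the normalised lift -/
def bar (x : P) : P := x * D.e * D.J x

variable {D}

theorem mul_J {x : P} (hx : ∃ s, D.p x = D.f s) : D.e * x * D.e * D.J x = D.e := by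
  rw [J, ← pw_succ', show 2 * D.c + 1 = D.c + D.c + 1 by omega, ← pw_add, D.key x hx, D.he]

theorem J_mul {x : P} (hx : ∃ s, D.p x = D.f s) : D.J x * (D.e * x * D.e) = D.e := by
  rw [J, ← pw_succ, show 2 * D.c + 1 = D.c + D.c + 1 by omega, ← pw_add, D.key x hx, D.he]

theorem J_e (x : P) : D.J x * D.e = D.J x := pw_mul (by rw [mul_assoc, D.he]) _

theorem e_J (x : P) : D.e * D.J x = D.J x := mul_pw (by rw [← mul_assoc, ← mul_assoc, D.he]) _

theorem e_bar {x : P} (hx : ∃ s, D.p x = D.f s) : D.e * D.bar x = D.e := by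
  rw [bar, ← mul_assoc, ← mul_assoc, mul_J hx]

theorem bar_e (x : P) : D.bar x * D.e = D.bar x := by
  rw [bar, mul_assoc, J_e]

theorem u_bar {x : P} (hx : D.u * x = x) : D.u * D.bar x = D.bar x := by
  rw [bar, ← mul_assoc, ← mul_assoc, hx]

theorem p_J {x : P} {s : S} (hx : D.p x = D.f s) : D.p (D.J x) = D.f z := by
  rw [J, pw_map, map_mul, map_mul, hx, D.pe, ← map_mul, ← map_mul, D.hz, D.hz, ← pw_map,
    pw_idem (D.hz z)]

theorem p_bar {x : P} {s : S} (hx : D.p x = D.f s) : D.p (D.bar x) = D.f (s * z) := by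
  rw [bar, map_mul, map_mul, p_J hx, hx, D.pe, ← map_mul, ← map_mul, mul_assoc, D.hz]

theorem ex_bar {x : P} (hx : ∃ s, D.p x = D.f s) : ∃ s, D.p (D.bar x) = D.f s := by
  obtain ⟨s, hs⟩ := hx
  exact ⟨_, p_bar hs⟩

theorem ex_mul {x y : P} (hx : ∃ s, D.p x = D.f s) (hy : ∃ s, D.p y = D.f s) :
    ∃ s, D.p (x * y) = D.f s := by
  obtain ⟨s, hs⟩ := hx
  obtain ⟨s', hs'⟩ := hy
  exact ⟨s * s', by rw [map_mul, map_mul, hs, hs']⟩

theorem J_bar {x y : P} (hx : ∃ s, D.p x = D.f s) (hy : ∃ s, D.p y = D.f s) :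
    D.J (y * D.bar x) = D.e * x * D.e * D.J (y * x) := by
  have h1 := mul_J (D := D) (x := y * D.bar x) (ex_mul hy (ex_bar hx))
  have h2 : D.e * x * D.e * D.J (y * x) * (D.e * (y * D.bar x) * D.e) = D.e := by
    have e1 : D.e * (y * D.bar x) * D.e = D.e * (y * x) * D.e * D.J x := by
      rw [mul_assoc, mul_assoc y, bar_e, bar]
      simp only [mul_assoc]
    rw [e1, ← mul_assoc, mul_assoc (D.e * x * D.e), J_mul (ex_mul hy hx)]
    rw [mul_assoc (D.e * x) D.e D.e, D.he, mul_J hx]
  calc D.J (y * D.bar x) = D.e * D.J (y * D.bar x) := (e_J _).symm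
    _ = D.e * x * D.e * D.J (y * x) * (D.e * (y * D.bar x) * D.e) * D.J (y * D.bar x) := by
        rw [h2]
    _ = D.e * x * D.e * D.J (y * x) * D.e := by rw [mul_assoc _ (D.e * (y * D.bar x) * D.e), h1]
    _ = D.e * x * D.e * D.J (y * x) := by rw [mul_assoc _ (D.J (y * x)), J_e]

theorem bar_mul {x y : P} (hx : ∃ s, D.p x = D.f s) (hy : ∃ s, D.p y = D.f s) :
    D.bar (y * x) = y * D.bar x * D.J (y * D.bar x) := by
  rw [J_bar hx hy, bar, bar]
  have h := J_mul hx
  calc y * x * D.e * D.J (y * x) = y * x * D.e * (D.e * D.J (y * x)) := by rw [e_J]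
    _ = y * x * D.e * (D.J x * (D.e * x * D.e) * D.J (y * x)) := by rw [h]
    _ = _ := by simp only [mul_assoc]

end Cov

/-! ### Mixtures -/

section

variable {r : ℕ} {T : Fin r → Type} [∀ i, Semigroup (T i)] {Q S : Type} [Semigroup Q] [Monoid S]
  {z : S} (D : Cov (∀ i, T i) Q S z)

/-- the mixture -/
def mixk (k : Fin r) (x : ∀ i, T i) : ∀ i, T i := Function.update D.e k (x k)

variable {D}

theorem mixk_mul (k : Fin r) (x y : ∀ i, T i) : mixk D k x * mixk D k y = mixk D k (x * y) := by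
  funext i
  by_cases h : i = k
  · subst h
    simp [mixk]
  · simp only [mixk, Pi.mul_apply, Function.update_of_ne h]
    exact congrFun D.he i

theorem mixk_e (k : Fin r) : mixk D k D.e = D.e := by
  simp [mixk]

theorem mixk_eq {x : ∀ i, T i} (hx : ∃ s, D.p x = D.f s) (hu : D.u * x = x) (k : Fin r) :
    mixk D k (D.bar x) = mixk D k D.u * D.bar x := by
  funext i
  by_cases h : i = k
  · subst h
    have := congrFun (Cov.u_bar (D := D) hu) i
    simp only [mixk, Pi.mul_apply, Function.update_self] at this ⊢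
    exact this.symm
  · have := congrFun (Cov.e_bar (D := D) hx) i
    simp only [mixk, Pi.mul_apply, Function.update_of_ne h] at this ⊢
    exact this.symm

/-- the relation of the coordinate `k` -/
def Rel (D : Cov (∀ i, T i) Q S z) (k : Fin r) (x y : ∀ i, T i) : Prop :=
  D.p (mixk D k (D.bar x)) = D.p (mixk D k (D.bar y))

theorem rel_of_eq {x y : ∀ i, T i} {s s' : S} (hx : D.p x = D.f s) (hy : D.p y = D.f s')
    (hux : D.u * x = x) (huy : D.u * y = y) (h : s * z = s' * z) (k : Fin r) : Rel D k x y := by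
  unfold Rel
  rw [mixk_eq ⟨s, hx⟩ hux, mixk_eq ⟨s', hy⟩ huy, map_mul, map_mul, Cov.p_bar hx, Cov.p_bar hy, h]

theorem Rel.mul {x y w : ∀ i, T i} (hx : ∃ s, D.p x = D.f s) (hy : ∃ s, D.p y = D.f s)
    (hw : ∃ s, D.p w = D.f s) (k : Fin r) (h : Rel D k x y) : Rel D k (w * x) (w * y) := by
  unfold Rel at h ⊢
  have hX : ∀ v : ∀ i, T i, (∃ s, D.p v = D.f s) → mixk D k (D.bar (w * v)) =
      mixk D k w * mixk D k (D.bar v) * mixk D k (D.J (w * D.bar v)) := by
    intro v hv
    rw [Cov.bar_mul hv hw, mixk_mul, mixk_mul]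
  have hG : ∀ v : ∀ i, T i, (∃ s, D.p v = D.f s) →
      D.e * (mixk D k w * mixk D k (D.bar v)) * mixk D k (D.J (w * D.bar v)) = D.e := by
    intro v hv
    have h1 := Cov.mul_J (D := D) (x := w * D.bar v) (Cov.ex_mul hw (Cov.ex_bar hv))
    have h2 : D.e * (w * D.bar v) * D.e = D.e * (w * D.bar v) := by
      rw [mul_assoc, mul_assoc w, Cov.bar_e]
    rw [h2] at h1
    conv_lhs => rw [← mixk_e (D := D) k]
    rw [mixk_mul, mixk_mul, mixk_mul, h1, mixk_e]
  have hG' : ∀ v : ∀ i, T i, (∃ s, D.p v = D.f s) →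
      mixk D k (D.J (w * D.bar v)) * (D.e * (mixk D k w * mixk D k (D.bar v))) = D.e := by
    intro v hv
    have h1 := Cov.J_mul (D := D) (x := w * D.bar v) (Cov.ex_mul hw (Cov.ex_bar hv))
    have h2 : D.e * (w * D.bar v) * D.e = D.e * (w * D.bar v) := by
      rw [mul_assoc, mul_assoc w, Cov.bar_e]
    rw [h2] at h1
    conv_lhs => rw [← mixk_e (D := D) k]
    rw [mixk_mul, mixk_mul, mixk_mul, h1, mixk_e]
  have hYe : mixk D k (D.bar y) * D.e = mixk D k (D.bar y) := by
    conv_lhs => rw [← mixk_e (D := D) k]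
    rw [mixk_mul, Cov.bar_e]
  have hHe : mixk D k (D.J (w * D.bar y)) * D.e = mixk D k (D.J (w * D.bar y)) := by
    conv_lhs => rw [← mixk_e (D := D) k]
    rw [mixk_mul, Cov.J_e]
  rw [hX x hx, hX y hy, map_mul, map_mul, h, ← map_mul]
  generalize hH : mixk D k (D.J (w * D.bar x)) = Hx at *
  generalize hH' : mixk D k (D.J (w * D.bar y)) = Hy at *
  generalize hC : mixk D k w = C at *
  have hGx := hG x hx
  rw [hH] at hGx
  have hGy := hG' y hy
  rw [hH'] at hGy
  have e1 : D.p (D.e * (C * mixk D k (D.bar x))) = D.p (D.e * (C * mixk D k (D.bar y))) := by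
    rw [map_mul, map_mul, map_mul, map_mul, h]
  have e2 : D.p (D.e * (C * mixk D k (D.bar y))) * D.p Hx = D.p D.e := by
    rw [← e1, ← map_mul, hGx]
  calc D.p (C * mixk D k (D.bar y)) * D.p Hx
      = D.p (C * mixk D k (D.bar y) * D.e) * D.p Hx := by rw [mul_assoc C, hYe]
    _ = D.p (C * mixk D k (D.bar y) * Hy) * (D.p (D.e * (C * mixk D k (D.bar y))) * D.p Hx) := by
        conv_lhs => rw [← hGy]
        simp only [map_mul, mul_assoc]
    _ = D.p (C * mixk D k (D.bar y) * Hy) * D.p D.e := by rw [e2]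
    _ = D.p (C * mixk D k (D.bar y) * Hy) := by rw [← map_mul, mul_assoc _ Hy, hHe]

theorem eq_of_rel {x y : ∀ i, T i} {s s' : S} (hx : D.p x = D.f s) (hy : D.p y = D.f s')
    (hux : D.u * x = x) (huy : D.u * y = y) (h : ∀ k, Rel D k x y) : s * z = s' * z := by
  apply D.inj
  rw [← Cov.p_bar hx, ← Cov.p_bar hy]
  let w : ℕ → ∀ i, T i := fun j i => if (i : ℕ) < j then D.bar y i else D.bar x i
  have hstep : ∀ j (hj : j < r), D.p (w j) = D.p (w (j + 1)) := by
    intro j hj
    let v : ∀ i, T i := fun i => if (i : ℕ) < j then D.bar y i else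
      if (i : ℕ) = j then D.u i else D.bar x i
    have e1 : w j = v * mixk D ⟨j, hj⟩ (D.bar x) := by
      funext i
      have hb := congrFun (Cov.bar_e (D := D) y) i
      have hb' := congrFun (Cov.bar_e (D := D) x) i
      have hu' := congrFun (Cov.u_bar (D := D) hux) i
      simp only [Pi.mul_apply] at hb hb' hu'
      rcases lt_trichotomy (i : ℕ) j with hi | hi | hi
      · have hne : i ≠ ⟨j, hj⟩ := fun he => by
          rw [he] at hi
          exact lt_irrefl _ hi
        simp only [w, v, mixk, Pi.mul_apply, Function.update_of_ne hne, if_pos hi]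
        exact hb.symm
      · have he : i = ⟨j, hj⟩ := Fin.ext hi
        subst he
        simp only [w, v, mixk, Pi.mul_apply, Function.update_self, lt_irrefl, if_false, if_true]
        exact hu'.symm
      · have hne : i ≠ ⟨j, hj⟩ := fun he => by
          rw [he] at hi
          exact lt_irrefl _ hi
        simp only [w, v, mixk, Pi.mul_apply, Function.update_of_ne hne, if_neg hi.not_gt,
          if_neg hi.ne']
        exact hb'.symm
    have e2 : w (j + 1) = v * mixk D ⟨j, hj⟩ (D.bar y) := by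
      funext i
      have hb := congrFun (Cov.bar_e (D := D) y) i
      have hb' := congrFun (Cov.bar_e (D := D) x) i
      have hu' := congrFun (Cov.u_bar (D := D) huy) i
      simp only [Pi.mul_apply] at hb hb' hu'
      rcases lt_trichotomy (i : ℕ) j with hi | hi | hi
      · have hne : i ≠ ⟨j, hj⟩ := fun he => by
          rw [he] at hi
          exact lt_irrefl _ hi
        have hi' : (i : ℕ) < j + 1 := by omega
        simp only [w, v, mixk, Pi.mul_apply, Function.update_of_ne hne, if_pos hi, if_pos hi']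
        exact hb.symm
      · have he : i = ⟨j, hj⟩ := Fin.ext hi
        subst he
        have hi' : j < j + 1 := by omega
        simp only [w, v, mixk, Pi.mul_apply, Function.update_self, lt_irrefl, if_false, if_true,
          if_pos hi']
        exact hu'.symm
      · have hne : i ≠ ⟨j, hj⟩ := fun he => by
          rw [he] at hi
          exact lt_irrefl _ hi
        have hi' : ¬ (i : ℕ) < j + 1 := by omega
        simp only [w, v, mixk, Pi.mul_apply, Function.update_of_ne hne, if_neg hi.not_gt,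
          if_neg hi.ne', if_neg hi']
        exact hb'.symm
    rw [e1, e2, map_mul, map_mul]
    have := h ⟨j, hj⟩
    unfold Rel at this
    rw [this]
  have hall : ∀ j, j ≤ r → D.p (w j) = D.p (w 0) := by
    intro j
    induction j with
    | zero => intro _; rfl
    | succ j ih =>
      intro hj
      rw [← hstep j (by omega), ih (by omega)]
  have h0 : w 0 = D.bar x := by
    funext i
    simp [w]
  have hr : w r = D.bar y := by
    funext i
    simp [w]
  rw [← h0, ← hr, hall r le_rfl]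

end

/-- Left congruences of bounded index. -/
theorem mixtures {t : ℕ} {S : Type} [Monoid S] (h : BddS t S) (z : S) (hz : ∀ s, z * s = z) :
    ∃ (r : ℕ) (R : Fin r → S → S → Prop),
      (∀ k, Equivalence (R k)) ∧
      (∀ k a b c, R k a b → R k (c * a) (c * b)) ∧
      (∀ k a b, a * z = b * z → R k a b) ∧
      (∀ k (F : Fin (t + 1) → S), ∃ i j, i ≠ j ∧ R k (F i) (F j)) ∧
      (∀ a b, (∀ k, R k a b) → a * z = b * z) := by
  obtain ⟨r, T, sg, Q, sq, hfin, hcard, p, f, hp, hf⟩ := h
  obtain ⟨c, hc⟩ : ∃ c, ∀ x : (∀ i, T i), pw x c * pw x c = pw x c :=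
    ⟨(Nat.card (∀ i, T i) + 1).factorial - 1, fun x => om_idem (by omega) (by omega) x⟩
  obtain ⟨p0, hp0⟩ := hp (f 1)
  obtain ⟨u, hu, pu⟩ : ∃ u : (∀ i, T i), u * u = u ∧ p u = f 1 :=
    ⟨pw p0 c, hc p0, by rw [pw_map, hp0, ← pw_map, pw_idem (mul_one 1)]⟩
  have hlift : ∀ s : S, ∃ x, p x = f s ∧ u * x = x ∧ x * u = x := by
    intro s
    obtain ⟨q, hq⟩ := hp (f s)
    refine ⟨u * q * u, ?_, ?_, ?_⟩
    · rw [map_mul, map_mul, pu, hq, ← map_mul, ← map_mul, one_mul, mul_one]
    · rw [← mul_assoc, ← mul_assoc, hu]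
    · rw [mul_assoc, hu]
  let E : Set (∀ i, T i) := {e | e * e = e ∧ u * e = e ∧ e * u = e ∧ p e = f z}
  have hE : E.Nonempty := by
    obtain ⟨x, hx, hux, hxu⟩ := hlift z
    exact ⟨pw x c, hc x, mul_pw hux c, pw_mul hxu c, by
      rw [pw_map, hx, ← pw_map, pw_idem (hz z)]⟩
  let μ : (∀ i, T i) → ℕ := fun e => {x : ∀ i, T i | e * x = x ∧ x * e = x}.ncard
  obtain ⟨e, he, hmin⟩ := WellFounded.has_min (measure μ).wf E hE
  have hmin' : ∀ e' ∈ E, e * e' = e' → e' * e = e' → e' = e := by
    intro e' he' h1 h2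
    have hsub : {x : ∀ i, T i | e' * x = x ∧ x * e' = x} ⊆ {x | e * x = x ∧ x * e = x} := by
      rintro x ⟨h3, h4⟩
      refine ⟨?_, ?_⟩
      · rw [← h3, ← mul_assoc, h1]
      · rw [← h4, mul_assoc, h2]
    have hle : {x : ∀ i, T i | e * x = x ∧ x * e = x}.ncard ≤
        {x : ∀ i, T i | e' * x = x ∧ x * e' = x}.ncard := not_lt.1 (hmin e' he')
    have heq := Set.eq_of_subset_of_ncard_le hsub hle (Set.toFinite _)
    have : e ∈ {x : ∀ i, T i | e * x = x ∧ x * e = x} := ⟨he.1, he.1⟩
    rw [← heq] at this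
    rw [← h2, this.1]
  obtain ⟨he1, he2, he3, he4⟩ := he
  let D : Cov (∀ i, T i) Q S z :=
    { p := p, f := f, surj := hp, inj := hf, hz := hz, c := c, hc := hc, u := u, hu := hu,
      pu := pu, e := e, he := he1, ue := he2, eu := he3, pe := he4
      key := by
        rintro x ⟨s, hs⟩
        refine hmin' _ ⟨hc _, mul_pw ?_ c, pw_mul ?_ c, ?_⟩ (mul_pw ?_ c) (pw_mul ?_ c)
        · rw [← mul_assoc, ← mul_assoc, he2]
        · rw [mul_assoc, he3]
        · rw [pw_map, map_mul, map_mul, hs, he4, ← map_mul, ← map_mul, hz, hz, ← pw_map,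
            pw_idem (hz z)]
        · rw [← mul_assoc, ← mul_assoc, he1]
        · rw [mul_assoc, he1] }
  choose L hL1 hL2 hL3 using hlift
  have hLe : ∀ s, ∃ s', D.p (L s) = D.f s' := fun s => ⟨s, hL1 s⟩
  refine ⟨r, fun k a b => Rel D k (L a) (L b), ?_, ?_, ?_, ?_, ?_⟩
  · exact fun k => ⟨fun _ => rfl, fun h => h.symm, fun h h' => h.trans h'⟩
  · intro k a b s hab
    have h1 := Rel.mul (D := D) (hLe a) (hLe b) (hLe s) k hab
    have h2 : ∀ a, Rel D k (L (s * a)) (L s * L a) := fun a =>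
      rel_of_eq (D := D) (hL1 _) (by
        change p (L s * L a) = f (s * a)
        rw [map_mul, map_mul, hL1, hL1]) (hL2 _) (by
        change u * (L s * L a) = L s * L a
        rw [← mul_assoc, hL2]) rfl k
    exact (h2 a).trans (h1.trans (h2 b).symm)
  · exact fun k a b hab => rel_of_eq (D := D) (hL1 a) (hL1 b) (hL2 a) (hL2 b) hab k
  · intro k F
    obtain ⟨i, j, hij, h1⟩ := exists_coll (hcard k) (Nat.lt_succ_self t)
      fun i : Fin (t + 1) => D.bar (L (F i)) k
    refine ⟨i, j, hij, ?_⟩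
    have h1' : D.bar (L (F i)) k = D.bar (L (F j)) k := h1
    change D.p (Function.update D.e k (D.bar (L (F i)) k)) =
      D.p (Function.update D.e k (D.bar (L (F j)) k))
    rw [h1']
  · exact fun a b hab => eq_of_rel (D := D) (hL1 a) (hL1 b) (hL2 a) (hL2 b) hab

end Pool.Agent.Lib.MP_88bd66_lcP
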