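import Pool.Agent.Lib.MP_88bd66_lcP.Ev

/-!
The tests are necessary; transfer of identities.
-/

set_option autoImplicit false

namespace Pool.Agent.Lib.MP_88bd66_lcP

open FreeSemigroup Pool.Agent.Lib.MP_88bd66_lc

section

variable {c : ℕ} {M : Type} [Semigroup M] {N : ℕ}

theorem CR.pw_left (h : CR c M) (a b : M) : ∃ k, pw (a * b) c = a * k :=
  ⟨b * pw (a * b) (2 * c), by rw [← h.mul_iv, mul_assoc]⟩

theorem CR.pw_right (h : CR c M) (a b : M) : ∃ k, pw (a * b) c = k * b :=
  ⟨pw (a * b) (2 * c) * a, by rw [← h.iv_mul, mul_assoc]⟩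

theorem jle_of_sat (h : CR c M) {u v : Wd N} (hs : Sat M u v) {z : Fin N} (hu : z ∈ lst u)
    (hv : z ∉ lst v) (x y : M) : Jle x y := by
  have h1 := h.lift_jle (fun a => if a = z then y else x) u hu
  rw [if_pos rfl, hs] at h1
  refine (h.jle_lift _ v fun a ha => ?_).trans h1
  have hne : a ≠ z := fun he => hv (he ▸ ha)
  simp only [if_neg hne]
  exact h.jrefl x

theorem ta_of_jle (h : CR c M) (hJ : ∀ x y : M, Jle x y) (x y : M) :
    pw (x * y * x) c = pw x c := by
  have h1 := h.loc_o (h.idem x) (hJ (pw x c) (x * y * x))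
  have h2 : pw x c * (x * y * x) * pw x c = x * y * x := by
    calc pw x c * (x * y * x) * pw x c = pw x c * x * y * (x * pw x c) := by
          simp only [mul_assoc]
      _ = x * y * x := by rw [h, h.mul_o]
  rwa [h2] at h1

theorem tb_of_sat (h : CR c M) {u v : Wd N} (hs : Sat M u v) (hne : u.head ≠ v.head) (s t : M) :
    pw (s * t) c * pw (t * s) c = pw (t * s) c := by
  obtain ⟨θ, hθ⟩ : ∃ θ : Fin N → M, θ = fun a => if a = u.head then s * t else t * s := ⟨_, rfl⟩
  have hθu : θ u.head = s * t := by rw [hθ]; exact if_pos rfl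
  have hθv : θ v.head = t * s := by rw [hθ]; exact if_neg (Ne.symm hne)
  obtain ⟨q, hq⟩ := h.lift_head θ u
  obtain ⟨q', hq'⟩ := h.lift_head θ v
  rw [hθu] at hq
  rw [hθv] at hq'
  have hJ : Jle (t * s) (lift θ v) := h.jle_lift θ v fun a _ => by
    rw [hθ]
    by_cases ha : a = u.head
    · simp only [if_pos ha]
      exact h.jswap t s
    · simp only [if_neg ha]
      exact h.jrefl _
  rw [hq'] at hJ
  obtain ⟨m, m', hm⟩ := hJ
  have h1 : t * s = m * (t * s) * (q' * m') := by
    calc t * s = m * (t * s * q') * m' := hm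
      _ = _ := by simp only [mul_assoc]
  have h2 := h.stab_right h1
  obtain ⟨k, hk⟩ := h.pw_left q' m'
  rw [hk, ← mul_assoc, ← hq', ← hs, hq] at h2
  refine mul_pw ?_ c
  rw [← h2, ← mul_assoc, ← mul_assoc, h]

theorem tc_of_sat (h : CR c M) {u v : Wd N} (hs : Sat M u v) (hne : wlast u ≠ wlast v)
    (s t : M) : pw (s * t) c * pw (t * s) c = pw (s * t) c := by
  obtain ⟨θ, hθ⟩ : ∃ θ : Fin N → M, θ = fun a => if a = wlast u then t * s else s * t :=
    ⟨_, rfl⟩
  have hθu : θ (wlast u) = t * s := by rw [hθ]; exact if_pos rfl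
  have hθv : θ (wlast v) = s * t := by rw [hθ]; exact if_neg (Ne.symm hne)
  obtain ⟨q, hq⟩ := h.lift_last θ u
  obtain ⟨q', hq'⟩ := h.lift_last θ v
  rw [hθu] at hq
  rw [hθv] at hq'
  have hJ : Jle (s * t) (lift θ v) := h.jle_lift θ v fun a _ => by
    rw [hθ]
    by_cases ha : a = wlast u
    · simp only [if_pos ha]
      exact h.jswap s t
    · simp only [if_neg ha]
      exact h.jrefl _
  rw [hq'] at hJ
  obtain ⟨m, m', hm⟩ := hJ
  have h1 : s * t = m * q' * (s * t) * m' := by
    calc s * t = m * (q' * (s * t)) * m' := hm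
      _ = _ := by simp only [mul_assoc]
  have h2 := h.stab_left h1
  obtain ⟨k, hk⟩ := h.pw_right m q'
  rw [hk, mul_assoc, ← hq', ← hs, hq] at h2
  refine pw_mul ?_ c
  conv_lhs => rw [← h2]
  rw [mul_assoc, mul_assoc, h.mul_o, h2]

theorem td_aux (h : CR c M) (a : Fin N) (x : M) (w : Wd N) :
    lift (fun b => if b = a then x else pw x c) w = pw x (c + (lst w).count a) := by
  induction w using FreeSemigroup.recOnMul with
  | ih1 y =>
    rw [lift_of, lst_of]
    by_cases hy : y = a
    · subst hy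
      rw [if_pos rfl, List.count_singleton_self, pw_succ, h]
    · rw [if_neg hy, List.count_eq_zero_of_not_mem, add_zero]
      simpa using fun he => hy he.symm
  | ih2 y w _ ih =>
    rw [map_mul, lift_of, ih, lst_mul, lst_of, List.count_append]
    by_cases hy : y = a
    · subst hy
      rw [if_pos rfl, List.count_singleton_self, ← pw_succ']
      congr 1
      omega
    · have hc : [y].count a = 0 :=
        List.count_eq_zero_of_not_mem (by simpa using fun he => hy he.symm)
      rw [if_neg hy, hc, zero_add]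
      exact mul_pw (h x) _

theorem td_of_sat (h : CR c M) {u v : Wd N} (hs : Sat M u v) (a : Fin N) (x : M) :
    pw x (c + (lst u).count a) = pw x (c + (lst v).count a) := by
  rw [← td_aux h, ← td_aux h, hs]

theorem prod_ite_eq' {G α : Type} [CommMonoid G] [DecidableEq α] [BEq α] [LawfulBEq α] (x : α)
    (g : G) (l : List α) : (l.map fun a => if a = x then g else 1).prod = g ^ l.count x := by
  induction l with
  | nil => simp
  | cons a l ih =>
    rw [List.map_cons, List.prod_cons, ih, List.count_cons]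
    by_cases h : a = x
    · subst h
      simp [pow_succ, mul_comm]
    · have h' : (a == x) = false := by simpa using h
      simp [h, h']

theorem te_of_sat (h : CR c M) (hl : LC c M) {u v : Wd N} (hs : Sat M u v)
    (p : Fin N × Fin N) (s t : M) : pw (mnr c s t) (c + (Cx.prs (lst u)).count p) =
      pw (mnr c s t) (c + (Cx.prs (lst v)).count p) := by
  obtain ⟨x0, y0⟩ := p
  let X : Cx c M := ⟨h, hl, pw (s * t * s) c, h.idem _⟩
  obtain ⟨f, hf⟩ : ∃ f, f = pw (t * s * t) c := ⟨_, rfl⟩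
  have hff : f * f = f := by rw [hf]; exact h.idem _
  have hef : Jle X.e f := by
    have h1 : Jle (s * t * s) s := (h.jright s t).mul_right s
    have h2 : Jle (s * t * s) t := (h.jleft s t).mul_right s
    have h3 : Jle (s * t * s) (t * s * t) := h.jinf (h.jinf h2 h1) h2
    rw [hf]
    exact ((h.pw_jle _ _).trans h3).trans (h.jo _)
  have hm : (X.emb f).1 = mnr c s t := by
    rw [Cx.emb_val hef, hf]
    rfl
  obtain ⟨m, hm'⟩ : ∃ m : X.G, m = X.emb f := ⟨_, rfl⟩
  obtain ⟨I, hI⟩ : ∃ I : Fin N → M, I = fun b => if b = y0 then f else X.e := ⟨_, rfl⟩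
  obtain ⟨L, hL⟩ : ∃ L : Fin N → M, L = fun b => if b = x0 then f else X.e := ⟨_, rfl⟩
  have hIp : ∀ b, b = y0 → I b = f := fun b hb => by rw [hI]; exact if_pos hb
  have hIn : ∀ b, ¬ b = y0 → I b = X.e := fun b hb => by rw [hI]; exact if_neg hb
  have hLp : ∀ b, b = x0 → L b = f := fun b hb => by rw [hL]; exact if_pos hb
  have hLn : ∀ b, ¬ b = x0 → L b = X.e := fun b hb => by rw [hL]; exact if_neg hb
  have hJI : ∀ b, Jle X.e (I b) := by
    intro b
    by_cases hb : b = y0
    · rw [hIp b hb]; exact hef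
    · rw [hIn b hb]; exact h.jrefl _
  have hJL : ∀ b, Jle X.e (L b) := by
    intro b
    by_cases hb : b = x0
    · rw [hLp b hb]; exact hef
    · rw [hLn b hb]; exact h.jrefl _
  obtain ⟨θ, hθ⟩ : ∃ θ : Fin N → M, θ = fun b => I b * L b := ⟨_, rfl⟩
  have hθ' : ∀ b, θ b = I b * L b := fun b => by rw [hθ]
  have hJθ : ∀ b, Jle X.e (θ b) := fun b => by
    rw [hθ']; exact h.jinf (hJI b) (hJL b)
  have hee := X.he
  have hee' : ∀ z, X.e * (X.e * z) = X.e * z := fun z => by rw [← mul_assoc, hee]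
  have hff' : ∀ z, f * (f * z) = f * z := fun z => by rw [← mul_assoc, hff]
  have hmv : m.1 = X.e * (f * X.e) := by
    rw [hm', Cx.emb_val hef, mul_assoc]
  have hemb : ∀ b, X.emb (θ b) = (if b = x0 then m else 1) *
      (if b = y0 then (if x0 = y0 then 1 else m) else 1) := by
    intro b
    apply Subtype.ext
    rw [Cx.mul_val, Cx.emb_val (hJθ b), hθ']
    by_cases h1 : b = x0 <;> by_cases h2 : b = y0
    · have h3 : x0 = y0 := h1.symm.trans h2
      rw [hIp b h2, hLp b h1, if_pos h1, if_pos h2, if_pos h3]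
      simp only [hmv, Cx.one_val, mul_assoc, hee, hff, hee', hff']
    · rw [hIn b h2, hLp b h1, if_pos h1, if_neg h2]
      simp only [hmv, Cx.one_val, mul_assoc, hee, hff, hee', hff']
    · have h3 : ¬ x0 = y0 := fun he => h1 (h2.trans he.symm)
      rw [hIp b h2, hLn b h1, if_neg h1, if_pos h2, if_neg h3]
      simp only [hmv, Cx.one_val, mul_assoc, hee, hff, hee', hff']
    · rw [hIn b h2, hLn b h1, if_neg h1, if_neg h2]
      simp only [hmv, Cx.one_val, mul_assoc, hee, hff, hee', hff']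
  have hC : ∀ a b, X.emb (θ a * θ b) * (if a = x0 then (if b = y0 then m else 1) else 1) =
      X.emb (θ a) * X.emb (θ b) := by
    intro a b
    apply Subtype.ext
    rw [Cx.mul_val, Cx.mul_val, Cx.emb_val (h.jinf (hJθ a) (hJθ b)), Cx.emb_val (hJθ a),
      Cx.emb_val (hJθ b), hθ', hθ']
    by_cases h1 : a = x0
    · by_cases h4 : b = y0
      · rw [hLp a h1, hIp b h4, if_pos h1, if_pos h4]
        by_cases h2 : a = y0 <;> by_cases h3 : b = x0
        · rw [hIp a h2, hLp b h3]
          simp only [hmv, Cx.one_val, mul_assoc, hee, hff, hee', hff']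
        · rw [hIp a h2, hLn b h3]
          simp only [hmv, Cx.one_val, mul_assoc, hee, hff, hee', hff']
        · rw [hIn a h2, hLp b h3]
          simp only [hmv, Cx.one_val, mul_assoc, hee, hff, hee', hff']
        · rw [hIn a h2, hLn b h3]
          simp only [hmv, Cx.one_val, mul_assoc, hee, hff, hee', hff']
      · rw [hLp a h1, hIn b h4, if_pos h1, if_neg h4]
        simp only [Cx.one_val, mul_assoc, hee, hff, hee', hff']
    · rw [hLn a h1, if_neg h1]
      simp only [Cx.one_val, mul_assoc, hee, hff, hee', hff']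
  have hC' : ∀ q : Fin N × Fin N, X.C (θ q.1) (θ q.2) = if q = (x0, y0) then m⁻¹ else 1 := by
    rintro ⟨a, b⟩
    have h1 := hC a b
    have h2 : X.C (θ a) (θ b) = (if a = x0 then (if b = y0 then m else 1) else 1)⁻¹ := by
      rw [Cx.C, eq_inv_iff_mul_eq_one]
      generalize (if a = x0 then (if b = y0 then m else 1) else 1) = K at *
      have h3 : (X.emb (θ a))⁻¹ * (X.emb (θ a * θ b) * K) * (X.emb (θ b))⁻¹ = 1 := by
        rw [h1]
        group
      rw [← h3]
      rw [mul_assoc, mul_comm (X.emb (θ b))⁻¹ K, ← mul_assoc, mul_assoc (X.emb (θ a))⁻¹]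
    simp only
    rw [h2]
    by_cases ha : a = x0
    · by_cases hb : b = y0
      · rw [if_pos ha, if_pos hb, if_pos (by rw [ha, hb])]
      · rw [if_pos ha, if_neg hb, inv_one, if_neg (fun he => hb (congrArg Prod.snd he))]
    · rw [if_neg ha, inv_one, if_neg (fun he => ha (congrArg Prod.fst he))]
  have hev : ∀ l : List (Fin N), X.ev θ l = m ^ l.count x0 *
      (if x0 = y0 then 1 else m) ^ l.count y0 * m⁻¹ ^ (Cx.prs l).count (x0, y0) := by
    intro l
    unfold Cx.ev
    simp only [hemb, hC']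
    rw [List.prod_map_mul, prod_ite_eq', prod_ite_eq', prod_ite_eq']
  have hlift : X.ev θ (lst u) = X.ev θ (lst v) := by
    rw [← Cx.emb_lift θ u fun a _ => hJθ a, ← Cx.emb_lift θ v fun a _ => hJθ a, hs]
  rw [hev, hev] at hlift
  have h1 : ∀ a, m ^ (lst u).count a = m ^ (lst v).count a := fun a =>
    (Cx.pw_eq_iff _ _ _).1 (td_of_sat h hs a m.1)
  have h2 : (if x0 = y0 then 1 else m) ^ (lst u).count y0 =
      (if x0 = y0 then 1 else m) ^ (lst v).count y0 := by
    by_cases h3 : x0 = y0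
    · rw [if_pos h3, one_pow, one_pow]
    · rw [if_neg h3, h1]
  rw [h1, h2] at hlift
  have h3 := mul_left_cancel hlift
  rw [inv_pow, inv_pow, inv_inj, ← Cx.pw_eq_iff] at h3
  rw [hm', hm] at h3
  exact h3

theorem tests_of_sat (h : CR c M) (hl : LC c M) {u v : Wd N} (hs : Sat M u v) :
    Tests c M u v where
  ta := by
    by_cases hc : ∀ a, a ∈ lst u ↔ a ∈ lst v
    · exact Or.inl hc
    · right
      push Not at hc
      obtain ⟨z, ⟨hu, hv⟩ | ⟨hu, hv⟩⟩ := hc
      · exact ta_of_jle h (jle_of_sat h hs hu hv)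
      · exact ta_of_jle h (jle_of_sat h hs.symm hv hu)
  tb := by
    by_cases hc : u.head = v.head
    · exact Or.inl hc
    · exact Or.inr (tb_of_sat h hs hc)
  tc := by
    by_cases hc : wlast u = wlast v
    · exact Or.inl hc
    · exact Or.inr (tc_of_sat h hs hc)
  td := td_of_sat h hs
  te := te_of_sat h hl hs

theorem sat_iff_tests (h : CR c M) (hl : LC c M) {u v : Wd N} : Sat M u v ↔ Tests c M u v :=
  ⟨tests_of_sat h hl, sat_of_tests h hl⟩

end

/-! ### Finitely many test identities -/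

section

variable {c : ℕ} {M : Type} [Semigroup M]

theorem CR.pw_mod (h : CR c M) (x : M) (i : ℕ) : pw x (c + i) = pw x (c + i % (c + 1)) := by
  have key : ∀ k j, pw x (c + (j + (c + 1) * k)) = pw x (c + j) := by
    intro k
    induction k with
    | zero => intro j; simp
    | succ k ih =>
      intro j
      have e : c + (j + (c + 1) * (k + 1)) = c + (j + (c + 1) * k) + c + 1 := by ring
      rw [e, ← pw_add, ih]
      exact pw_mul (h.mul_o x) _
  conv_lhs => rw [← Nat.mod_add_div i (c + 1)]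
  rw [key]

/-- the letters -/
abbrev A0 : Wd 2 := of 0

/-- the letters -/
abbrev A1 : Wd 2 := of 1

/-- the word of the minor -/
def mw (c : ℕ) : Wd 2 := mnr c A0 A1

/-- the test identities -/
def TL (c : ℕ) : List (Wd 2 × Wd 2) :=
  [(pw (A0 * A1 * A0) c, pw A0 c), (pw (A0 * A1) c * pw (A1 * A0) c, pw (A1 * A0) c),
    (pw (A0 * A1) c * pw (A1 * A0) c, pw (A0 * A1) c)] ++
  ((List.range (c + 1)).product (List.range (c + 1))).map (fun p =>
    (pw A0 (c + p.1), pw A0 (c + p.2))) ++
  ((List.range (c + 1)).product (List.range (c + 1))).map (fun p =>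
    (pw (mw c) (c + p.1), pw (mw c) (c + p.2)))

theorem sat2 {u v : Wd 2} : Sat M u v ↔ ∀ x y : M, lift ![x, y] u = lift ![x, y] v := by
  constructor
  · exact fun h x y => h _
  · intro h θ
    have : θ = ![θ 0, θ 1] := by
      funext i
      fin_cases i <;> rfl
    rw [this]
    exact h _ _

theorem lift_mnr (x y : M) : lift ![x, y] (mw c) = mnr c x y := by
  simp only [mw, mnr, map_mul, pw_map, lift_of]
  rfl

theorem ta_iff : (Sat M (pw (A0 * A1 * A0) c) (pw A0 c)) ↔
    ∀ x y : M, pw (x * y * x) c = pw x c := by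
  rw [sat2]
  simp only [map_mul, pw_map, lift_of]
  rfl

theorem tb_iff : (Sat M (pw (A0 * A1) c * pw (A1 * A0) c) (pw (A1 * A0) c)) ↔
    ∀ x y : M, pw (x * y) c * pw (y * x) c = pw (y * x) c := by
  rw [sat2]
  simp only [map_mul, pw_map, lift_of]
  rfl

theorem tc_iff : (Sat M (pw (A0 * A1) c * pw (A1 * A0) c) (pw (A0 * A1) c)) ↔
    ∀ x y : M, pw (x * y) c * pw (y * x) c = pw (x * y) c := by
  rw [sat2]
  simp only [map_mul, pw_map, lift_of]
  rfl

theorem td_iff (i j : ℕ) : (Sat M (pw A0 i) (pw A0 j)) ↔ ∀ x : M, pw x i = pw x j := by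
  rw [sat2]
  simp only [pw_map, lift_of]
  exact ⟨fun h x => h x x, fun h x _ => h x⟩

theorem te_iff (i j : ℕ) : (Sat M (pw (mw c) i) (pw (mw c) j)) ↔
    ∀ x y : M, pw (mnr c x y) i = pw (mnr c x y) j := by
  rw [sat2]
  simp only [pw_map, lift_mnr]

theorem transfer_cr {M' : Type} [Semigroup M'] (h : CR c M) (hl : LC c M) (h' : CR c M')
    (hl' : LC c M') (hT : ∀ e ∈ TL c, Sat M e.1 e.2 → Sat M' e.1 e.2) : IdLe M M' := by
  intro N u v hs
  have T := tests_of_sat h hl hs
  have hlt : ∀ i, i % (c + 1) < c + 1 := fun i => Nat.mod_lt i (Nat.succ_pos c)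
  have hmem : ∀ i j, (i % (c + 1), j % (c + 1)) ∈
      (List.range (c + 1)).product (List.range (c + 1)) := fun i j =>
    List.mem_product.2 ⟨List.mem_range.2 (hlt i), List.mem_range.2 (hlt j)⟩
  apply sat_of_tests h' hl'
  refine ⟨?_, ?_, ?_, ?_, ?_⟩
  · rcases T.ta with ht | ht
    · exact Or.inl ht
    · exact Or.inr (ta_iff.1 (hT (pw (A0 * A1 * A0) c, pw A0 c) (by simp [TL]) (ta_iff.2 ht)))
  · rcases T.tb with ht | ht
    · exact Or.inl ht
    · exact Or.inr (tb_iff.1 (hT (pw (A0 * A1) c * pw (A1 * A0) c, pw (A1 * A0) c)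
        (by simp [TL]) (tb_iff.2 ht)))
  · rcases T.tc with ht | ht
    · exact Or.inl ht
    · exact Or.inr (tc_iff.1 (hT (pw (A0 * A1) c * pw (A1 * A0) c, pw (A0 * A1) c)
        (by simp [TL]) (tc_iff.2 ht)))
  · intro a x
    have h1 : ∀ x : M, pw x (c + (lst u).count a % (c + 1)) =
        pw x (c + (lst v).count a % (c + 1)) := fun x => by
      rw [← h.pw_mod, ← h.pw_mod, T.td]
    have h2 := (td_iff _ _).1 (hT (pw A0 (c + (lst u).count a % (c + 1)),
      pw A0 (c + (lst v).count a % (c + 1))) (by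
        rw [TL, List.mem_append, List.mem_append]
        exact Or.inl (Or.inr (List.mem_map.2 ⟨_, hmem _ _, rfl⟩))) ((td_iff _ _).2 h1)) x
    rw [h'.pw_mod, h2, ← h'.pw_mod]
  · intro p x y
    have h1 : ∀ x y : M, pw (mnr c x y) (c + (Cx.prs (lst u)).count p % (c + 1)) =
        pw (mnr c x y) (c + (Cx.prs (lst v)).count p % (c + 1)) := fun x y => by
      rw [← h.pw_mod, ← h.pw_mod, T.te]
    have h2 := (te_iff _ _).1 (hT (pw (mw c) (c + (Cx.prs (lst u)).count p % (c + 1)),
      pw (mw c) (c + (Cx.prs (lst v)).count p % (c + 1))) (by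
        rw [TL, List.mem_append, List.mem_append]
        exact Or.inr (List.mem_map.2 ⟨_, hmem _ _, rfl⟩)) ((te_iff _ _).2 h1)) x y
    rw [h'.pw_mod, h2, ← h'.pw_mod]

end

end Pool.Agent.Lib.MP_88bd66_lcP
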