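import Pool.Agent.Lib.MP_88bd66_lcP.Perm
import Pool.Agent.Lib.MP_88bd66_lcP.Lower

/-!
Identities of permutative semigroups with a power law: a pair of words with more letters of every
type follows from the pair with fewer letters.
-/

set_option autoImplicit false

namespace Pool.Agent.Lib.MP_88bd66_lcP

open FreeSemigroup Pool.Agent.Lib.MP_88bd66_lc

variable {M : Type} [Semigroup M]

/-- exponents reduced by `x ^ (2 (c + 1)) = x ^ (c + 1)` -/
def red (c a : ℕ) : ℕ := if a < c + 1 then a else (c + 1) + (a - (c + 1)) % (c + 1)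

theorem red_lt (c a : ℕ) : red c a < 2 * (c + 1) := by
  unfold red
  split
  · omega
  · have : (a - (c + 1)) % (c + 1) < c + 1 := Nat.mod_lt _ (Nat.succ_pos c)
    omega

theorem pow_red {G : Type} [Monoid G] {y : G} {c : ℕ} (h : y ^ (2 * (c + 1)) = y ^ (c + 1))
    (a : ℕ) : y ^ a = y ^ red c a := by
  have key : ∀ m r, y ^ (c + 1 + (c + 1) * m + r) = y ^ (c + 1 + r) := by
    intro m
    induction m with
    | zero => intro r; simp
    | succ m ih =>
      intro r
      have e : c + 1 + (c + 1) * (m + 1) + r = 2 * (c + 1) + ((c + 1) * m + r) := by ring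
      rw [e, pow_add, h, ← pow_add, ← add_assoc, ih]
  unfold red
  split
  · rfl
  · have e : a = c + 1 + (c + 1) * ((a - (c + 1)) / (c + 1)) + (a - (c + 1)) % (c + 1) := by
      have := Nat.div_add_mod (a - (c + 1)) (c + 1)
      omega
    conv_lhs => rw [e]
    rw [key]

theorem coe_pw (x : M) (c : ℕ) : ((pw x c : M) : WithOne M) = (x : WithOne M) ^ (c + 1) := by
  induction c with
  | zero => simp [pw_zero]
  | succ c ih => rw [pw_succ, WithOne.coe_mul, ih, pow_succ _ (c + 1)]

/-- the power law -/
def PowL (c : ℕ) (M : Type) [Semigroup M] : Prop := ∀ x : M, pw x c * pw x c = pw x c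

theorem PowL.pow {c : ℕ} (h : PowL c M) (x : M) :
    (x : WithOne M) ^ (2 * (c + 1)) = (x : WithOne M) ^ (c + 1) := by
  rw [two_mul, pow_add, ← coe_pw, ← WithOne.coe_mul, h x]

theorem pr_flatMap {α : Type} (f : α → List M) (L : List α) :
    pr (L.flatMap f) = (L.map fun a => pr (f a)).prod := by
  induction L with
  | nil => rfl
  | cons a L ih => rw [List.flatMap_cons, pr_append, ih, List.map_cons, List.prod_cons]

theorem pr_replicate (a : ℕ) (x : M) : pr (List.replicate a x) = (x : WithOne M) ^ a := by
  unfold pr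
  rw [List.map_replicate, List.prod_replicate]

theorem count_flatMap_ind {N N' : ℕ} (fib : Fin N → List (Fin N')) (ρ : Fin N' → Fin N)
    (x' : Fin N') (h : ∀ y, (fib y).count x' = if ρ x' = y then 1 else 0) (L : List (Fin N)) :
    (L.flatMap fib).count x' = L.count (ρ x') := by
  induction L with
  | nil => rfl
  | cons a L ih =>
    rw [List.flatMap_cons, List.count_append, ih, h, List.count_cons]
    by_cases ha : ρ x' = a
    · subst ha
      simp [add_comm]
    · have ha' : ¬ a = ρ x' := fun h => ha h.symm
      simp [ha, ha']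

/-- the sorted list -/
def srt {N : ℕ} (l : List (Fin N)) : List (Fin N) :=
  (List.finRange N).flatMap fun x => List.replicate (l.count x) x

theorem srt_perm {N : ℕ} (l : List (Fin N)) : l.Perm (srt l) := by
  rw [List.perm_iff_count]
  intro a
  unfold srt
  have : ∀ L : List (Fin N), L.Nodup →
      (L.flatMap fun x => List.replicate (l.count x) x).count a =
        if a ∈ L then l.count a else 0 := by
    intro L
    induction L with
    | nil => intro _; rfl
    | cons b L ih =>
      intro hL
      rw [List.nodup_cons] at hL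
      rw [List.flatMap_cons, List.count_append, ih hL.2, List.count_replicate]
      by_cases hab : b = a
      · subst hab
        simp [hL.1]
      · have hab' : ¬ a = b := fun h => hab h.symm
        simp [hab, hab']
  rw [this _ (List.nodup_finRange N), if_pos (List.mem_finRange a)]

theorem pr_srt {N : ℕ} (θ : Fin N → M) (l : List (Fin N)) :
    pr ((srt l).map θ) = ((List.finRange N).map fun x => (θ x : WithOne M) ^ l.count x).prod := by
  unfold srt
  rw [List.map_flatMap, pr_flatMap]
  simp only [List.map_replicate, pr_replicate]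

theorem mid_eq {k c : ℕ} (hP : Permutative k M) (hc : PowL c M) {N : ℕ} (θ : Fin N → M)
    (l l' : List (Fin N)) (h : ∀ x, red c (l.count x) = red c (l'.count x)) {p s : List M}
    (hp : k ≤ p.length) (hs : k ≤ s.length) :
    pr p * pr (l.map θ) * pr s = pr p * pr (l'.map θ) * pr s := by
  rw [hP.perm ((srt_perm l).map θ) p s hp hs, hP.perm ((srt_perm l').map θ) p s hp hs, pr_srt,
    pr_srt]
  have : (fun x => (θ x : WithOne M) ^ l.count x) = fun x => (θ x : WithOne M) ^ l'.count x := by
    funext x
    rw [pow_red (hc.pow (θ x)) (l.count x), pow_red (hc.pow (θ x)) (l'.count x), h x]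
  rw [this]

/-! ### Types of letters -/

/-- the middle part of a list -/
def mid (k : ℕ) {α : Type} (l : List α) : List α := (l.drop k).take (l.length - 2 * k)

theorem split_mid (k : ℕ) {α : Type} (l : List α) (h : 2 * k ≤ l.length) :
    l = l.take k ++ mid k l ++ (l.reverse.take k).reverse := by
  have e1 : (l.reverse.take k).reverse = l.drop (l.length - k) := by
    rw [List.take_reverse, List.reverse_reverse]
  have e2 : l.drop (l.length - k) = (l.drop k).drop (l.length - 2 * k) := by
    rw [List.drop_drop]
    congr 1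
    omega
  rw [e1, e2, mid, List.append_assoc, List.take_append_drop, List.take_append_drop]

/-- types of letters in one word -/
abbrev Ty (k c : ℕ) : Type := (Fin k → Bool) × (Fin k → Bool) × Fin (2 * (c + 1))

/-- the type of a letter in a word -/
def ty (k c : ℕ) {N : ℕ} (l : List (Fin N)) (x : Fin N) : Ty k c :=
  (fun i => decide (l[(i : ℕ)]? = some x), fun i => decide (l.reverse[(i : ℕ)]? = some x),
    ⟨red c ((mid k l).count x), red_lt _ _⟩)

/-- letters near the ends -/
def Spec (k : ℕ) {N : ℕ} (l : List (Fin N)) (x : Fin N) : Prop :=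
  ∃ i : ℕ, i < k ∧ (l[i]? = some x ∨ l.reverse[i]? = some x)

theorem ty_fst {k c N N' : ℕ} {l : List (Fin N)} {l' : List (Fin N')} {x : Fin N} {x' : Fin N'}
    (h : ty k c l x = ty k c l' x') {i : ℕ} (hi : i < k) :
    l[i]? = some x ↔ l'[i]? = some x' := by
  have := congrFun (congrArg Prod.fst h) ⟨i, hi⟩
  simpa [ty] using this

theorem ty_snd {k c N N' : ℕ} {l : List (Fin N)} {l' : List (Fin N')} {x : Fin N} {x' : Fin N'}
    (h : ty k c l x = ty k c l' x') {i : ℕ} (hi : i < k) :
    l.reverse[i]? = some x ↔ l'.reverse[i]? = some x' := by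
  have := congrFun (congrArg (fun t => t.2.1) h) ⟨i, hi⟩
  simpa only [ty, decide_eq_decide] using this

theorem ty_red {k c N N' : ℕ} {l : List (Fin N)} {l' : List (Fin N')} {x : Fin N} {x' : Fin N'}
    (h : ty k c l x = ty k c l' x') : red c ((mid k l).count x) = red c ((mid k l').count x') := by
  have := congrArg (fun t => (t.2.2 : ℕ)) h
  exact this

theorem Spec.inj {k c N : ℕ} {l : List (Fin N)} {x y : Fin N} (hx : Spec k l x)
    (h : ty k c l x = ty k c l y) : x = y := by
  obtain ⟨i, hi, h1 | h1⟩ := hx
  · have h2 := (ty_fst h hi).1 h1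
    rw [h1] at h2
    exact Option.some.inj h2
  · have h2 := (ty_snd h hi).1 h1
    rw [h1] at h2
    exact Option.some.inj h2

theorem Spec.of_take {k N : ℕ} {l : List (Fin N)} {x : Fin N} (hx : x ∈ l.take k) : Spec k l x := by
  obtain ⟨i, hi, h⟩ := List.mem_iff_getElem.1 hx
  have hi1 : i < k := by
    rw [List.length_take] at hi
    omega
  refine ⟨i, hi1, Or.inl ?_⟩
  rw [← h, List.getElem_take, List.getElem?_eq_getElem]

theorem Spec.of_take_reverse {k N : ℕ} {l : List (Fin N)} {x : Fin N}
    (hx : x ∈ l.reverse.take k) : Spec k l x := by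
  obtain ⟨i, hi, h⟩ := List.mem_iff_getElem.1 hx
  have hi1 : i < k := by
    rw [List.length_take] at hi
    omega
  refine ⟨i, hi1, Or.inr ?_⟩
  rw [← h, List.getElem_take, List.getElem?_eq_getElem]

theorem Spec.of_short {k N : ℕ} {l : List (Fin N)} (hl : l.length < 2 * k) {x : Fin N}
    (hx : x ∈ l) : Spec k l x := by
  obtain ⟨i, hi, h⟩ := List.mem_iff_getElem.1 hx
  by_cases hik : i < k
  · exact ⟨i, hik, Or.inl (by rw [← h, List.getElem?_eq_getElem])⟩
  · refine ⟨l.length - 1 - i, by omega, Or.inr ?_⟩
    rw [List.getElem?_reverse (by omega), ← h]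
    have : l.length - 1 - (l.length - 1 - i) = i := by omega
    rw [this, List.getElem?_eq_getElem]

theorem take_eq_map {k c N N' : ℕ} {l : List (Fin N)} {l' : List (Fin N')} {ρ : Fin N' → Fin N}
    (h : ∀ x', ty k c l (ρ x') = ty k c l' x') (h2 : k ≤ l'.length) :
    l.take k = (l'.take k).map ρ := by
  apply List.ext_getElem?
  intro i
  by_cases hi : i < k
  · rw [List.getElem?_take_of_lt hi, List.getElem?_map, List.getElem?_take_of_lt hi,
      List.getElem?_eq_getElem (l := l') (by omega), Option.map_some]
    exact (ty_fst (h _) hi).2 (List.getElem?_eq_getElem _)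
  · rw [List.getElem?_eq_none (by simp; omega), List.getElem?_eq_none (by simp; omega)]

theorem take_reverse_eq_map {k c N N' : ℕ} {l : List (Fin N)} {l' : List (Fin N')}
    {ρ : Fin N' → Fin N} (h : ∀ x', ty k c l (ρ x') = ty k c l' x')
    (h2 : k ≤ l'.length) : l.reverse.take k = (l'.reverse.take k).map ρ := by
  apply List.ext_getElem?
  intro i
  by_cases hi : i < k
  · rw [List.getElem?_take_of_lt hi, List.getElem?_map, List.getElem?_take_of_lt hi,
      List.getElem?_eq_getElem (l := l'.reverse) (by simp; omega), Option.map_some]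
    exact (ty_snd (h _) hi).2 (List.getElem?_eq_getElem _)
  · rw [List.getElem?_eq_none (by simp; omega), List.getElem?_eq_none (by simp; omega)]

theorem short_eq_map {k c N N' : ℕ} {l : List (Fin N)} {l' : List (Fin N')} {ρ : Fin N' → Fin N}
    (h : ∀ x', ty k c l (ρ x') = ty k c l' x') (h1 : l.length = l'.length)
    (h2 : l'.length < 2 * k) : l = l'.map ρ := by
  apply List.ext_getElem?
  intro i
  by_cases hi : i < l'.length
  · rw [List.getElem?_map, List.getElem?_eq_getElem (l := l') hi, Option.map_some]
    by_cases hik : i < k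
    · exact (ty_fst (h _) hik).2 (List.getElem?_eq_getElem _)
    · have h3 := (ty_snd (h l'[i]) (i := l'.length - 1 - i) (by omega)).2 (by
        rw [List.getElem?_reverse (by omega)]
        have : l'.length - 1 - (l'.length - 1 - i) = i := by omega
        rw [this, List.getElem?_eq_getElem])
      rw [List.getElem?_reverse (by omega)] at h3
      have : l.length - 1 - (l'.length - 1 - i) = i := by omega
      rwa [this] at h3
  · rw [List.getElem?_eq_none (by omega), List.getElem?_eq_none (by simp; omega)]

/-! ### Substitution -/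

/-- the fibre -/
def fib {N N' : ℕ} (ρ : Fin N' → Fin N) (y : Fin N) : List (Fin N') :=
  (List.finRange N').filter fun x => ρ x = y

theorem fib_count {N N' : ℕ} (ρ : Fin N' → Fin N) (y : Fin N) (x : Fin N') :
    (fib ρ y).count x = if ρ x = y then 1 else 0 := by
  unfold fib
  by_cases h : ρ x = y
  · rw [if_pos h, List.count_filter (by simpa using h)]
    exact List.count_eq_one_of_mem (List.nodup_finRange _) (List.mem_finRange _)
  · rw [if_neg h, List.count_eq_zero]
    simp [h]

theorem fib_ne_nil {N N' : ℕ} {ρ : Fin N' → Fin N} (hρ : Function.Surjective ρ) (y : Fin N) :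
    fib ρ y ≠ [] := by
  obtain ⟨x, hx⟩ := hρ y
  exact List.ne_nil_of_mem (a := x) (by simp [fib, hx])

theorem fib_eq {N N' : ℕ} {ρ : Fin N' → Fin N} {x : Fin N'} (h : ∀ y, ρ y = ρ x → y = x) :
    fib ρ (ρ x) = [x] := by
  have e : fib ρ (ρ x) = (List.finRange N').filter fun y => y = x := by
    unfold fib
    apply List.filter_congr
    intro y _
    have : ρ y = ρ x ↔ y = x := ⟨h y, fun he => by rw [he]⟩
    simp [this]
  rw [e, List.filter_eq, List.count_eq_one_of_mem (List.nodup_finRange _) (List.mem_finRange _)]
  rfl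

theorem flatMap_fib {N N' : ℕ} {ρ : Fin N' → Fin N} (L : List (Fin N'))
    (h : ∀ x ∈ L, ∀ y, ρ y = ρ x → y = x) : (L.map ρ).flatMap (fib ρ) = L := by
  induction L with
  | nil => rfl
  | cons a L ih =>
    rw [List.map_cons, List.flatMap_cons, ih fun x hx => h x (List.mem_cons_of_mem _ hx),
      fib_eq (h a List.mem_cons_self)]
    rfl

theorem word_eq {k c : ℕ} (hP : Permutative k M) (hc : PowL c M) {N N' : ℕ} {ρ : Fin N' → Fin N}
    {l : List (Fin N)} {l' : List (Fin N')} (h : ∀ x', ty k c l (ρ x') = ty k c l' x')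
    (hlen : min l.length (2 * k) = min l'.length (2 * k))
    (hsp : ∀ x', Spec k l' x' → ∀ y', ρ y' = ρ x' → y' = x') (θ : Fin N → M) (θ' : Fin N' → M)
    (hθ : ∀ y, (θ y : WithOne M) = pr ((fib ρ y).map θ')) : pr (l.map θ) = pr (l'.map θ') := by
  have e1 : pr (l.map θ) = pr ((l.flatMap (fib ρ)).map θ') := by
    rw [List.map_flatMap, pr_flatMap]
    unfold pr
    rw [List.map_map]
    congr 1
    apply List.map_congr_left
    intro y _
    exact hθ y
  rw [e1]
  by_cases hs : l'.length < 2 * k
  · have hll : l.length = l'.length := by omega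
    rw [short_eq_map h hll hs, flatMap_fib _ fun x hx => hsp x (Spec.of_short hs hx)]
  · have hl' : 2 * k ≤ l'.length := by omega
    have hl : 2 * k ≤ l.length := by omega
    have h1 : (l.take k).flatMap (fib ρ) = l'.take k := by
      rw [take_eq_map h (by omega)]
      exact flatMap_fib _ fun x hx => hsp x (Spec.of_take hx)
    have h2 : ((l.reverse.take k).reverse).flatMap (fib ρ) = (l'.reverse.take k).reverse := by
      rw [take_reverse_eq_map h (by omega), ← List.map_reverse]
      exact flatMap_fib _ fun x hx => hsp x (Spec.of_take_reverse (List.mem_reverse.1 hx))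
    conv_lhs => rw [split_mid k l hl]
    conv_rhs => rw [split_mid k l' hl']
    rw [List.flatMap_append, List.flatMap_append, h1, h2]
    simp only [List.map_append, pr_append]
    refine mid_eq hP hc θ' _ _ (fun x => ?_) (by simp; omega) (by simp; omega)
    rw [count_flatMap_ind (fib ρ) ρ x (fun y => fib_count ρ y x)]
    exact ty_red (h x)

end Pool.Agent.Lib.MP_88bd66_lcP
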